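import Pool.Agent.UDG.St

/-!
Module CG of the project UDG (MP_84f0c5_lc): the grammar of a control grammar generates the outputs of
the runs which end without a control symbol and without counter symbols.
-/

set_option autoImplicit false

namespace Pool.Agent.UDG

open Pool.Agent.SCG Relation

namespace CGM

variable {T C K : Type}

theorem tw_append (u v : List T) : (tw (u ++ v) : List (T ⊕ (C ⊕ K))) = tw u ++ tw v :=
  List.map_append

theorem kw_append (u v : List K) : (kw (u ++ v) : List (T ⊕ (C ⊕ K))) = kw u ++ kw v :=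
  List.map_append

theorem not_mem_tw (u : List T) (s : C ⊕ K) : (Sum.inr s : T ⊕ (C ⊕ K)) ∉ (tw u : List (T ⊕ (C ⊕ K))) := by
  intro h
  obtain ⟨x, -, hx⟩ := List.mem_map.1 h
  cases hx

theorem ctl_not_mem_kw (v : List K) (p : C) :
    (Sum.inr (Sum.inl p) : T ⊕ (C ⊕ K)) ∉ (kw v : List (T ⊕ (C ⊕ K))) := by
  intro h
  obtain ⟨x, -, hx⟩ := List.mem_map.1 h
  cases hx

theorem mem_kw (v : List K) (x : K) :
    (Sum.inr (Sum.inr x) : T ⊕ (C ⊕ K)) ∈ (kw v : List (T ⊕ (C ⊕ K))) ↔ x ∈ v := by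
  constructor
  · intro h
    obtain ⟨y, hy, hx⟩ := List.mem_map.1 h
    cases hx
    exact hy
  · intro h
    exact List.mem_map.2 ⟨x, h, rfl⟩

theorem mem_qw (q : Option C) (p : C) :
    (Sum.inr (Sum.inl p) : T ⊕ (C ⊕ K)) ∈ (qw q : List (T ⊕ (C ⊕ K))) ↔ q = some p := by
  cases q with
  | none => simp [qw]
  | some q =>
    simp only [qw, Option.toList_some, List.map_cons, List.map_nil, List.mem_singleton,
      Sum.inr.injEq, Sum.inl.injEq, Option.some.injEq]
    exact eq_comm

theorem cnt_not_mem_qw (q : Option C) (x : K) :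
    (Sum.inr (Sum.inr x) : T ⊕ (C ⊕ K)) ∉ (qw q : List (T ⊕ (C ⊕ K))) := by
  intro h
  obtain ⟨y, -, hx⟩ := List.mem_map.1 h
  cases hx

/-- The form `tw u ++ qw q ++ kw v`. -/
def frm (u : List T) (q : Option C) (v : List K) : List (T ⊕ (C ⊕ K)) := tw u ++ qw q ++ kw v

theorem ctl_mem_frm (u : List T) (q : Option C) (v : List K) (p : C) :
    (Sum.inr (Sum.inl p) : T ⊕ (C ⊕ K)) ∈ frm u q v ↔ q = some p := by
  simp only [frm, List.mem_append, not_mem_tw, ctl_not_mem_kw, mem_qw, false_or, or_false]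

theorem cnt_mem_frm (u : List T) (q : Option C) (v : List K) (x : K) :
    (Sum.inr (Sum.inr x) : T ⊕ (C ⊕ K)) ∈ frm u q v ↔ x ∈ v := by
  simp only [frm, List.mem_append, not_mem_tw, cnt_not_mem_qw, mem_kw, false_or]

theorem single_infix {α : Type} (s : α) (l : List α) : [s] <:+: l ↔ s ∈ l := by
  constructor
  · rintro ⟨a, b, rfl⟩
    simp
  · intro h
    obtain ⟨a, b, rfl⟩ := List.append_of_mem h
    exact ⟨a, b, by simp⟩

theorem split_ctl {u : List T} {q : Option C} {v : List K} {p : C} {a b : List (T ⊕ (C ⊕ K))}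
    (h : frm u q v = a ++ Sum.inr (Sum.inl p) :: b) : q = some p ∧ a = tw u ∧ b = kw v := by
  have hq : q = some p := by
    rw [← ctl_mem_frm u q v p, h]
    simp
  subst hq
  have h' : (tw u : List (T ⊕ (C ⊕ K))) ++ (Sum.inr (Sum.inl p) :: kw v) =
      a ++ Sum.inr (Sum.inl p) :: b := by
    rw [← h]
    simp [frm, qw]
  refine ⟨rfl, ?_⟩
  rcases List.append_eq_append_iff.1 h' with ⟨a', h1, h2⟩ | ⟨c', h1, h2⟩
  · cases a' with
    | nil =>
      simp only [List.append_nil] at h1
      simp only [List.nil_append, List.cons.injEq, true_and] at h2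
      exact ⟨h1, h2.symm⟩
    | cons s t =>
      simp only [List.cons_append, List.cons.injEq] at h2
      have : (Sum.inr (Sum.inl p) : T ⊕ (C ⊕ K)) ∈ (kw v : List (T ⊕ (C ⊕ K))) := by
        rw [h2.2]
        simp
      exact absurd this (ctl_not_mem_kw v p)
  · cases c' with
    | nil =>
      simp only [List.append_nil] at h1
      simp only [List.nil_append, List.cons.injEq, true_and] at h2
      exact ⟨h1.symm, h2⟩
    | cons s t =>
      simp only [List.cons_append, List.cons.injEq] at h2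
      have : (Sum.inr (Sum.inl p) : T ⊕ (C ⊕ K)) ∈ (tw u : List (T ⊕ (C ⊕ K))) := by
        rw [h1, h2.1]
        simp
      exact absurd this (not_mem_tw u _)

theorem split_cnt {u : List T} {q : Option C} {v : List K} {x : K} {a b : List (T ⊕ (C ⊕ K))}
    (h : frm u q v = a ++ Sum.inr (Sum.inr x) :: b) :
    ∃ v₁ v₂ : List K, v = v₁ ++ x :: v₂ ∧ a = tw u ++ qw q ++ kw v₁ ∧ b = kw v₂ := by
  have hp : (Sum.inr (Sum.inr x) : T ⊕ (C ⊕ K)) ∉ (tw u ++ qw q : List (T ⊕ (C ⊕ K))) := by
    intro h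
    rcases List.mem_append.1 h with h | h
    · exact not_mem_tw u _ h
    · exact cnt_not_mem_qw q x h
  unfold frm at h
  have key : ∃ a' : List (T ⊕ (C ⊕ K)), a = tw u ++ qw q ++ a' ∧
      kw v = a' ++ Sum.inr (Sum.inr x) :: b := by
    rcases List.append_eq_append_iff.1 h with ⟨a', h1, h2⟩ | ⟨c', h1, h2⟩
    · exact ⟨a', h1, h2⟩
    · cases c' with
      | nil =>
        refine ⟨[], ?_, ?_⟩
        · rw [h1]
          simp
        · simpa using h2.symm
      | cons s t =>
        exfalso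
        apply hp
        simp only [List.cons_append, List.cons.injEq] at h2
        rw [h1, h2.1]
        simp
  obtain ⟨a', h1, h2⟩ := key
  obtain ⟨v₁, w, rfl, h3, h4⟩ := List.map_eq_append_iff.1 h2
  obtain ⟨x', v₂, rfl, h5, h6⟩ := List.map_eq_cons_iff.1 h4
  cases h5
  exact ⟨v₁, v₂, rfl, by rw [h1, ← h3]; rfl, h6.symm⟩

/-- The form `f` represents the configuration `c`. -/
def Rep [DecidableEq K] (f : List (T ⊕ (C ⊕ K))) (c : List T × Option C × (K → ℕ)) : Prop :=
  ∃ v : List K, f = frm c.1 c.2.1 v ∧ ∀ x, v.count x = c.2.2 x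

theorem cond_iff [DecidableEq K] (u : List T) (q : Option C) (v : List K) (m : K → ℕ)
    (hm : ∀ x, v.count x = m x) (d : Cond C K) :
    ((∀ α, (d.permW : Option (List (T ⊕ (C ⊕ K)))) = some α → α <:+: frm u q v) ∧
      (∀ β, (d.forbW : Option (List (T ⊕ (C ⊕ K)))) = some β → ¬ β <:+: frm u q v)) ↔
      d.Holds q m := by
  have hx : ∀ x, x ∈ v ↔ 1 ≤ m x := fun x => by
    rw [← hm x]
    exact List.count_pos_iff.symm
  have hx0 : ∀ x, x ∉ v ↔ m x = 0 := fun x => by
    rw [hx x]
    omega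
  match d with
  | .non => simp [Cond.permW, Cond.forbW, Cond.Holds]
  | .prm (Sum.inl q') => simp [Cond.permW, Cond.forbW, Cond.Holds, single_infix, ctl_mem_frm]
  | .prm (Sum.inr x) => simp [Cond.permW, Cond.forbW, Cond.Holds, single_infix, cnt_mem_frm, hx]
  | .frb (Sum.inl q') => simp [Cond.permW, Cond.forbW, Cond.Holds, single_infix, ctl_mem_frm]
  | .frb (Sum.inr x) => simp [Cond.permW, Cond.forbW, Cond.Holds, single_infix, cnt_mem_frm, hx0]

/-- The step of the grammar. -/
def Stp (g : CG T C K) (f f' : List (T ⊕ (C ⊕ K))) : Prop :=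
  ∃ r : Rule T (C ⊕ K), ((∃ r' ∈ g.cr, r'.toRule = r) ∨ ∃ r' ∈ g.kr, r'.toRule = r) ∧
    ∃ a b : List (T ⊕ (C ⊕ K)), f = a ++ Sum.inr r.lhs :: b ∧ f' = a ++ r.rhs ++ b ∧
      (∀ α, r.perm = some α → α <:+: f) ∧ (∀ β, r.forb = some β → ¬ β <:+: f)

theorem step_iff [Finite C] [Finite K] (g : CG T C K) (q0 : C) (f f' : List (T ⊕ (C ⊕ K))) :
    (g.toGrammar q0).Step f f' ↔ Stp g f f' := by
  have h : ∀ r : Rule T (C ⊕ K), r ∈ (g.toGrammar q0).rules ↔
      (∃ r' ∈ g.cr, r'.toRule = r) ∨ ∃ r' ∈ g.kr, r'.toRule = r := by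
    intro r
    simp only [CG.toGrammar, List.mem_append, List.mem_map]
    exact Iff.rfl
  constructor
  · rintro ⟨r, hr, a, b, h1⟩
    exact ⟨r, (h r).1 hr, a, b, h1⟩
  · rintro ⟨r, hr, a, b, h1⟩
    exact ⟨r, (h r).2 hr, a, b, h1⟩

theorem step_fwd [DecidableEq K] (g : CG T C K) {f f' : List (T ⊕ (C ⊕ K))}
    {c : List T × Option C × (K → ℕ)} (hf : Rep f c)
    (h : Stp g f f') : ∃ c', g.Step c c' ∧ Rep f' c' := by
  obtain ⟨u, q, m⟩ := c
  obtain ⟨v, hfv, hm⟩ := hf
  simp only at hfv hm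
  obtain ⟨r, hr, a, b, h1, h2, h3, h4⟩ := h
  rcases hr with ⟨r', hr', rfl⟩ | ⟨r', hr', rfl⟩
  · have hc : r'.cond.Holds q m := by
      rw [← cond_iff u q v m hm r'.cond]
      rw [← hfv]
      exact ⟨h3, h4⟩
    rw [hfv] at h1
    obtain ⟨hq, ha, hb⟩ := split_ctl h1
    refine ⟨(u ++ r'.out, r'.nxt, fun x => m x + r'.add.count x), Or.inl ⟨r', hr', hq, hc, rfl, rfl,
      fun x => rfl⟩, r'.add ++ v, ?_, ?_⟩
    · simp only [frm]
      rw [h2, ha, hb, tw_append, kw_append]
      simp [CRule.toRule, List.append_assoc]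
    · intro x
      simp only [List.count_append, hm x]
      omega
  · have hc : r'.cond.Holds q m := by
      rw [← cond_iff u q v m hm r'.cond]
      rw [← hfv]
      exact ⟨h3, h4⟩
    rw [hfv] at h1
    obtain ⟨v₁, v₂, hv, ha, hb⟩ := split_cnt h1
    refine ⟨(u, q, fun x => (v₁ ++ r'.add ++ v₂).count x), Or.inr ⟨r', hr', ?_, hc, rfl, rfl, ?_⟩,
      v₁ ++ r'.add ++ v₂, ?_, fun x => rfl⟩
    · simp only
      rw [← hm, hv]
      simp only [List.count_append, List.count_cons_self]
      omega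
    · intro x
      simp only
      rw [← hm x, hv]
      by_cases hx : x = r'.x
      · subst hx
        simp only [List.count_append, List.count_cons_self, if_true]
        omega
      · rw [if_neg hx]
        simp only [List.count_append, List.count_cons_of_ne (Ne.symm hx)]
        omega
    · simp only [frm]
      rw [h2, ha, hb, kw_append, kw_append]
      simp [KRule.toRule, List.append_assoc]

theorem step_bwd [DecidableEq K] (g : CG T C K) {f : List (T ⊕ (C ⊕ K))}
    {c c' : List T × Option C × (K → ℕ)} (hf : Rep f c)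
    (h : g.Step c c') : ∃ f', Stp g f f' ∧ Rep f' c' := by
  obtain ⟨u, q, m⟩ := c
  obtain ⟨u', q', m'⟩ := c'
  obtain ⟨v, hfv, hm⟩ := hf
  simp only at hfv hm
  rcases h with ⟨r, hr, h1, h2, h3, h4, h5⟩ | ⟨r, hr, h1, h2, h3, h4, h5⟩
  · simp only at h1 h2 h3 h4 h5
    have hc := (cond_iff u q v m hm r.cond).2 h2
    refine ⟨tw u ++ (tw r.out ++ qw r.nxt ++ kw r.add) ++ kw v, ⟨r.toRule,
      Or.inl ⟨r, hr, rfl⟩, tw u, kw v, ?_, rfl, ?_, ?_⟩, r.add ++ v, ?_, ?_⟩
    · rw [hfv, h1]
      simp [frm, qw, CRule.toRule]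
    · rw [hfv]
      exact hc.1
    · rw [hfv]
      exact hc.2
    · simp only [frm]
      rw [h3, h4, tw_append, kw_append]
      simp [List.append_assoc]
    · intro x
      simp only
      rw [h5 x, List.count_append, hm x]
      omega
  · simp only at h1 h2 h3 h4 h5
    have hc := (cond_iff u q v m hm r.cond).2 h2
    have hxv : r.x ∈ v := by
      rw [← hm] at h1
      exact List.count_pos_iff.1 h1
    obtain ⟨v₁, v₂, rfl⟩ := List.append_of_mem hxv
    refine ⟨(tw u ++ qw q ++ kw v₁) ++ kw r.add ++ kw v₂, ⟨r.toRule,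
      Or.inr ⟨r, hr, rfl⟩, tw u ++ qw q ++ kw v₁, kw v₂, ?_, rfl, ?_, ?_⟩,
      v₁ ++ r.add ++ v₂, ?_, ?_⟩
    · rw [hfv]
      simp only [frm]
      rw [kw_append]
      simp [kw, KRule.toRule, List.append_assoc]
    · rw [hfv]
      exact hc.1
    · rw [hfv]
      exact hc.2
    · simp only [frm]
      rw [h3, h4, kw_append, kw_append]
      simp [List.append_assoc]
    · intro x
      simp only
      have e := h5 x
      rw [← hm x] at e
      by_cases hx : x = r.x
      · subst hx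
        simp only [List.count_append, List.count_cons_self, if_true] at e ⊢
        omega
      · rw [if_neg hx] at e
        simp only [List.count_append, List.count_cons_of_ne (Ne.symm hx)] at e ⊢
        omega

theorem derives_iff {G : Grammar T} (u v : List (T ⊕ G.N)) :
    (∃ m, G.Derives m u v) ↔ ReflTransGen G.Step u v := by
  constructor
  · rintro ⟨m, h⟩
    induction m generalizing u with
    | zero =>
      rw [show u = v from h]
    | succ m ih =>
      obtain ⟨x, h1, h2⟩ := h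
      exact ReflTransGen.head h1 (ih x h2)
  · intro h
    induction h using ReflTransGen.head_induction_on with
    | refl => exact ⟨0, rfl⟩
    | head h1 _ ih =>
      obtain ⟨m, hm⟩ := ih
      exact ⟨m + 1, _, h1, hm⟩

section

variable [Finite C] [Finite K] [DecidableEq K] (g : CG T C K) (q0 : C)

theorem runs_fwd {f f' : List (T ⊕ (C ⊕ K))} {c : List T × Option C × (K → ℕ)} (hf : Rep f c)
    (h : ReflTransGen (g.toGrammar q0).Step f f') : ∃ c', ReflTransGen g.Step c c' ∧ Rep f' c' := by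
  induction h with
  | refl => exact ⟨c, ReflTransGen.refl, hf⟩
  | tail _ h2 ih =>
    obtain ⟨c', h3, h4⟩ := ih
    obtain ⟨c'', h5, h6⟩ := step_fwd g h4 ((step_iff g q0 _ _).1 h2)
    exact ⟨c'', h3.tail h5, h6⟩

theorem runs_bwd {f : List (T ⊕ (C ⊕ K))} {c c' : List T × Option C × (K → ℕ)} (hf : Rep f c)
    (h : ReflTransGen g.Step c c') : ∃ f', ReflTransGen (g.toGrammar q0).Step f f' ∧ Rep f' c' := by
  induction h with
  | refl => exact ⟨f, ReflTransGen.refl, hf⟩
  | tail _ h2 ih =>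
    obtain ⟨f', h3, h4⟩ := ih
    obtain ⟨f'', h5, h6⟩ := step_bwd g h4 h2
    exact ⟨f'', h3.tail ((step_iff g q0 _ _).2 h5), h6⟩

end

theorem rep_end [DecidableEq K] {w : List T} {c : List T × Option C × (K → ℕ)}
    (h : Rep (w.map Sum.inl : List (T ⊕ (C ⊕ K))) c) : c = (w, none, fun _ => 0) := by
  obtain ⟨u, q, m⟩ := c
  obtain ⟨v, h1, h2⟩ := h
  simp only at h1 h2
  have hq : q = none := by
    cases q with
    | none => rfl
    | some p =>
      have : (Sum.inr (Sum.inl p) : T ⊕ (C ⊕ K)) ∈ (tw w : List (T ⊕ (C ⊕ K))) := by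
        show _ ∈ (w.map Sum.inl : List (T ⊕ (C ⊕ K)))
        rw [h1, ctl_mem_frm]
      exact absurd this (not_mem_tw w _)
  have hv : v = [] := by
    cases v with
    | nil => rfl
    | cons x v =>
      have : (Sum.inr (Sum.inr x) : T ⊕ (C ⊕ K)) ∈ (tw w : List (T ⊕ (C ⊕ K))) := by
        show _ ∈ (w.map Sum.inl : List (T ⊕ (C ⊕ K)))
        rw [h1, cnt_mem_frm]
        simp
      exact absurd this (not_mem_tw w _)
  subst hq hv
  have hw : w = u := by
    simp only [frm, qw, kw, tw, Option.toList_none, List.map_nil, List.append_nil] at h1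
    exact List.map_injective_iff.2 Sum.inl_injective h1
  subst hw
  have hm : m = fun _ => 0 := by
    funext x
    rw [← h2 x]
    simp
  rw [hm]

end CGM

open CGM in
theorem t_CG : S_CG := by
  intro T C K _ _ _ g q0 w
  have h0 : Rep [Sum.inr (Sum.inl q0)] (([], some q0, fun _ => 0) : List T × Option C × (K → ℕ)) :=
    ⟨[], by simp [frm, qw, tw, kw], fun x => by simp⟩
  constructor
  · rintro ⟨n, hn⟩
    have h1 : ReflTransGen (g.toGrammar q0).Step [Sum.inr (Sum.inl q0)] (w.map Sum.inl) :=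
      (derives_iff _ _).1 ⟨n, hn⟩
    obtain ⟨c', h2, h3⟩ := runs_fwd g q0 h0 h1
    rw [rep_end h3] at h2
    exact h2
  · intro h
    obtain ⟨f', h2, h3⟩ := runs_bwd g q0 h0 h
    obtain ⟨v, h4, h5⟩ := h3
    simp only at h4 h5
    have hv : v = [] := List.eq_nil_iff_forall_not_mem.2 fun x hx => by
      have := List.count_pos_iff.2 hx
      rw [h5 x] at this
      omega
    have hfr : (frm w none ([] : List K) : List (T ⊕ (C ⊕ K))) = w.map Sum.inl := by
      simp [frm, qw, kw, tw]
    rw [hv, hfr] at h4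
    rw [h4] at h2
    exact (derives_iff _ _).2 h2

end Pool.Agent.UDG
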