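import Pool.Agent.UDG.St

/-!
Completeness of the 13-state control: one step of the system is simulated by the control grammar.
-/

set_option autoImplicit false

namespace Pool.Agent.UDG

open Pool.Agent.SCG Relation

namespace CPL

/-- The store with the given numbers of counter symbols. -/
def M (n y w z z' : ℕ) : Cnt → ℕ
  | .N => n
  | .Y => y
  | .W => w
  | .Z => z
  | .Z' => z'

variable {T : Type} {S : Sys T}

theorem cs (r : CRule T Ctl Cnt) (hr : r ∈ S.cg.cr) (u : List T) (m m' : Cnt → ℕ)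
    (hc : r.cond.Holds (some r.q) m) (h : ∀ x, m' x = m x + r.add.count x) :
    S.cg.Step (u, some r.q, m) (u ++ r.out, r.nxt, m') :=
  Or.inl ⟨r, hr, rfl, hc, rfl, rfl, h⟩

theorem fx (r : CRule T Ctl Cnt) (hr : r ∈ fixedC S.D S.n0 S.a) (u : List T) (m m' : Cnt → ℕ)
    (hc : r.cond.Holds (some r.q) m) (ho : r.out = []) (h : ∀ x, m' x = m x + r.add.count x) :
    S.cg.Step (u, some r.q, m) (u, r.nxt, m') := by
  have h1 := cs (S := S) r (List.mem_append_left _ hr) u m m' hc h
  rwa [ho, List.append_nil] at h1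

theorem ks (r : KRule Ctl Cnt) (hr : r ∈ fixedK) (u : List T) (q : Option Ctl) (m m' : Cnt → ℕ)
    (h1 : 1 ≤ m r.x) (hc : r.cond.Holds q m)
    (h : ∀ x, m' x + (if x = r.x then 1 else 0) = m x + r.add.count x) :
    S.cg.Step (u, q, m) (u, q, m') :=
  Or.inr ⟨r, hr, h1, hc, rfl, rfl, h⟩

theorem start : S.cg.Step (([] : List T), some .st, fun _ => 0)
    ([], some .c0, M S.n0 0 0 0 0) := by
  refine fx ⟨.st, [], some .c0, List.replicate S.n0 .N, .non⟩ (by simp [fixedC]) [] _ _
    trivial rfl ?_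
  rintro (_ | _ | _ | _ | _) <;> simp [M, List.count_replicate]

theorem finish (u : List T) : S.cg.Step (u, some .c0, M 0 0 0 0 0) (u, none, fun _ => 0) := by
  refine fx ⟨.c0, [], none, [], .non⟩ (by simp [fixedC]) u _ _ trivial rfl ?_
  rintro (_ | _ | _ | _ | _) <;> simp [M]

theorem table (e : Entry T) (he : e ∈ S.tab) (u : List T) (n : ℕ) :
    S.cg.Step (u, some .c0, M n 0 0 0 0) (u ++ e.out, some (pk e.kind), M n e.r e.c 0 0) := by
  refine cs e.rule (List.mem_append_right _ (List.mem_map_of_mem he)) u _ _ trivial ?_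
  rintro (_ | _ | _ | _ | _) <;> simp [M, Entry.rule, List.count_append, List.count_replicate]

theorem pump (k : Fin 3) (u : List T) (n y w : ℕ) :
    S.cg.Step (u, some (pk (some k)), M n y w 0 0)
      (u, some (pk (some k)), M n (y + S.D) (w + S.a k) 0 0) := by
  fin_cases k
  · refine fx ⟨.p1, [], some .p1, List.replicate S.D .Y ++ List.replicate (S.a 0) .W, .non⟩
      (by simp [fixedC]) u _ _ trivial rfl ?_
    rintro (_ | _ | _ | _ | _) <;> simp [M, List.count_append, List.count_replicate]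
  · refine fx ⟨.p2, [], some .p2, List.replicate S.D .Y ++ List.replicate (S.a 1) .W, .non⟩
      (by simp [fixedC]) u _ _ trivial rfl ?_
    rintro (_ | _ | _ | _ | _) <;> simp [M, List.count_append, List.count_replicate]
  · refine fx ⟨.p3, [], some .p3, List.replicate S.D .Y ++ List.replicate (S.a 2) .W, .non⟩
      (by simp [fixedC]) u _ _ trivial rfl ?_
    rintro (_ | _ | _ | _ | _) <;> simp [M, List.count_append, List.count_replicate]

theorem leave (k : Fin 3) (u : List T) (m : Cnt → ℕ) :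
    S.cg.Step (u, some (pk (some k)), m) (u, some .c5, m) := by
  fin_cases k
  · exact fx ⟨.p1, [], some .c5, [], .non⟩ (by simp [fixedC]) u _ _ trivial rfl (by simp)
  · exact fx ⟨.p2, [], some .c5, [], .non⟩ (by simp [fixedC]) u _ _ trivial rfl (by simp)
  · exact fx ⟨.p3, [], some .c5, [], .non⟩ (by simp [fixedC]) u _ _ trivial rfl (by simp)

theorem pumps (k : Fin 3) (u : List T) (n y w v : ℕ) :
    ReflTransGen S.cg.Step (u, some (pk (some k)), M n y w 0 0)
      (u, some (pk (some k)), M n (S.D * v + y) (S.a k * v + w) 0 0) := by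
  induction v with
  | zero => simpa using ReflTransGen.refl
  | succ v ih =>
    have h := pump (S := S) k u n (S.D * v + y) (S.a k * v + w)
    have e1 : S.D * v + y + S.D = S.D * (v + 1) + y := by ring
    have e2 : S.a k * v + w + S.a k = S.a k * (v + 1) + w := by ring
    rw [e1, e2] at h
    exact ih.tail h

/-- One round of the main loop. -/
theorem round (u : List T) (n y w : ℕ) :
    ReflTransGen S.cg.Step (u, some .c5, M (n + 1) (y + 1) w 0 0) (u, some .c5, M n y w 0 0) := by
  have s1 : S.cg.Step (u, some .c5, M (n + 1) (y + 1) w 0 0)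
      (u, some .d0, M (n + 1) (y + 1) w 0 0) :=
    fx ⟨.c5, [], some .d0, [], .non⟩ (by simp [fixedC]) u _ _ trivial rfl (by simp)
  have s2 : S.cg.Step (u, some .d0, M (n + 1) (y + 1) w 0 0) (u, some .d0, M (n + 1) y w 1 0) := by
    refine ks ⟨.Y, [.Z], .prm (Sum.inl .d0)⟩ (by simp [fixedK]) u _ _ _ (by simp [M]) rfl ?_
    rintro (_ | _ | _ | _ | _) <;> simp [M]
  have s3 : S.cg.Step (u, some .d0, M (n + 1) y w 1 0) (u, some .d1, M (n + 1) y w 1 0) :=
    fx ⟨.d0, [], some .d1, [], .prm (Sum.inr .Z)⟩ (by simp [fixedC]) u _ _ le_rfl rfl (by simp)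
  have s4 : S.cg.Step (u, some .d1, M (n + 1) y w 1 0) (u, some .d1, M (n + 1) y w 0 1) := by
    refine ks ⟨.Z, [.Z'], .frb (Sum.inr .Z')⟩ (by simp [fixedK]) u _ _ _ le_rfl rfl ?_
    rintro (_ | _ | _ | _ | _) <;> simp [M]
  have s5 : S.cg.Step (u, some .d1, M (n + 1) y w 0 1) (u, some .c6, M (n + 1) y w 0 1) :=
    fx ⟨.d1, [], some .c6, [], .frb (Sum.inr .Z)⟩ (by simp [fixedC]) u _ _ rfl rfl (by simp)
  have s6 : S.cg.Step (u, some .c6, M (n + 1) y w 0 1) (u, some .c6, M (n + 1) y w 0 0) := by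
    refine ks ⟨.Z', [], .prm (Sum.inl .c6)⟩ (by simp [fixedK]) u _ _ _ le_rfl rfl ?_
    rintro (_ | _ | _ | _ | _) <;> simp [M]
  have s7 : S.cg.Step (u, some .c6, M (n + 1) y w 0 0) (u, some .e0, M (n + 1) y w 0 0) :=
    fx ⟨.c6, [], some .e0, [], .non⟩ (by simp [fixedC]) u _ _ trivial rfl (by simp)
  have s8 : S.cg.Step (u, some .e0, M (n + 1) y w 0 0) (u, some .e0, M n y w 1 0) := by
    refine ks ⟨.N, [.Z], .prm (Sum.inl .e0)⟩ (by simp [fixedK]) u _ _ _ (by simp [M]) rfl ?_
    rintro (_ | _ | _ | _ | _) <;> simp [M]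
  have s9 : S.cg.Step (u, some .e0, M n y w 1 0) (u, some .e1, M n y w 1 0) :=
    fx ⟨.e0, [], some .e1, [], .prm (Sum.inr .Z)⟩ (by simp [fixedC]) u _ _ le_rfl rfl (by simp)
  have s10 : S.cg.Step (u, some .e1, M n y w 1 0) (u, some .e1, M n y w 0 1) := by
    refine ks ⟨.Z, [.Z'], .frb (Sum.inr .Z')⟩ (by simp [fixedK]) u _ _ _ le_rfl rfl ?_
    rintro (_ | _ | _ | _ | _) <;> simp [M]
  have s11 : S.cg.Step (u, some .e1, M n y w 0 1) (u, some .c5, M n y w 0 1) :=
    fx ⟨.e1, [], some .c5, [], .frb (Sum.inr .Z)⟩ (by simp [fixedC]) u _ _ rfl rfl (by simp)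
  have s12 : S.cg.Step (u, some .c5, M n y w 0 1) (u, some .c5, M n y w 0 0) := by
    refine ks ⟨.Z', [], .prm (Sum.inl .c5)⟩ (by simp [fixedK]) u _ _ _ le_rfl rfl ?_
    rintro (_ | _ | _ | _ | _) <;> simp [M]
  exact ((((((((((((ReflTransGen.refl.tail s1).tail s2).tail s3).tail s4).tail s5).tail s6).tail
    s7).tail s8).tail s9).tail s10).tail s11).tail s12)

theorem rounds (u : List T) (n w : ℕ) :
    ReflTransGen S.cg.Step (u, some .c5, M n n w 0 0) (u, some .c5, M 0 0 w 0 0) := by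
  induction n with
  | zero => exact .refl
  | succ n ih => exact (round u n n w).trans ih

theorem back (u : List T) (n w : ℕ) :
    ReflTransGen S.cg.Step (u, some .c8, M n 0 w 0 0) (u, some .c8, M (n + w) 0 0 0 0) := by
  induction w generalizing n with
  | zero => exact .refl
  | succ w ih =>
    have s : S.cg.Step (u, some .c8, M n 0 (w + 1) 0 0) (u, some .c8, M (n + 1) 0 w 0 0) := by
      refine ks ⟨.W, [.N], .prm (Sum.inl .c8)⟩ (by simp [fixedK]) u _ _ _ (by simp [M]) rfl ?_
      rintro (_ | _ | _ | _ | _) <;> simp [M]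
    have h := ih (n + 1)
    have e : n + 1 + w = n + (w + 1) := by ring
    rw [e] at h
    exact ReflTransGen.head s h

/-- The main loop and the last part. -/
theorem loop (u : List T) (n n' : ℕ) :
    ReflTransGen S.cg.Step (u, some .c5, M n n n' 0 0) (u, some .c0, M n' 0 0 0 0) := by
  have s1 : S.cg.Step (u, some .c5, M 0 0 n' 0 0) (u, some .c7, M 0 0 n' 0 0) :=
    fx ⟨.c5, [], some .c7, [], .frb (Sum.inr .Y)⟩ (by simp [fixedC]) u _ _ rfl rfl (by simp)
  have s2 : S.cg.Step (u, some .c7, M 0 0 n' 0 0) (u, some .c8, M 0 0 n' 0 0) :=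
    fx ⟨.c7, [], some .c8, [], .frb (Sum.inr .N)⟩ (by simp [fixedC]) u _ _ rfl rfl (by simp)
  have s3 := back (S := S) u 0 n'
  rw [zero_add] at s3
  have s4 : S.cg.Step (u, some .c8, M n' 0 0 0 0) (u, some .c0, M n' 0 0 0 0) :=
    fx ⟨.c8, [], some .c0, [], .frb (Sum.inr .W)⟩ (by simp [fixedC]) u _ _ rfl rfl (by simp)
  exact ((((rounds u n n').tail s1).tail s2).trans s3).tail s4

/-- One step of the system. -/
theorem one (u u' : List T) (n n' : ℕ) (h : S.Step (u, n) (u', n')) :
    ReflTransGen S.cg.Step (u, some .c0, M n 0 0 0 0) (u', some .c0, M n' 0 0 0 0) := by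
  obtain ⟨e, he, hm, hu⟩ := h
  simp only at hm hu
  subst hu
  have h1 := table (S := S) e he u n
  unfold Sys.Moves at hm
  cases hk : e.kind with
  | none =>
    rw [hk] at hm h1
    obtain ⟨hn, hn'⟩ := hm
    subst hn hn'
    exact ReflTransGen.head h1 (loop _ _ _)
  | some k =>
    rw [hk] at hm h1
    obtain ⟨v, hn, hn'⟩ := hm
    have h2 := pumps (S := S) k (u ++ e.out) n e.r e.c v
    rw [← hn, ← hn'] at h2
    exact ReflTransGen.head h1 ((h2.tail (leave k _ _)).trans (loop _ _ _))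

end CPL

/-- **CPL**, completeness of the control. -/
theorem t_CPL : S_CPL := by
  intro T S w hw
  have h : ∀ x : List T × ℕ, ReflTransGen S.Step ([], S.n0) x →
      ReflTransGen S.cg.Step (([] : List T), some .st, fun _ => 0)
        (x.1, some .c0, CPL.M x.2 0 0 0 0) := by
    intro x hx
    induction hx with
    | refl => exact .single CPL.start
    | tail _ hb ih => exact ih.trans (CPL.one _ _ _ _ hb)
  exact (h (w, 0) hw).tail (CPL.finish w)

end Pool.Agent.UDG
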