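import Mathlib
import Pool.Agent.SCG.Defs

/-!
Definitions for the theorem (18 nonterminals and 13 conditional rules suffice) of MP_84f0c5_lc
(helper26).  See `Pool/Agent/UDG/St.lean` for the statements and the proofs on paper.
-/

set_option autoImplicit false

namespace Pool.Agent.UDG

open Pool.Agent.SCG Relation

/-! ### Control grammars: forms `u q v`, `u` terminals, `q` a control symbol, `v` counter symbols -/

/-- The condition of a rule: no condition, a symbol which must occur, a symbol which must not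
occur. -/
inductive Cond (C K : Type) : Type
  | non : Cond C K
  | prm : C ⊕ K → Cond C K
  | frb : C ⊕ K → Cond C K

/-- The rule `q → out nxt add`, `out` a list of terminals, `nxt` a control symbol or nothing, `add`
a list of counter symbols. -/
structure CRule (T C K : Type) where
  q : C
  out : List T
  nxt : Option C
  add : List K
  cond : Cond C K

/-- The rule `x → add`, `x` a counter symbol, `add` a list of counter symbols. -/
structure KRule (C K : Type) where
  x : K
  add : List K
  cond : Cond C K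

/-- A control grammar. -/
structure CG (T C K : Type) where
  cr : List (CRule T C K)
  kr : List (KRule C K)

section

variable {T C K : Type}

/-- The permitting condition as a word. -/
def Cond.permW : Cond C K → Option (List (T ⊕ (C ⊕ K)))
  | .prm s => some [Sum.inr s]
  | _ => none

/-- The forbidding condition as a word. -/
def Cond.forbW : Cond C K → Option (List (T ⊕ (C ⊕ K)))
  | .frb s => some [Sum.inr s]
  | _ => none

/-- The word of counter symbols. -/
def kw (v : List K) : List (T ⊕ (C ⊕ K)) := v.map fun x => Sum.inr (Sum.inr x)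

/-- The word of the control symbol. -/
def qw (q : Option C) : List (T ⊕ (C ⊕ K)) := q.toList.map fun q => Sum.inr (Sum.inl q)

/-- The word of terminals. -/
def tw (u : List T) : List (T ⊕ (C ⊕ K)) := u.map Sum.inl

/-- The rule of a semi-conditional grammar. -/
def CRule.toRule (r : CRule T C K) : Rule T (C ⊕ K) where
  lhs := Sum.inl r.q
  rhs := tw r.out ++ qw r.nxt ++ kw r.add
  perm := r.cond.permW
  forb := r.cond.forbW

/-- The rule of a semi-conditional grammar. -/
def KRule.toRule (r : KRule C K) : Rule T (C ⊕ K) where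
  lhs := Sum.inr r.x
  rhs := kw r.add
  perm := r.cond.permW
  forb := r.cond.forbW

/-- The semi-conditional grammar of a control grammar. -/
def CG.toGrammar [Finite C] [Finite K] (g : CG T C K) (q0 : C) : Grammar T where
  N := C ⊕ K
  finN := inferInstance
  start := Sum.inl q0
  rules := {r | r ∈ g.cr.map CRule.toRule ++ g.kr.map KRule.toRule}
  finRules := List.finite_toSet _
  perm_ne := by
    intro r hr
    simp only [List.mem_append, List.mem_map, Set.mem_ofPred_eq] at hr
    rcases hr with ⟨r', -, rfl⟩ | ⟨r', -, rfl⟩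
    · cases h : r'.cond <;> simp [CRule.toRule, Cond.permW, h]
    · cases h : r'.cond <;> simp [KRule.toRule, Cond.permW, h]
  forb_ne := by
    intro r hr
    simp only [List.mem_append, List.mem_map, Set.mem_ofPred_eq] at hr
    rcases hr with ⟨r', -, rfl⟩ | ⟨r', -, rfl⟩
    · cases h : r'.cond <;> simp [CRule.toRule, Cond.forbW, h]
    · cases h : r'.cond <;> simp [KRule.toRule, Cond.forbW, h]

/-- The condition holds for the control symbol `q` and the numbers `m` of counter symbols. -/
def Cond.Holds (c : Cond C K) (q : Option C) (m : K → ℕ) : Prop :=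
  match c with
  | .non => True
  | .prm (Sum.inl q') => q = some q'
  | .prm (Sum.inr x) => 1 ≤ m x
  | .frb (Sum.inl q') => q ≠ some q'
  | .frb (Sum.inr x) => m x = 0

/-- One step on `(terminals, control symbol, numbers of counter symbols)`. -/
def CG.Step [DecidableEq K] (g : CG T C K) (c c' : List T × Option C × (K → ℕ)) : Prop :=
  (∃ r ∈ g.cr, c.2.1 = some r.q ∧ r.cond.Holds c.2.1 c.2.2 ∧ c'.1 = c.1 ++ r.out ∧
    c'.2.1 = r.nxt ∧ ∀ x, c'.2.2 x = c.2.2 x + r.add.count x) ∨
  ∃ r ∈ g.kr, 1 ≤ c.2.2 r.x ∧ r.cond.Holds c.2.1 c.2.2 ∧ c'.1 = c.1 ∧ c'.2.1 = c.2.1 ∧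
    ∀ x, c'.2.2 x + (if x = r.x then 1 else 0) = c.2.2 x + r.add.count x

end

/-! ### Systems `n = D v + r ↦ a v + c` with output, three multipliers `a` -/

/-- An entry of the table of a system, output `out`: `n = D v + r ↦ a k v + c` for all `v` if the kind is
`some k`; `r ↦ c` if the kind is `none`. -/
structure Entry (T : Type) where
  out : List T
  kind : Option (Fin 3)
  r : ℕ
  c : ℕ

/-- A system: modulus, three multipliers, start value, table. -/
structure Sys (T : Type) where
  D : ℕ
  a : Fin 3 → ℕ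
  n0 : ℕ
  tab : List (Entry T)

/-- The entry `e` leads from `n` to `n'`. -/
def Sys.Moves {T : Type} (S : Sys T) (e : Entry T) (n n' : ℕ) : Prop :=
  match e.kind with
  | some k => ∃ v : ℕ, n = S.D * v + e.r ∧ n' = S.a k * v + e.c
  | none => n = e.r ∧ n' = e.c

/-- One step of a system on (output, number). -/
def Sys.Step {T : Type} (S : Sys T) (x y : List T × ℕ) : Prop :=
  ∃ e ∈ S.tab, S.Moves e x.2 y.2 ∧ y.1 = x.1 ++ e.out

/-- The outputs of the runs from the start value to `0`. -/
def Sys.lang {T : Type} (S : Sys T) : Set (List T) :=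
  {w | ReflTransGen S.Step ([], S.n0) (w, 0)}

/-! ### The control grammar of a system: 13 control symbols, 5 counter symbols -/

/-- The control symbols. -/
inductive Ctl : Type
  | st | c0 | p1 | p2 | p3 | c5 | d0 | d1 | c6 | e0 | e1 | c7 | c8
  deriving DecidableEq, Fintype

/-- The control symbol of a kind. -/
def pk : Option (Fin 3) → Ctl
  | some 0 => .p1
  | some 1 => .p2
  | some 2 => .p3
  | none => .c5

/-- The counter symbols. -/
inductive Cnt : Type
  | N | Y | W | Z | Z'
  deriving DecidableEq, Fintype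

/-- The control rules which do not come from the table. -/
def fixedC {T : Type} (D n0 : ℕ) (a : Fin 3 → ℕ) : List (CRule T Ctl Cnt) :=
  [⟨.st, [], some .c0, List.replicate n0 .N, .non⟩,
   ⟨.c0, [], none, [], .non⟩,
   ⟨.p1, [], some .p1, List.replicate D .Y ++ List.replicate (a 0) .W, .non⟩,
   ⟨.p2, [], some .p2, List.replicate D .Y ++ List.replicate (a 1) .W, .non⟩,
   ⟨.p3, [], some .p3, List.replicate D .Y ++ List.replicate (a 2) .W, .non⟩,
   ⟨.p1, [], some .c5, [], .non⟩,
   ⟨.p2, [], some .c5, [], .non⟩,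
   ⟨.p3, [], some .c5, [], .non⟩,
   ⟨.c5, [], some .d0, [], .non⟩,
   ⟨.d0, [], some .d1, [], .prm (Sum.inr .Z)⟩,
   ⟨.d1, [], some .c6, [], .frb (Sum.inr .Z)⟩,
   ⟨.c6, [], some .e0, [], .non⟩,
   ⟨.e0, [], some .e1, [], .prm (Sum.inr .Z)⟩,
   ⟨.e1, [], some .c5, [], .frb (Sum.inr .Z)⟩,
   ⟨.c5, [], some .c7, [], .frb (Sum.inr .Y)⟩,
   ⟨.c7, [], some .c8, [], .frb (Sum.inr .N)⟩,
   ⟨.c8, [], some .c0, [], .frb (Sum.inr .W)⟩]

/-- The counter rules. -/
def fixedK : List (KRule Ctl Cnt) :=
  [⟨.Y, [.Z], .prm (Sum.inl .d0)⟩,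
   ⟨.Z, [.Z'], .frb (Sum.inr .Z')⟩,
   ⟨.Z', [], .prm (Sum.inl .c6)⟩,
   ⟨.N, [.Z], .prm (Sum.inl .e0)⟩,
   ⟨.Z', [], .prm (Sum.inl .c5)⟩,
   ⟨.W, [.N], .prm (Sum.inl .c8)⟩]

/-- The control rule of an entry of the table: `c0 → out q Y^r W^c`, `q = pk kind`. -/
def Entry.rule {T : Type} (e : Entry T) : CRule T Ctl Cnt :=
  ⟨.c0, e.out, some (pk e.kind), List.replicate e.r .Y ++ List.replicate e.c .W, .non⟩

/-- The control grammar of a system. -/
def Sys.cg {T : Type} (S : Sys T) : CG T Ctl Cnt where
  cr := fixedC S.D S.n0 S.a ++ S.tab.map Entry.rule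
  kr := fixedK

/-! ### Programs -/

/-- Programs (regular expressions) over basic instructions in `B`. -/
inductive Prog (B : Type) : Type
  | bas : B → Prog B
  | seq : Prog B → Prog B → Prog B
  | alt : Prog B → Prog B → Prog B
  | star : Prog B → Prog B

/-- The relation of a program. -/
def Prog.sem {B γ : Type} (β : B → γ → γ → Prop) : Prog B → γ → γ → Prop
  | .bas b => β b
  | .seq P Q => Relation.Comp (P.sem β) (Q.sem β)
  | .alt P Q => fun c c' => P.sem β c c' ∨ Q.sem β c c'
  | .star P => ReflTransGen (P.sem β)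

/-! ### Three machines: many counters, two counters, one number `2^a 3^b` -/

/-- Instructions for many counters: output a word and add a vector; subtract 1 from a counter which is
not 0; test that a counter is 0. -/
inductive Instr (T : Type) : Type
  | add : List T → (ℕ →₀ ℕ) → Instr T
  | dec : ℕ → Instr T
  | zer : ℕ → Instr T

/-- Relations on (output, store). -/
abbrev Rel (T : Type) := (List T × (ℕ →₀ ℕ)) → (List T × (ℕ →₀ ℕ)) → Prop

/-- The meaning of an instruction. -/
def Instr.sem {T : Type} : Instr T → Rel T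
  | .add u v => fun c c' => c'.1 = c.1 ++ u ∧ c'.2 = c.2 + v
  | .dec i => fun c c' => c'.1 = c.1 ∧ c.2 = c'.2 + Finsupp.single i 1
  | .zer i => fun c c' => c' = c ∧ c.2 i = 0

/-- Instructions for two counters: output a word; add 1, subtract 1, test 0 (`false`: the first counter,
`true`: the second one). -/
inductive Instr2 (T : Type) : Type
  | out : List T → Instr2 T
  | inc : Bool → Instr2 T
  | dec : Bool → Instr2 T
  | zer : Bool → Instr2 T

/-- The meaning on (output, first counter, second counter). -/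
def Instr2.sem {T : Type} : Instr2 T → List T × ℕ × ℕ → List T × ℕ × ℕ → Prop
  | .out u => fun c c' => c' = (c.1 ++ u, c.2.1, c.2.2)
  | .inc false => fun c c' => c' = (c.1, c.2.1 + 1, c.2.2)
  | .inc true => fun c c' => c' = (c.1, c.2.1, c.2.2 + 1)
  | .dec false => fun c c' => c = (c'.1, c'.2.1 + 1, c'.2.2)
  | .dec true => fun c c' => c = (c'.1, c'.2.1, c'.2.2 + 1)
  | .zer false => fun c c' => c' = c ∧ c.2.1 = 0
  | .zer true => fun c c' => c' = c ∧ c.2.2 = 0

/-- Instructions for one number: output a word and multiply by 6; divide by 2; divide by 3; multiply an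
odd number by 6; multiply a number not divisible by 3 by 6. -/
inductive Instr3 (T : Type) : Type
  | up : List T → Instr3 T
  | d2 : Instr3 T
  | d3 : Instr3 T
  | t2 : Instr3 T
  | t3 : Instr3 T

/-- The meaning on (output, number). -/
def Instr3.sem {T : Type} : Instr3 T → List T × ℕ → List T × ℕ → Prop
  | .up u => fun c c' => c'.1 = c.1 ++ u ∧ c'.2 = 6 * c.2
  | .d2 => fun c c' => c'.1 = c.1 ∧ c.2 = 2 * c'.2
  | .d3 => fun c c' => c'.1 = c.1 ∧ c.2 = 3 * c'.2
  | .t2 => fun c c' => c'.1 = c.1 ∧ ¬ 2 ∣ c.2 ∧ c'.2 = 6 * c.2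
  | .t3 => fun c c' => c'.1 = c.1 ∧ ¬ 3 ∣ c.2 ∧ c'.2 = 6 * c.2

/-- The relation `R` is the relation of a program for many counters. -/
def Real {T : Type} (R : Rel T) : Prop :=
  ∃ P : Prog (Instr T), ∀ c c', P.sem Instr.sem c c' ↔ R c c'

/-- The relation `R` is, for the stores in `D`, the relation of a program for many counters. -/
def RealOn {T : Type} (D : Set (ℕ →₀ ℕ)) (R : Rel T) : Prop :=
  ∃ P : Prog (Instr T), ∀ c c', c.2 ∈ D → (P.sem Instr.sem c c' ↔ R c c')

/-- The stores in which the counters `j ≥ n` are 0. -/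
def Low (n : ℕ) : Set (ℕ →₀ ℕ) := {s | ∀ j, n ≤ j → s j = 0}

/-! ### Automata -/

/-- One step of the automaton with the edges `E` and the skip edges `F` (states: natural numbers). -/
def AStep {B γ : Type} (β : B → γ → γ → Prop) (E : List (ℕ × B × ℕ)) (F : List (ℕ × ℕ))
    (x y : ℕ × γ) : Prop :=
  (∃ e ∈ E, e.1 = x.1 ∧ e.2.2 = y.1 ∧ β e.2.1 x.2 y.2) ∨ ((x.1, y.1) ∈ F ∧ y.2 = x.2)

/-! ### Polynomial expressions -/

/-- Expressions for polynomials with integer coefficients in the variables `0, 1, 2, …`. -/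
inductive Expr : Type
  | var : ℕ → Expr
  | cst : ℤ → Expr
  | sub : Expr → Expr → Expr
  | mul : Expr → Expr → Expr

/-- The value. -/
def Expr.eval (s : ℕ → ℕ) : Expr → ℤ
  | .var i => s i
  | .cst c => c
  | .sub e f => e.eval s - f.eval s
  | .mul e f => e.eval s * f.eval s

/-- All variables of the expression are `< n`. -/
def Expr.Below (n : ℕ) : Expr → Prop
  | .var i => i < n
  | .cst _ => True
  | .sub e f => e.Below n ∧ f.Below n
  | .mul e f => e.Below n ∧ f.Below n

/-- The positive part and the negative part of the value: `eval = pa - pb`. -/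
def Expr.pab (s : ℕ → ℕ) : Expr → ℕ × ℕ
  | .var i => (s i, 0)
  | .cst c => (c.toNat, (-c).toNat)
  | .sub e f => ((e.pab s).1 + (f.pab s).2, (e.pab s).2 + (f.pab s).1)
  | .mul e f => ((e.pab s).1 * (f.pab s).1 + (e.pab s).2 * (f.pab s).2,
      (e.pab s).1 * (f.pab s).2 + (e.pab s).2 * (f.pab s).1)

/-- The code of a word over a `k`-letter alphabet. -/
def wcode {k : ℕ} (w : List (Fin k)) : ℕ := w.foldl (fun x j => (k + 1) * x + (j + 1)) 0

end Pool.Agent.UDG
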