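import Mathlib
import Pool.Agent.UDG.Defs

/-!
Closure properties of `Real` and `RealOn` (helper26).
-/

set_option autoImplicit false

namespace Pool.Agent.UDG

open Relation

variable {T : Type}

theorem Real.congr {R R' : Rel T} (h : Real R) (e : ∀ c c', R c c' ↔ R' c c') : Real R' := by
  obtain ⟨P, hP⟩ := h
  exact ⟨P, fun c c' => (hP c c').trans (e c c')⟩

theorem Real.bas (I : Instr T) : Real I.sem := ⟨.bas I, fun _ _ => Iff.rfl⟩

theorem Real.seq {R R' : Rel T} (h : Real R) (h' : Real R') : Real (Relation.Comp R R') := by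
  obtain ⟨P, hP⟩ := h
  obtain ⟨Q, hQ⟩ := h'
  refine ⟨.seq P Q, fun c c' => ?_⟩
  simp only [Prog.sem, Relation.Comp, hP, hQ]

theorem Real.alt {R R' : Rel T} (h : Real R) (h' : Real R') : Real fun c c' => R c c' ∨ R' c c' := by
  obtain ⟨P, hP⟩ := h
  obtain ⟨Q, hQ⟩ := h'
  refine ⟨.alt P Q, fun c c' => ?_⟩
  simp only [Prog.sem, hP, hQ]

theorem Real.star {R : Rel T} (h : Real R) : Real (ReflTransGen R) := by
  obtain ⟨P, hP⟩ := h
  refine ⟨.star P, fun c c' => ?_⟩
  have : P.sem Instr.sem = R := by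
    funext c c'
    exact propext (hP c c')
  simp only [Prog.sem, this]

/-- Output `u` and add `v`. -/
theorem Real.add (u : List T) (v : ℕ →₀ ℕ) :
    Real fun c c' : List T × (ℕ →₀ ℕ) => c' = (c.1 ++ u, c.2 + v) :=
  (Real.bas (.add u v)).congr fun c c' => by
    simp only [Instr.sem]
    constructor
    · rintro ⟨h1, h2⟩
      exact Prod.ext h1 h2
    · rintro rfl
      exact ⟨rfl, rfl⟩

/-- The identity. -/
theorem Real.skip : Real fun c c' : List T × (ℕ →₀ ℕ) => c' = c :=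
  (Real.add [] 0).congr fun c c' => by simp

/-- The empty relation. -/
theorem Real.fail : Real fun _ _ : List T × (ℕ →₀ ℕ) => False :=
  ((Real.add [] (Finsupp.single 0 1)).seq (Real.bas (.zer 0))).congr fun c c' => by
    simp only [Relation.Comp, Instr.sem, iff_false]
    rintro ⟨d, rfl, -, h⟩
    simp at h

/-- A finite union of relations. -/
theorem Real.listUnion {ι : Type} (l : List ι) (R : ι → Rel T) (h : ∀ i ∈ l, Real (R i)) :
    Real fun c c' => ∃ i ∈ l, R i c c' := by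
  induction l with
  | nil => exact Real.fail.congr fun c c' => by simp
  | cons a l ih =>
    have h1 := ih fun i hi => h i (List.mem_cons_of_mem _ hi)
    exact ((h a List.mem_cons_self).alt h1).congr fun c c' => by simp

theorem Real.on {R : Rel T} (h : Real R) (D : Set (ℕ →₀ ℕ)) : RealOn D R := by
  obtain ⟨P, hP⟩ := h
  exact ⟨P, fun c c' _ => hP c c'⟩

theorem RealOn.congr {D : Set (ℕ →₀ ℕ)} {R R' : Rel T} (h : RealOn D R)
    (e : ∀ c c', c.2 ∈ D → (R c c' ↔ R' c c')) : RealOn D R' := by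
  obtain ⟨P, hP⟩ := h
  exact ⟨P, fun c c' hc => (hP c c' hc).trans (e c c' hc)⟩

theorem RealOn.mono {D D' : Set (ℕ →₀ ℕ)} {R : Rel T} (h : RealOn D R) (hD : D' ⊆ D) :
    RealOn D' R := by
  obtain ⟨P, hP⟩ := h
  exact ⟨P, fun c c' hc => hP c c' (hD hc)⟩

theorem RealOn.seq {D D' : Set (ℕ →₀ ℕ)} {R R' : Rel T} (h : RealOn D R) (h' : RealOn D' R')
    (m : ∀ c c', c.2 ∈ D → R c c' → c'.2 ∈ D') : RealOn D (Relation.Comp R R') := by
  obtain ⟨P, hP⟩ := h
  obtain ⟨Q, hQ⟩ := h'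
  refine ⟨.seq P Q, fun c c' hc => ?_⟩
  simp only [Prog.sem, Relation.Comp]
  constructor
  · rintro ⟨d, h1, h2⟩
    have h3 := (hP c d hc).1 h1
    exact ⟨d, h3, (hQ d c' (m c d hc h3)).1 h2⟩
  · rintro ⟨d, h1, h2⟩
    exact ⟨d, (hP c d hc).2 h1, (hQ d c' (m c d hc h1)).2 h2⟩

theorem RealOn.alt {D : Set (ℕ →₀ ℕ)} {R R' : Rel T} (h : RealOn D R) (h' : RealOn D R') :
    RealOn D fun c c' => R c c' ∨ R' c c' := by
  obtain ⟨P, hP⟩ := h
  obtain ⟨Q, hQ⟩ := h'
  refine ⟨.alt P Q, fun c c' hc => ?_⟩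
  simp only [Prog.sem, hP c c' hc, hQ c c' hc]

theorem RealOn.star {D : Set (ℕ →₀ ℕ)} {R : Rel T} (h : RealOn D R)
    (m : ∀ c c', c.2 ∈ D → R c c' → c'.2 ∈ D) : RealOn D (ReflTransGen R) := by
  obtain ⟨P, hP⟩ := h
  refine ⟨.star P, fun c c' hc => ?_⟩
  simp only [Prog.sem]
  constructor
  · intro hr
    have : c'.2 ∈ D ∧ ReflTransGen R c c' := by
      induction hr with
      | refl => exact ⟨hc, .refl⟩
      | tail _ hb ih =>
        have h3 := (hP _ _ ih.1).1 hb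
        exact ⟨m _ _ ih.1 h3, ih.2.tail h3⟩
    exact this.2
  · intro hr
    have : c'.2 ∈ D ∧ ReflTransGen (P.sem Instr.sem) c c' := by
      induction hr with
      | refl => exact ⟨hc, .refl⟩
      | tail _ hb ih => exact ⟨m _ _ ih.1 hb, ih.2.tail ((hP _ _ ih.1).2 hb)⟩
    exact this.2

end Pool.Agent.UDG
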