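import Mathlib
import Pool.Agent.UDG.Base

/-!
# Statements for MP_84f0c5_lc: SSC(1,1) = RE with 18 nonterminals and 13 conditional rules

(helper26, Dec 5.)  Every recursively enumerable language is generated by a simple semi-conditional
grammar of degree `(1,1)` with at most 18 nonterminals and at most 13 conditional rules.

Chain: r.e. language → polynomial equation (`S_DIO`, MRDP) → program for many counters (`S_TRF`, `S_CPY`,
`S_LOP`, `S_EVL`, `S_CHK`, `S_PH1`, `S_GUE`, `S_CLR`) → two counters by Gödel numbers (`S_TO2`, `S_SIM`) → one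
number `2^a 3^b` (`S_TO3`) → automaton (`S_THO`, `S_ELI`) → system with one modulus and three multipliers,
`n = D v + r ↦ a_k v + c` (`S_SYS`) → control grammar with 13 control symbols and 5 counter symbols
(`S_SND`, `S_CPL`) → semi-conditional grammar (`S_CG`).  Converse: `S_REC`.
-/

set_option autoImplicit false

namespace Pool.Agent.UDG

open Pool.Agent.SCG Relation

/-- **CG**.  The grammar of a control grammar generates the outputs of the runs which end without a
control symbol and without counter symbols.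

Proof.  `Rep f (u, q, m)`: `f = tw u ++ qw q ++ kw v` for some `v : List K` with `v.count x = m x` for all
`x`.  (1) `Rep f c`, `G.Step f f'` imply: there is `c'` with `g.Step c c'` and `Rep f' c'`: the left-hand side
is `Sum.inr _`, so its position is the control symbol or a place in `kw v` (never in `tw u`);
`[s] <:+: f ↔ s ∈ f`; for `s = inr (inl q')`: `s ∈ f ↔ q = some q'`; for `s = inr (inr x)`:
`s ∈ f ↔ x ∈ v ↔ 1 ≤ m x`.  A control rule changes the form to `tw (u ++ out) ++ qw nxt ++ kw (add ++ v)`, a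
counter rule changes `v = v₁ ++ x :: v₂` to `v₁ ++ add ++ v₂`.  (2) `Rep f c`, `g.Step c c'` imply: there is `f'`
with `G.Step f f'` and `Rep f' c'`.  (3) `Rep (tw w) (u, q, m) ↔ u = w ∧ q = none ∧ m = 0`;
`Rep [start] ([], some q0, 0)`.  `G.lang` is `∃ m, Derives m ..`; `Derives` iterates `Step` from the left. -/
def S_CG : Prop :=
  ∀ (T C K : Type) [Finite C] [Finite K] [DecidableEq K] (g : CG T C K) (q0 : C) (w : List T),
    w ∈ (g.toGrammar q0).lang ↔
      ReflTransGen g.Step ([], some q0, fun _ => 0) (w, none, fun _ => 0)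

/-- **SND**, soundness of the control.  Invariant for `(u, q, m)` (`R(u,n)` means
`ReflTransGen S.Step ([], n0) (u, n)`; always `m Z' ≤ 1`; the counters `N, Y, W, Z` which are not mentioned
are 0; `j, g, t` natural numbers; for the states other than `st, c0, none`: there are `u₀, n, y, w` with
`R(u₀, n)`, `S.Step (u₀, y) (u, w)`, and):
* `st`: `u = []`, all counters 0 (also `Z'`).
* `c0` and `none`: `N = n` with `R(u, n)`.
* `p1, p2, p3`: `N = n`, `Y = D v + r`, `W = a_k v + c` for an entry of the table of this kind (`u = u₀ ++ out`).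
* `c5`: `N + j = n`, `Y + j = y`, `W = w`.
* `d0`: `N + j = n`, `Y + Z + t + j = y`, `Z' = g + t`, `W = w` (`g` = old mark, `t` = new mark);
  `d1`: the same and `1 ≤ Z + t`.
* `c6`: `N + j = n`, `Y + j + 1 = y`, `W = w`.
* `e0`: `N + Z + t + j = n`, `Y + j + 1 = y`, `Z' = g + t`, `W = w`; `e1`: the same and `1 ≤ Z + t`.
* `c7`: `N + j = n`, `j = y`, `W = w`.
* `c8`: `n = y`, `N + W = w`.
(`d1 → c6` needs `Z = 0`, so `t ≥ 1`, and `g + t = Z' ≤ 1` gives `t = 1`, `g = 0`; the same for `e1 → c5`.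
`c5 → c7` needs `Y = 0`, `c7 → c8` needs `N = 0`, so `n = j = y`.  `c8 → c0` needs `W = 0`: `R(u, w)` and
`N = w`.)  Go through the rules: every step keeps the invariant. -/
def S_SND : Prop :=
  ∀ (T : Type) (S : Sys T) (w : List T),
    ReflTransGen S.cg.Step ([], some .st, fun _ => 0) (w, none, fun _ => 0) → w ∈ S.lang

/-- **CPL**, completeness.  One step `(u,n) → (u ++ out, n')` of the system is simulated from
`(u, c0, N = n)` to `(u ++ out, c0, N = n')` (all other counters 0, also `Z'`): the table rule `c0 → out q Y^r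
W^c`; if the kind is `some k`: `v` times the rule `p_k → p_k Y^D W^(a k)`, then `p_k → c5`; now `Y = n`, `W = n'`;
`n` times: `c5 → d0`, `Y → Z`, `d0 → d1`, `Z → Z'`, `d1 → c6`, `Z' → ε`, `c6 → e0`, `N → Z`, `e0 → e1`,
`Z → Z'`, `e1 → c5`, `Z' → ε`; then `c5 → c7` (no `Y`), `c7 → c8` (no `N`), `n'` times `W → N`, `c8 → c0`
(no `W`).  Start: `st → c0 N^n0`.  End: `c0 → ε`. -/
def S_CPL : Prop :=
  ∀ (T : Type) (S : Sys T) (w : List T), w ∈ S.lang →
    ReflTransGen S.cg.Step ([], some .st, fun _ => 0) (w, none, fun _ => 0)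

/-- **SYS**.  States `q < s`; the configuration `(q, x)`, `x ≥ 1`, has the code `n = s' x + (q + 1)` with
`s' = s + 1`.  `D = 6 s'`, `a = (36 s', 3 s', 2 s')`, `n0 = s' + (i + 1)`.  Entries, for the edge `(q, I, q')` and
`t < 6` (`x = 6 v + t`, `r = s' t + q + 1`): `up u`: `(u, some 0, r, 6 s' t + q' + 1)`; `d2`, `t` even: `([], some
1, r, s' (t / 2) + q' + 1)`; `d3`, `3 ∣ t`: `([], some 2, r, s' (t / 3) + q' + 1)`; `t2`, `t` odd and `t3`,
`3 ∤ t`: `([], some 0, r, 6 s' t + q' + 1)`.  For `q ∈ G`: `([], none, s' + q + 1, 0)`.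
All `r ≥ 1`, so there is no step from `0`.  From the code of `(q, x)` the entries of an edge lead exactly to
the codes of the successors by this edge (`n = 6 s' v + s' t + q₁ + 1 = s' (6 v + t) + (q₁ + 1)`, remainder and
quotient by `s'`), and the final entry of `q₁ ∈ G` leads to `0` exactly if `q = q₁` and `x = 1`. -/
def S_SYS : Prop :=
  ∀ (T : Type) (s i : ℕ) (E : List (ℕ × Instr3 T × ℕ)) (G : List ℕ), i < s →
    (∀ e ∈ E, e.1 < s ∧ e.2.2 < s) → (∀ q ∈ G, q < s) →
    ∃ S : Sys T, ∀ w : List T, w ∈ S.lang ↔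
      ∃ q ∈ G, ReflTransGen (AStep Instr3.sem E []) (i, (([] : List T), 1)) (q, (w, 1))

/-- **THO**, automaton of a program, with skip edges, states `< s`.  Induction on the program:
`bas b`: `s = 2`, edge `(0, b, 1)`.  `seq`: the states of the second are shifted by `s₁`, skip edge
`(f₁, s₁ + i₂)`.  `alt`: new initial and final states and four skip edges.  `star`: new states `s₁` (initial)
and `s₁ + 1` (final), skip edges `(s₁, i₁)`, `(f₁, s₁)`, `(s₁, s₁ + 1)`.  Soundness by an invariant: e.g. for `seq`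
from `(i₁, c)`: `(x, d)` with `x < s₁` is reached in the first; `(s₁ + y, d)`: there is `c'` with `(f₁, c')` reached
in the first from `(i₁, c)` and `(y, d)` reached in the second from `(i₂, c')`. -/
def S_THO : Prop :=
  ∀ (B γ : Type) (β : B → γ → γ → Prop) (P : Prog B),
    ∃ (s i f : ℕ) (E : List (ℕ × B × ℕ)) (F : List (ℕ × ℕ)), i < s ∧ f < s ∧
      (∀ e ∈ E, e.1 < s ∧ e.2.2 < s) ∧ (∀ e ∈ F, e.1 < s ∧ e.2 < s) ∧
      ∀ c c', ReflTransGen (AStep β E F) (i, c) (f, c') ↔ P.sem β c c'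

/-- **ELI**, elimination of the skip edges.  `E'`: all `(q, b, q₂)` with `q < s`, `(q₁, b, q₂) ∈ E` and `q₁`
reached from `q` by skip edges; `G`: all `q < s` from which `f` is reached by skip edges. -/
def S_ELI : Prop :=
  ∀ (B γ : Type) (β : B → γ → γ → Prop) (s i f : ℕ) (E : List (ℕ × B × ℕ)) (F : List (ℕ × ℕ)),
    i < s → f < s → (∀ e ∈ E, e.1 < s ∧ e.2.2 < s) → (∀ e ∈ F, e.1 < s ∧ e.2 < s) →
    ∃ (E' : List (ℕ × B × ℕ)) (G : List ℕ), (∀ e ∈ E', e.1 < s ∧ e.2.2 < s) ∧ (∀ q ∈ G, q < s) ∧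
      ∀ c c', ReflTransGen (AStep β E F) (i, c) (f, c') ↔
        ∃ q ∈ G, ReflTransGen (AStep β E' []) (i, c) (q, c')

/-- **SIM**, simulation: induction on the program. -/
def S_SIM : Prop :=
  ∀ (B₁ B₂ γ₁ γ₂ : Type) (β₁ : B₁ → γ₁ → γ₁ → Prop) (β₂ : B₂ → γ₂ → γ₂ → Prop) (φ : γ₁ → γ₂),
    (∀ b : B₁, ∃ P : Prog B₂, ∀ c y, P.sem β₂ (φ c) y ↔ ∃ c', y = φ c' ∧ β₁ b c c') →
    ∀ P₁ : Prog B₁, ∃ P₂ : Prog B₂, ∀ c y, P₂.sem β₂ (φ c) y ↔ ∃ c', y = φ c' ∧ P₁.sem β₁ c c'

/-- The number of two counters. -/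
def num2 {T : Type} (c : List T × ℕ × ℕ) : List T × ℕ := (c.1, 2 ^ c.2.1 * 3 ^ c.2.2)

/-- **TO3**.  `out u`: `up u; d2; d3`.  `inc false`: `up []; d3`.  `inc true`: `up []; d2`.  `dec false`: `d2`.
`dec true`: `d3`.  `zer false`: `t2; d2; d3`.  `zer true`: `t3; d2; d3`. -/
def S_TO3 : Prop :=
  ∀ (T : Type) (I : Instr2 T), ∃ P : Prog (Instr3 T), ∀ c y,
    P.sem Instr3.sem (num2 c) y ↔ ∃ c', y = num2 c' ∧ I.sem c c'

/-- The Gödel number of a store. -/
noncomputable def god (s : ℕ →₀ ℕ) : ℕ := s.prod fun i k => Nat.nth Nat.Prime i ^ k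

/-- **TO2**.  On the two counters `(x, 0)`, `x = god s`: the programs
`MUL p` (`p ≥ 1`): `(dec₀; inc₁^p)*; zer₀; (dec₁; inc₀)*; zer₁`: `(x, 0) ↦ (p x, 0)`;
`DIV p`: `(dec₀^p; inc₁)*; zer₀; (dec₁; inc₀)*; zer₁`: `(x, 0) ↦ (x', 0)` iff `x = p x'`;
`TST p`: `(dec₀^p; inc₁)*; ⋃ (1 ≤ j < p) (dec₀^j; zer₀; (dec₁; inc₀^p)*; zer₁; inc₀^j)`: `(x, 0) ↦ (x, 0)` iff
`p ∤ x`.  With `π i = Nat.nth Nat.Prime i`: `add u v`: `out u; MUL (god v)`; `dec i`: `DIV (π i)`; `zer i`:
`TST (π i)`.  Facts: `god (s + v) = god s * god v`; `π i ∣ god s ↔ s i ≠ 0`; `god s = π i * x` iff `x = god s'` for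
some `s'` with `s = s' + single i 1`; `god s ≥ 1`. -/
def S_TO2 : Prop :=
  ∀ (T : Type) (I : Instr T), ∃ P : Prog (Instr2 T), ∀ (c : List T × (ℕ →₀ ℕ)) y,
    P.sem Instr2.sem (c.1, god c.2, 0) y ↔ ∃ c', y = (c'.1, god c'.2, 0) ∧ I.sem c c'

/-- **TRF**, transfer of a counter.  The program `(dec i; add [] v)*; zer i` does exactly this: clear the
counter `i` and add `s i • v`, when `v i = 0`.  (Induction on the number of rounds.) -/
def S_TRF : Prop :=
  ∀ (T : Type) (i : ℕ) (v : ℕ →₀ ℕ), v i = 0 →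
    Real fun c c' : List T × (ℕ →₀ ℕ) => c' = (c.1, c.2.erase i + c.2 i • v)

/-- **CPY**, copy: add `s i` to the counter `j`; scratch counter `k`, which is 0 before and after.
Proof: TRF with `i` and `v = single j 1 + single k 1`, then TRF with `k` and `v = single i 1`. -/
def S_CPY : Prop :=
  ∀ (T : Type) (i j k : ℕ), i ≠ j → i ≠ k → j ≠ k →
    RealOn {s | s k = 0} fun c c' : List T × (ℕ →₀ ℕ) => c' = (c.1, c.2 + c.2 i • Finsupp.single j 1)

/-- **LOP**, loop.  If a program adds `w s` to the store `s ∈ D`, where `w s` does not depend on the counter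
`i`, nor on what is added, and is 0 at `i`, then `(dec i; B)*; zer i` clears the counter `i` and adds
`s i • w s`.  Proof: induction on `s i`. -/
def S_LOP : Prop :=
  ∀ (T : Type) (D : Set (ℕ →₀ ℕ)) (i : ℕ) (w : (ℕ →₀ ℕ) → (ℕ →₀ ℕ)),
    (∀ s ∈ D, (w s) i = 0) →
    (∀ s, s + Finsupp.single i 1 ∈ D → s ∈ D ∧ w (s + Finsupp.single i 1) = w s) →
    (∀ s ∈ D, s + w s ∈ D ∧ w (s + w s) = w s) →
    RealOn D (fun c c' : List T × (ℕ →₀ ℕ) => c' = (c.1, c.2 + w c.2)) →
    RealOn D (fun c c' : List T × (ℕ →₀ ℕ) => c' = (c.1, c.2.erase i + c.2 i • w c.2))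

/-- **EVL**, evaluation.  For an expression with variables `< n ≤ k`: on `Low k` the counters `k` and `k+1` get
the two parts of the value.  Induction on the expression, for all `k ≥ n`:
`var i`: CPY `i` to `k` with scratch `k+1`.  `cst c`: one `add`.  `sub e f`: `e` at `k`, `f` at `k+2`, then TRF
`k+3` to `k`, TRF `k+2` to `k+1`.  `mul e f`: `e` at `k+2` (parts `a₁, b₁` in `k+2, k+3`), `f` at `k+4` (parts
`a₂, b₂` in `k+4, k+5`); LOP over `k+2` with body CPY `k+4` to `k`, CPY `k+5` to `k+1`, scratch `k+6`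
(`w s = s (k+4) • single k 1 + s (k+5) • single (k+1) 1`, `D = Low (k+6)`); LOP over `k+3` with body CPY `k+5`
to `k`, CPY `k+4` to `k+1`; TRF of `k+4` and of `k+5` with `v = 0` (clears them).  The parts depend only on the
counters `< n`, so they do not change when counters `≥ k` change. -/
def S_EVL : Prop :=
  ∀ (T : Type) (n : ℕ) (e : Expr), e.Below n → ∀ k, n ≤ k →
    RealOn (Low k) fun c c' : List T × (ℕ →₀ ℕ) =>
      c' = (c.1, c.2 + Finsupp.single k (e.pab c.2).1 + Finsupp.single (k + 1) (e.pab c.2).2)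

/-- **CHK**.  Test that two counters are equal (and clear them): `(dec i; dec j)*; zer i; zer j`. -/
def S_CHK : Prop :=
  ∀ (T : Type) (i j : ℕ), i ≠ j →
    Real fun c c' : List T × (ℕ →₀ ℕ) => c.2 i = c.2 j ∧ c' = (c.1, (c.2.erase i).erase j)

/-- **CLR**.  Clear all counters of a store in `Low n`: TRF with `v = 0` for each. -/
def S_CLR : Prop :=
  ∀ (T : Type) (n : ℕ), RealOn (Low n) fun c c' : List T × (ℕ →₀ ℕ) => c' = (c.1, 0)

/-- **PH1**, generation.  A program which writes any word `w` and its code into the counter 0: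
`( K times the counter 0; for some letter j: add [j] ((j+1) • single 0 1) )*` with `K = k + 1`; multiplication
by `K`: TRF `0` with `v = K • single 1 1`, TRF `1` with `v = single 0 1`; the choice of the letter:
`Real.listUnion` over `List.finRange k`.  All stores are `single 0 x`. -/
def S_PH1 : Prop :=
  ∀ k : ℕ, ∃ R : Rel (Fin k), Real R ∧
    ∀ c', R ([], 0) c' ↔ ∃ w : List (Fin k), c' = (w, Finsupp.single 0 (wcode w))

/-- **GUE**, guess.  The counters `1, …, n - 1` get arbitrary values (`(add [] (single i 1))*` for each). -/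
def S_GUE : Prop :=
  ∀ (T : Type) (n : ℕ), Real fun c c' : List T × (ℕ →₀ ℕ) =>
    c'.1 = c.1 ∧ ∃ y : ℕ →₀ ℕ, (∀ i, y i ≠ 0 → 1 ≤ i ∧ i < n) ∧ c'.2 = c.2 + y

/-- **DIO**.  Recursively enumerable languages are given by a polynomial equation for the code.
Proof.  `wcode` is computable (`Primrec.list_foldl`) and injective (remainder and quotient by `k + 1`).  The
predicate `p x : ∃ w, wcode w = x ∧ w ∈ L` is r.e.: search the first `n` such that `decode n = some w` with
`wcode w = x` (`Partrec.rfindOpt` or `Partrec.rfind`), then run the acceptor of `L` on `w`.  By `re_dioph`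
(`Pool.Agent.Lib_helper46.DPRM.MRDP`) `p` is Diophantine: `p x ↔ ∃ t : β → ℕ, P (x, t) = 0`, `P : Poly (Unit ⊕ β)`.
`Poly.induction`: there is a tree with leaves in `Unit ⊕ β`; it has finitely many leaves, rename them
injectively to natural numbers with `inl () ↦ 0`. -/
def S_DIO : Prop :=
  ∀ (k : ℕ) (L : Set (List (Fin k))), REPred (fun w => w ∈ L) →
    ∃ (n : ℕ) (e : Expr), 1 ≤ n ∧ e.Below n ∧
      ∀ w : List (Fin k), w ∈ L ↔ ∃ s : ℕ → ℕ, s 0 = wcode w ∧ e.eval s = 0

/-- **REC**, the converse: the language of a semi-conditional grammar of degree `(1,1)` is r.e.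
Proof.  `N` is finite: rename it to `Fin N`; a certificate for `w` is a list of triples (rule, `u₁`, `u₂`); the
check that it is a derivation of `w` (start with the form `[start]`; the form must be `u₁ ++ lhs :: u₂`; the
condition `[s]` is a factor iff `s` is an element; the next form is `u₁ ++ rhs ++ u₂`; the last form is `w`) is
computable; `∃` over certificates is a search (`Partrec.rfindOpt`).  The rules are finitely many: a list.
(`perm = some []` is impossible by `perm_ne`; words of length 1 only.) -/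
def S_REC : Prop :=
  ∀ (k : ℕ) (G : Grammar (Fin k)), G.Degree 1 1 → REPred (fun w => w ∈ G.lang)

/-- **MAIN** (assembly, helper26). -/
def S_MAIN : Prop :=
  ∀ (k : ℕ) (L : Set (List (Fin k))),
    REPred (fun w => w ∈ L) ↔
      ∃ G : Grammar (Fin k), G.Simple ∧ G.Degree 1 1 ∧ Nat.card G.N ≤ 18 ∧
        {r ∈ G.rules | r.perm ≠ none ∨ r.forb ≠ none}.ncard ≤ 13 ∧ G.lang = L

end Pool.Agent.UDG
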