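import Mathlib
import Pool.Agent.UDG.St

/-!
UDG_CPY (helper45): copying a counter and clearing all counters.
-/

set_option autoImplicit false

namespace Pool.Agent.UDG

open Relation

/-- The composition of two functional relations. -/
theorem cpy_comp_fun {T : Type} (f g : List T × (ℕ →₀ ℕ) → List T × (ℕ →₀ ℕ)) (c c') :
    Relation.Comp (fun c c' => c' = f c) (fun c c' => c' = g c) c c' ↔ c' = g (f c) := by
  simp only [Relation.Comp]
  constructor
  · rintro ⟨d, rfl, rfl⟩
    rfl
  · rintro rfl
    exact ⟨_, rfl, rfl⟩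

theorem t_CPY (h : S_TRF) : S_CPY := by
  intro T i j k hij hik hjk
  have h1 := h T i (Finsupp.single j 1 + Finsupp.single k 1) (by
    simp [Ne.symm hij, Ne.symm hik])
  have h2 := h T k (Finsupp.single i 1) (by simp [hik])
  refine ((h1.seq h2).on _).congr fun c c' hc => ?_
  have hc0 : c.2 k = 0 := hc
  rw [cpy_comp_fun]
  have key : (c.2.erase i + c.2 i • (Finsupp.single j 1 + Finsupp.single k 1)).erase k +
      (c.2.erase i + c.2 i • (Finsupp.single j 1 + Finsupp.single k 1) : ℕ →₀ ℕ) k •
        Finsupp.single i 1 =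
      c.2 + c.2 i • Finsupp.single j 1 := by
    ext x
    by_cases hxk : x = k
    · subst hxk
      simp [hik, hjk, hc0, Finsupp.erase_ne (Ne.symm hik)]
    · by_cases hxi : x = i
      · subst hxi
        simp [Finsupp.erase_ne, Ne.symm hij, Ne.symm hxk, hc0, hjk]
      · simp [Finsupp.single_apply, Finsupp.erase_ne, hxk, hxi]
  simp only [key]

theorem cpy_clear_lt (h : S_TRF) (T : Type) (n : ℕ) :
    Real fun c c' : List T × (ℕ →₀ ℕ) => c' = (c.1, c.2.filter (fun x => n ≤ x)) := by
  induction n with
  | zero =>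
    refine Real.skip.congr fun c c' => ?_
    have : c.2.filter (fun x => 0 ≤ x) = c.2 := by
      ext x
      simp
    simp only [this]
  | succ n ih =>
    have h1 := h T n 0 rfl
    refine (ih.seq h1).congr fun c c' => ?_
    rw [cpy_comp_fun]
    have : (c.2.filter (fun x => n ≤ x)).erase n + (c.2.filter (fun x => n ≤ x) : ℕ →₀ ℕ) n •
        (0 : ℕ →₀ ℕ) =
        c.2.filter (fun x => n + 1 ≤ x) := by
      ext x
      by_cases hx : x = n
      · subst hx
        simp
      · have : n ≤ x ↔ n + 1 ≤ x := by omega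
        simp [Finsupp.filter_apply, Finsupp.erase_ne, hx, this]
    simp only [this]

theorem t_CLR (h : S_TRF) : S_CLR := by
  intro T n
  refine ((cpy_clear_lt h T n).on _).congr fun c c' hc => ?_
  have : c.2.filter (fun x => n ≤ x) = 0 := by
    ext x
    by_cases hx : n ≤ x
    · simp [Finsupp.filter_apply, hc x hx]
    · simp [hx]
  simp only [this]

end Pool.Agent.UDG
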