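import Mathlib
import Pool.Agent.UDG.St

set_option autoImplicit false

/-!
# The language of a semi-conditional grammar of degree `(1,1)` is recursively enumerable
-/

namespace Pool.Agent.UDG

open Pool.Agent.SCG

namespace Rec

section Prim

variable {A : Type} [Primcodable A]

/-- The permitting condition `o` (a symbol, or none) holds for the form `f`. -/
def HasP (p : Option A × List A) : Prop := p.1 = none ∨ ∃ a ∈ p.2, some a = p.1

/-- The forbidding condition `o` holds for the form `f`. -/
def HasF (p : Option A × List A) : Prop := ¬ ∃ a ∈ p.2, some a = p.1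

theorem prim_ex : PrimrecPred fun p : Option A × List A => ∃ a ∈ p.2, some a = p.1 := by
  have h : PrimrecRel fun (a : A) (o : Option A) => some a = o :=
    (Primrec.eq (α := Option A)).comp (Primrec.option_some.comp Primrec.fst) Primrec.snd
  exact (h.exists_mem_list).comp Primrec.snd Primrec.fst

theorem prim_HasP : PrimrecPred (HasP (A := A)) :=
  (PrimrecPred.or ((Primrec.eq (α := Option A)).comp Primrec.fst (Primrec.const none)) prim_ex)

theorem prim_HasF : PrimrecPred (HasF (A := A)) := prim_ex.not

open Classical in
/-- One step with the certificate (number of the rule, left part, right part). -/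
noncomputable def stepB (L : List (A × List A × Option A × Option A)) (o : Option (List A))
    (c : ℕ × List A × List A) : Option (List A) :=
  o.bind fun f => (L[c.1]?).bind fun r =>
    if f = c.2.1 ++ r.1 :: c.2.2 ∧ HasP (r.2.2.1, f) ∧ HasF (r.2.2.2, f)
    then some (c.2.1 ++ r.2.1 ++ c.2.2) else none

theorem prim_stepB (L : List (A × List A × Option A × Option A)) : Primrec₂ (stepB L) := by
  classical
  unfold stepB
  refine Primrec.option_bind Primrec.fst ?_
  refine Primrec.option_bind
    ((Primrec.list_getElem?₁ L).comp (Primrec.fst.comp (Primrec.snd.comp Primrec.fst))) ?_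
  -- the argument is `(((o, c), f), r)`
  have hf : Primrec fun x : ((Option (List A) × (ℕ × List A × List A)) × List A) ×
      (A × List A × Option A × Option A) => x.1.2 := Primrec.snd.comp Primrec.fst
  have hc : Primrec fun x : ((Option (List A) × (ℕ × List A × List A)) × List A) ×
      (A × List A × Option A × Option A) => x.1.1.2.2 :=
    Primrec.snd.comp (Primrec.snd.comp (Primrec.fst.comp Primrec.fst))
  have hr : Primrec fun x : ((Option (List A) × (ℕ × List A × List A)) × List A) ×
      (A × List A × Option A × Option A) => x.2 := Primrec.snd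
  refine Primrec.ite ?_ ?_ (Primrec.const none)
  · refine PrimrecPred.and ?_ (PrimrecPred.and ?_ ?_)
    · exact (Primrec.eq (α := List A)).comp hf (Primrec.list_append.comp (Primrec.fst.comp hc)
        (Primrec.list_cons.comp (Primrec.fst.comp hr) (Primrec.snd.comp hc)))
    · exact prim_HasP.comp (Primrec.pair (Primrec.fst.comp (Primrec.snd.comp (Primrec.snd.comp hr)))
        hf)
    · exact prim_HasF.comp (Primrec.pair (Primrec.snd.comp (Primrec.snd.comp (Primrec.snd.comp hr)))
        hf)
  · exact Primrec.option_some.comp (Primrec.list_append.comp (Primrec.list_append.comp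
      (Primrec.fst.comp hc) (Primrec.fst.comp (Primrec.snd.comp hr))) (Primrec.snd.comp hc))

/-- The result of a certificate. -/
noncomputable def run (L : List (A × List A × Option A × Option A)) (o : Option (List A))
    (c : List (ℕ × List A × List A)) : Option (List A) :=
  c.foldl (stepB L) o

theorem prim_run (L : List (A × List A × Option A × Option A)) (o : Option (List A)) :
    Primrec (run L o) :=
  Primrec.list_foldl Primrec.id (Primrec.const o)
    ((prim_stepB L).comp (Primrec.fst.comp Primrec.snd) (Primrec.snd.comp Primrec.snd)).to₂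

/-- Search for a certificate. -/
theorem re_search {W : Type} [Primcodable W] (g : W → List A) (hg : Primrec g)
    (L : List (A × List A × Option A × Option A)) (o : Option (List A)) :
    REPred fun w => ∃ c : List (ℕ × List A × List A), run L o c = some (g w) := by
  classical
  have h1 : PrimrecRel fun (w : W) (n : ℕ) =>
      (Encodable.decode (α := List (ℕ × List A × List A)) n).bind (run L o) = some (g w) := by
    refine (Primrec.eq (α := Option (List A))).comp ?_ ?_
    · exact Primrec.option_bind (Primrec.decode.comp Primrec.snd) ((prim_run L o).comp Primrec.snd)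
    · exact Primrec.option_some.comp (hg.comp Primrec.fst)
  have h2 : Computable₂ fun (w : W) (n : ℕ) => decide
      ((Encodable.decode (α := List (ℕ × List A × List A)) n).bind (run L o) = some (g w)) :=
    h1.decide.to_comp
  have h3 := (Partrec.rfind h2.partrec₂).dom_re
  refine h3.of_eq fun w => ?_
  rw [Nat.rfind_dom]
  constructor
  · rintro ⟨n, hn, -⟩
    have hn' : (Encodable.decode (α := List (ℕ × List A × List A)) n).bind (run L o) =
        some (g w) := by
      simpa using hn
    obtain ⟨c, -, hc⟩ := Option.bind_eq_some_iff.1 hn'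
    exact ⟨c, hc⟩
  · rintro ⟨c, hc⟩
    refine ⟨Encodable.encode c, ?_, fun _ => ?_⟩
    · simp [hc]
    · trivial

end Prim

section Gram

variable {k : ℕ}

/-- The condition on a word of length one, as a condition on a symbol. -/
theorem perm_iff {X Y : Type} (em : X → Y) (hem : Function.Injective em) (p : Option (List X))
    (h1 : p ≠ some []) (h2 : ∀ α, p = some α → α.length ≤ 1) (u : List X) :
    (∀ α, p = some α → α <:+: u) ↔ HasP ((p.bind List.head?).map em, u.map em) := by
  cases p with
  | none => simp [HasP]
  | some α =>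
    have h3 := h2 α rfl
    rcases α with - | ⟨s, - | ⟨s', α⟩⟩
    · exact absurd rfl h1
    · simp only [HasP, Option.some.injEq, forall_eq', List.singleton_infix_iff, Option.bind_some,
        List.head?_cons, Option.map_some, List.mem_map, exists_exists_and_eq_and, reduceCtorEq,
        false_or]
      constructor
      · intro h
        exact ⟨s, h, rfl⟩
      · rintro ⟨a, ha, e⟩
        rw [← hem e]
        exact ha
    · simp at h3

theorem forb_iff {X Y : Type} (em : X → Y) (hem : Function.Injective em) (p : Option (List X))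
    (h1 : p ≠ some []) (h2 : ∀ α, p = some α → α.length ≤ 1) (u : List X) :
    (∀ α, p = some α → ¬ α <:+: u) ↔ HasF ((p.bind List.head?).map em, u.map em) := by
  cases p with
  | none => simp [HasF]
  | some α =>
    have h3 := h2 α rfl
    rcases α with - | ⟨s, - | ⟨s', α⟩⟩
    · exact absurd rfl h1
    · simp only [HasF, Option.some.injEq, forall_eq', List.singleton_infix_iff, Option.bind_some,
        List.head?_cons, Option.map_some, List.mem_map, exists_exists_and_eq_and]
      constructor
      · rintro h ⟨a, ha, e⟩
        rw [hem e] at ha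
        exact h ha
      · intro h h'
        exact h ⟨s, h', rfl⟩
    · simp at h3

/-- The translation of a rule. -/
def tr {T N N' : Type} (e : N → N') (r : Rule T N) :
    (T ⊕ N') × List (T ⊕ N') × Option (T ⊕ N') × Option (T ⊕ N') :=
  (Sum.inr (e r.lhs), r.rhs.map (Sum.map id e), (r.perm.bind List.head?).map (Sum.map id e),
    (r.forb.bind List.head?).map (Sum.map id e))

theorem em_inj {T N N' : Type} {e : N → N'} (he : Function.Injective e) :
    Function.Injective (Sum.map (id : T → T) e) :=
  Function.Injective.sumMap Function.injective_id he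

theorem step_iff (G : Grammar (Fin k)) (hG : G.Degree 1 1) {n : ℕ} (e : G.N ≃ Fin n)
    (RL : List (Rule (Fin k) G.N)) (hRL : ∀ r, r ∈ RL ↔ r ∈ G.rules)
    (f : List (Fin k ⊕ G.N)) (g : List (Fin k ⊕ Fin n)) :
    (∃ c, stepB (RL.map (tr e)) (some (f.map (Sum.map id e))) c = some g) ↔
      ∃ f', G.Step f f' ∧ g = f'.map (Sum.map id e) := by
  classical
  have hem := em_inj (T := Fin k) e.injective
  constructor
  · rintro ⟨⟨i, u₁, u₂⟩, h⟩
    rw [stepB] at h
    rw [Option.bind_some] at h
    obtain ⟨r', hr', h6⟩ := Option.bind_eq_some_iff.1 h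
    clear h
    rw [List.getElem?_map] at hr'
    obtain ⟨r, hr, rfl⟩ := Option.map_eq_some_iff.1 hr'
    split_ifs at h6 with hc
    obtain ⟨h1, h2, h3⟩ := hc
    have hmem : r ∈ G.rules := (hRL r).1 (List.mem_of_getElem? hr)
    obtain ⟨v₁, v', rfl, hv₁, hv'⟩ := List.map_eq_append_iff.1 h1
    obtain ⟨x, v₂, rfl, hx, hv₂⟩ := List.map_eq_cons_iff.1 hv'
    have hx' : x = Sum.inr r.lhs := by
      apply hem
      rw [hx]
      simp [tr]
    subst hx'
    refine ⟨v₁ ++ r.rhs ++ v₂, ⟨r, hmem, v₁, v₂, rfl, rfl, ?_, ?_⟩, ?_⟩
    · exact (perm_iff _ hem r.perm (G.perm_ne r hmem) (hG r hmem).1 _).2 h2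
    · exact (forb_iff _ hem r.forb (G.forb_ne r hmem) (hG r hmem).2 _).2 h3
    · have h4 := Option.some.inj h6
      rw [← h4, ← hv₁, ← hv₂]
      simp [tr]
  · rintro ⟨f', ⟨r, hr, v₁, v₂, rfl, rfl, h2, h3⟩, rfl⟩
    obtain ⟨i, hi⟩ := List.getElem?_of_mem ((hRL r).2 hr)
    refine ⟨(i, v₁.map (Sum.map id e), v₂.map (Sum.map id e)), ?_⟩
    rw [stepB, Option.bind_some, List.getElem?_map, hi, Option.map_some, Option.bind_some, if_pos]
    · simp [tr]
    · refine ⟨?_, ?_, ?_⟩
      · simp [tr]
      · exact (perm_iff _ hem r.perm (G.perm_ne r hr) (hG r hr).1 _).1 h2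
      · exact (forb_iff _ hem r.forb (G.forb_ne r hr) (hG r hr).2 _).1 h3

theorem run_none {A : Type} (L : List (A × List A × Option A × Option A))
    (c : List (ℕ × List A × List A)) : run L none c = none := by
  induction c with
  | nil => rfl
  | cons a c ih =>
    have h : run L none (a :: c) = run L (stepB L none a) c := rfl
    rw [h]
    exact ih

theorem run_iff (G : Grammar (Fin k)) (hG : G.Degree 1 1) {n : ℕ} (e : G.N ≃ Fin n)
    (RL : List (Rule (Fin k) G.N)) (hRL : ∀ r, r ∈ RL ↔ r ∈ G.rules)
    (f g : List (Fin k ⊕ G.N)) :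
    (∃ c, run (RL.map (tr e)) (some (f.map (Sum.map id e))) c = some (g.map (Sum.map id e))) ↔
      ∃ m, G.Derives m f g := by
  have hem := em_inj (T := Fin k) e.injective
  constructor
  · rintro ⟨c, h⟩
    induction c generalizing f with
    | nil =>
      have h' : f.map (Sum.map id e) = g.map (Sum.map id e) := Option.some.inj h
      exact ⟨0, List.map_injective_iff.2 hem h'⟩
    | cons a c ih =>
      have h1 : run (RL.map (tr e)) (some (f.map (Sum.map id e))) (a :: c) =
        run (RL.map (tr e)) (stepB (RL.map (tr e)) (some (f.map (Sum.map id e))) a) c := rfl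
      rw [h1] at h
      rcases hs : stepB (RL.map (tr e)) (some (f.map (Sum.map id e))) a with - | g'
      · rw [hs, run_none] at h
        exact absurd h (by simp)
      · obtain ⟨f', hf', rfl⟩ := (step_iff G hG e RL hRL f g').1 ⟨a, hs⟩
        rw [hs] at h
        obtain ⟨m, hm⟩ := ih f' h
        exact ⟨m + 1, f', hf', hm⟩
  · rintro ⟨m, h⟩
    induction m generalizing f with
    | zero =>
      have h' : f = g := h
      subst h'
      exact ⟨[], rfl⟩
    | succ m ih =>
      obtain ⟨x, hx, h'⟩ := h
      obtain ⟨c, hc⟩ := ih x h'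
      obtain ⟨a, ha⟩ := (step_iff G hG e RL hRL f _).2 ⟨x, hx, rfl⟩
      refine ⟨a :: c, ?_⟩
      have h1 : run (RL.map (tr e)) (some (f.map (Sum.map id e))) (a :: c) =
        run (RL.map (tr e)) (stepB (RL.map (tr e)) (some (f.map (Sum.map id e))) a) c := rfl
      rw [h1, ha, hc]

end Gram

end Rec

theorem t_REC : S_REC := by
  classical
  intro k G hG
  have := G.finN
  obtain ⟨n, ⟨e⟩⟩ := Finite.exists_equiv_fin G.N
  have hRL : ∀ r, r ∈ G.finRules.toFinset.toList ↔ r ∈ G.rules := fun r => by simp
  have h1 := Rec.re_search (A := Fin k ⊕ Fin n) (W := List (Fin k)) (fun w => w.map Sum.inl)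
    (Primrec.list_map Primrec.id (Primrec.sumInl.comp Primrec.snd).to₂)
    (G.finRules.toFinset.toList.map (Rec.tr e)) (some [Sum.inr (e G.start)])
  refine h1.of_eq fun w => ?_
  have h2 := Rec.run_iff G hG e G.finRules.toFinset.toList hRL [Sum.inr G.start] (w.map Sum.inl)
  have h3 : (w.map Sum.inl : List (Fin k ⊕ G.N)).map (Sum.map id e) = w.map Sum.inl := by
    rw [List.map_map]
    rfl
  have h4 : ([Sum.inr G.start] : List (Fin k ⊕ G.N)).map (Sum.map id e) =
      [Sum.inr (e G.start)] := rfl
  rw [h3, h4] at h2
  exact h2

end Pool.Agent.UDG
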