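import Mathlib
import Pool.Agent.UDG.St

/-!
# Supplement (helper26): the inclusion `SSC^{-ε}(1,1) ⊆ SSC(1,1)` is proper (Q2 (a))
-/

set_option autoImplicit false

namespace Pool.Agent.UDG

open Pool.Agent.SCG Relation

/-- **DEC**.  The language of a propagating semi-conditional grammar of degree `(1,1)` is decidable.
Proof.  `ComputablePred.computable_iff_re_compl_re`: it is r.e. by `S_REC`; the complement: `w` is not
generated iff there is a finite list `S` of forms (a certificate) with `[start] ∈ S`, `w ∉ S` (as the form
`w.map inl`), such that for all `f ∈ S`, all rules `r` and all places of `r.lhs` in `f`: if the condition holds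
and the new form has length `≤ |w|`, then the new form is in `S`.  (Only if: take all forms of length
`≤ |w|` which are derivable; the set is finite.  If: no rule shortens a form, so all forms in a derivation of `w`
have length `≤ |w|`, and they all are in `S`.)  The check is computable; `∃` over certificates is a search.
`N` is finite: rename it to `Fin N`; the rules are a list.  The code of `S_REC` (module UDG_REC, helper48) can be
reused. -/
def S_DEC : Prop :=
  ∀ (k : ℕ) (G : Grammar (Fin k)), G.Degree 1 1 → G.Propagating →
    ComputablePred (fun w => w ∈ G.lang)

/-- **HLT**.  There is an r.e. language over one letter which is not decidable. -/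
def S_HLT : Prop :=
  ∃ L : Set (List (Fin 1)), REPred (fun w => w ∈ L) ∧ ¬ ComputablePred (fun w => w ∈ L)

theorem t_HLT : S_HLT := by
  refine ⟨{w | (Nat.Partrec.Code.eval (Denumerable.ofNat Nat.Partrec.Code w.length) 0).Dom}, ?_, ?_⟩
  · have h1 : Computable fun w : List (Fin 1) => Denumerable.ofNat Nat.Partrec.Code w.length :=
      (Computable.ofNat Nat.Partrec.Code).comp Computable.list_length
    have h2 : Partrec fun w : List (Fin 1) =>
        Nat.Partrec.Code.eval (Denumerable.ofNat Nat.Partrec.Code w.length) 0 :=
      Nat.Partrec.Code.eval_part.comp h1 (Computable.const 0)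
    exact h2.dom_re
  · intro h
    obtain ⟨f, hf, hfp⟩ := ComputablePred.computable_iff.1 h
    refine ComputablePred.halting_problem 0 ?_
    have h1 : Computable fun c : Nat.Partrec.Code => List.replicate (Encodable.encode c) (0 : Fin 1) := by
      have h2 : Primrec fun c : Nat.Partrec.Code =>
          (List.range (Encodable.encode c)).map fun _ => (0 : Fin 1) :=
        Primrec.list_map (Primrec.list_range.comp Primrec.encode) (Primrec.const 0).to₂
      refine (h2.of_eq fun c => ?_).to_comp
      simp
    refine ComputablePred.computable_iff.2 ⟨_, hf.comp h1, ?_⟩
    funext c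
    have h3 := congrFun hfp (List.replicate (Encodable.encode c) (0 : Fin 1))
    simp only [Set.mem_ofPred_eq, List.length_replicate, Denumerable.ofNat_encode] at h3
    exact h3

end Pool.Agent.UDG
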