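import Mathlib
import Pool.Agent.UDG.St2
import Pool.Agent.UDG.MREC

set_option autoImplicit false

/-!
# The language of a propagating semi-conditional grammar of degree `(1,1)` is decidable
-/

namespace Pool.Agent.UDG

open Pool.Agent.SCG

namespace Rec

/-- Existential quantifiers over codes give r.e. predicates. -/
theorem re_exists {W C : Type} [Primcodable W] [Primcodable C] {Q : W → C → Prop}
    (h : PrimrecRel Q) : REPred fun w => ∃ c, Q w c := by
  classical
  have h1 : Primrec₂ fun (w : W) (n : ℕ) =>
      ((Encodable.decode (α := C) n).casesOn false (fun c => decide (Q w c)) : Bool) := by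
    refine Primrec.option_casesOn (Primrec.decode.comp Primrec.snd) (Primrec.const false) ?_
    exact h.decide.comp (Primrec.fst.comp Primrec.fst) Primrec.snd
  have h3 := (Partrec.rfind h1.to_comp.partrec₂).dom_re
  refine h3.of_eq fun w => ?_
  rw [Nat.rfind_dom]
  constructor
  · rintro ⟨n, hn, -⟩
    rcases hd : Encodable.decode (α := C) n with - | c
    · simp [hd] at hn
    · simp only [hd, PFun.coe_val, Part.mem_some_iff, true_eq_decide_iff] at hn
      exact ⟨c, hn⟩
  · rintro ⟨c, hc⟩
    refine ⟨Encodable.encode c, ?_, fun _ => ?_⟩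
    · simp [hc]
    · trivial

section Prim

variable {A : Type} [Primcodable A]

/-- The list of the successors of a form. -/
noncomputable def succL (L : List (A × List A × Option A × Option A)) (f : List A) :
    List (List A) :=
  (List.range f.length).flatMap fun i => (List.range L.length).flatMap fun j =>
    (stepB L (some f) (j, f.take i, f.drop (i + 1))).toList

theorem prim_succL (L : List (A × List A × Option A × Option A)) : Primrec (succL L) := by
  unfold succL
  refine Primrec.list_flatMap (Primrec.list_range.comp Primrec.list_length) ?_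
  refine Primrec.list_flatMap (Primrec.const (List.range L.length)) ?_
  -- the argument is `((f, i), j)`
  have hf : Primrec fun x : (List A × ℕ) × ℕ => x.1.1 := Primrec.fst.comp Primrec.fst
  have hi : Primrec fun x : (List A × ℕ) × ℕ => x.1.2 := Primrec.snd.comp Primrec.fst
  have hj : Primrec fun x : (List A × ℕ) × ℕ => x.2 := Primrec.snd
  exact Primrec.optionToList.comp ((prim_stepB L).comp (Primrec.option_some.comp hf)
    (Primrec.pair hj (Primrec.pair (Primrec.list_take.comp hi hf)
      (Primrec.list_drop.comp (Primrec.succ.comp hi) hf))))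

theorem mem_succL (L : List (A × List A × Option A × Option A)) (f g : List A) :
    g ∈ succL L f ↔ ∃ c, stepB L (some f) c = some g := by
  classical
  constructor
  · intro h
    simp only [succL, List.mem_flatMap, Option.mem_toList] at h
    obtain ⟨i, -, j, -, h⟩ := h
    exact ⟨_, h⟩
  · rintro ⟨⟨j, u₁, u₂⟩, h⟩
    have h0 := h
    rw [stepB, Option.bind_some] at h
    obtain ⟨r, hr, h6⟩ := Option.bind_eq_some_iff.1 h
    split_ifs at h6 with hc
    have h1 : f = u₁ ++ r.1 :: u₂ := hc.1
    have hj : j < L.length := by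
      have := List.getElem?_eq_some_iff.1 hr
      exact this.1
    simp only [succL, List.mem_flatMap, Option.mem_toList]
    refine ⟨u₁.length, ?_, j, List.mem_range.2 hj, ?_⟩
    · rw [h1]
      simp
    · have h2 : f.take u₁.length = u₁ := by
        rw [h1]
        simp
      have h3 : f.drop (u₁.length + 1) = u₂ := by
        rw [h1]
        simp
      rw [h2, h3]
      exact h0

/-- `S` contains `s`, does not contain `t`, and is closed under the steps to forms which are not
longer than `t`. -/
def Cl (L : List (A × List A × Option A × Option A)) (s t : List A) (S : List (List A)) : Prop :=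
  (∃ h ∈ S, h = s) ∧ (¬ ∃ h ∈ S, h = t) ∧
    ∀ f ∈ S, ∀ g ∈ succL L f, ¬ g.length ≤ t.length ∨ ∃ h ∈ S, h = g

theorem prim_Cl (L : List (A × List A × Option A × Option A)) (s : List A) :
    PrimrecRel fun (t : List A) (S : List (List A)) => Cl L s t S := by
  have hm : PrimrecRel fun (S : List (List A)) (g : List A) => ∃ h ∈ S, h = g :=
    (Primrec.eq (α := List A)).exists_mem_list
  have h3 : PrimrecRel fun (g : List A) (p : List A × List (List A)) =>
      ¬ g.length ≤ p.1.length ∨ ∃ h ∈ p.2, h = g := by
    refine PrimrecPred.or (PrimrecPred.not ?_) ?_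
    · exact Primrec.nat_le.comp (Primrec.list_length.comp Primrec.fst)
        (Primrec.list_length.comp (Primrec.fst.comp Primrec.snd))
    · exact hm.comp (Primrec.snd.comp Primrec.snd) Primrec.fst
  have h2 : PrimrecRel fun (f : List A) (p : List A × List (List A)) =>
      ∀ g ∈ succL L f, ¬ g.length ≤ p.1.length ∨ ∃ h ∈ p.2, h = g :=
    h3.forall_mem_list.comp ((prim_succL L).comp Primrec.fst) Primrec.snd
  have h1 := h2.forall_mem_list
  refine PrimrecPred.and ?_ (PrimrecPred.and ?_ ?_)
  · exact hm.comp Primrec.snd (Primrec.const s)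
  · exact (hm.comp Primrec.snd Primrec.fst).not
  · exact h1.comp Primrec.snd Primrec.id

end Prim

section Gram

variable {k : ℕ}

theorem derives_snoc {T : Type} (G : Grammar T) {m : ℕ} {a f g : List (T ⊕ G.N)}
    (h : G.Derives m a f) (hs : G.Step f g) : G.Derives (m + 1) a g := by
  induction m generalizing a with
  | zero =>
    have h' : a = f := h
    subst h'
    exact ⟨g, hs, rfl⟩
  | succ m ih =>
    obtain ⟨x, hx, h'⟩ := h
    exact ⟨x, hx, ih h'⟩

theorem step_length {T : Type} (G : Grammar T) (hP : G.Propagating) {f g : List (T ⊕ G.N)}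
    (h : G.Step f g) : f.length ≤ g.length := by
  obtain ⟨r, hr, u₁, u₂, rfl, rfl, -, -⟩ := h
  have h1 : 0 < r.rhs.length := List.length_pos_of_ne_nil (hP r hr)
  simp only [List.length_append, List.length_cons]
  omega

theorem derives_length {T : Type} (G : Grammar T) (hP : G.Propagating) {m : ℕ}
    {f g : List (T ⊕ G.N)} (h : G.Derives m f g) : f.length ≤ g.length := by
  induction m generalizing f with
  | zero =>
    have h' : f = g := h
    rw [h']
  | succ m ih =>
    obtain ⟨x, hx, h'⟩ := h
    exact (step_length G hP hx).trans (ih h')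

theorem compl_iff (G : Grammar (Fin k)) (hG : G.Degree 1 1) (hP : G.Propagating) {n : ℕ}
    (e : G.N ≃ Fin n) (RL : List (Rule (Fin k) G.N)) (hRL : ∀ r, r ∈ RL ↔ r ∈ G.rules)
    (a t : List (Fin k ⊕ G.N)) (ha : a.length ≤ 1) :
    (∃ S, Cl (RL.map (tr e)) (a.map (Sum.map id e)) (t.map (Sum.map id e)) S) ↔
      ¬ ∃ m, G.Derives m a t := by
  classical
  have hem := em_inj (T := Fin k) e.injective
  have hinj : ∀ {x y : List (Fin k ⊕ G.N)}, x.map (Sum.map id e) = y.map (Sum.map id e) → x = y :=
    fun h => List.map_injective_iff.2 hem h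
  constructor
  · rintro ⟨S, ⟨a', ha', rfl⟩, h2, h3⟩ ⟨m, hm⟩
    apply h2
    have key : ∀ (m : ℕ) (f : List (Fin k ⊕ G.N)), f.map (Sum.map id e) ∈ S →
        G.Derives m f t → t.map (Sum.map id e) ∈ S := by
      intro m
      induction m with
      | zero =>
        intro f hf h
        have h' : f = t := h
        rw [← h']
        exact hf
      | succ m ih =>
        intro f hf h
        obtain ⟨x, hx, h'⟩ := h
        refine ih x ?_ h'
        have h5 : x.map (Sum.map id e) ∈ succL (RL.map (tr e)) (f.map (Sum.map id e)) :=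
          (mem_succL _ _ _).2 ((step_iff G hG e RL hRL f _).2 ⟨x, hx, rfl⟩)
        rcases h3 _ hf _ h5 with h6 | ⟨h7, h8, rfl⟩
        · exfalso
          apply h6
          simpa using derives_length G hP h'
        · exact h8
    exact ⟨_, key m a ha' hm, rfl⟩
  · intro h
    have hfin : {g : List (Fin k ⊕ Fin n) | (∃ f m, G.Derives m a f ∧ g = f.map (Sum.map id e)) ∧
        g.length ≤ max 1 t.length}.Finite :=
      (List.finite_length_le (Fin k ⊕ Fin n) (max 1 t.length)).subset fun g hg => hg.2
    refine ⟨hfin.toFinset.toList, ?_, ?_, ?_⟩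
    · refine ⟨_, ?_, rfl⟩
      simp only [Finset.mem_toList, Set.Finite.mem_toFinset, Set.mem_setOf_eq]
      refine ⟨⟨a, 0, rfl, rfl⟩, ?_⟩
      rw [List.length_map]
      exact ha.trans (le_max_left _ _)
    · rintro ⟨g, hg, rfl⟩
      simp only [Finset.mem_toList, Set.Finite.mem_toFinset, Set.mem_setOf_eq] at hg
      obtain ⟨⟨f, m, hm, hf⟩, -⟩ := hg
      rw [← hinj hf] at hm
      exact h ⟨m, hm⟩
    · intro f hf g hg
      simp only [Finset.mem_toList, Set.Finite.mem_toFinset, Set.mem_setOf_eq] at hf
      obtain ⟨⟨f', m, hm, rfl⟩, -⟩ := hf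
      obtain ⟨x, hx, rfl⟩ := (step_iff G hG e RL hRL f' g).1 ((mem_succL _ _ _).1 hg)
      by_cases hl : (x.map (Sum.map id e)).length ≤ (t.map (Sum.map id e)).length
      · right
        refine ⟨_, ?_, rfl⟩
        simp only [Finset.mem_toList, Set.Finite.mem_toFinset, Set.mem_setOf_eq]
        refine ⟨⟨x, m + 1, derives_snoc G hm hx, rfl⟩, ?_⟩
        simp only [List.length_map] at hl ⊢
        exact hl.trans (le_max_right _ _)
      · left
        exact hl

end Gram

end Rec

theorem t_DEC : S_DEC := by
  classical
  intro k G hG hP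
  rw [ComputablePred.computable_iff_re_compl_re']
  refine ⟨t_REC k G hG, ?_⟩
  have := G.finN
  obtain ⟨n, ⟨e⟩⟩ := Finite.exists_equiv_fin G.N
  have hRL : ∀ r, r ∈ G.finRules.toFinset.toList ↔ r ∈ G.rules := fun r => by simp
  have hw : Primrec fun w : List (Fin k) => (w.map Sum.inl : List (Fin k ⊕ Fin n)) :=
    Primrec.list_map Primrec.id (Primrec.sumInl.comp Primrec.snd).to₂
  have h0 := Rec.prim_Cl (A := Fin k ⊕ Fin n) (G.finRules.toFinset.toList.map (Rec.tr e))
    [Sum.inr (e G.start)]
  have h1 : PrimrecRel fun (w : List (Fin k)) (S : List (List (Fin k ⊕ Fin n))) =>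
      Rec.Cl (G.finRules.toFinset.toList.map (Rec.tr e)) [Sum.inr (e G.start)]
        (w.map Sum.inl) S := h0.comp (hw.comp Primrec.fst) Primrec.snd
  refine (Rec.re_exists h1).of_eq fun w => ?_
  have h2 := Rec.compl_iff G hG hP e G.finRules.toFinset.toList hRL [Sum.inr G.start]
    (w.map Sum.inl) le_rfl
  have h3 : (w.map Sum.inl : List (Fin k ⊕ G.N)).map (Sum.map id e) = w.map Sum.inl := by
    rw [List.map_map]
    rfl
  have h4 : ([Sum.inr G.start] : List (Fin k ⊕ G.N)).map (Sum.map id e) =
      [Sum.inr (e G.start)] := rfl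
  rw [h3, h4] at h2
  exact h2

end Pool.Agent.UDG
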