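import Pool.Agent.UDG.St
import Pool.Agent.Lib_helper46.DPRM.MRDP

/-!
Proof of `S_DIO` (helper64), module UDG_DIO.
-/

set_option autoImplicit false

namespace Pool.Agent.UDG

namespace DIOx

theorem wcode_concat {k : ℕ} (w : List (Fin k)) (j : Fin k) :
    wcode (w ++ [j]) = (k + 1) * wcode w + ((j : ℕ) + 1) := by
  simp [wcode, List.foldl_append]

theorem wcode_inj {k : ℕ} : ∀ w w' : List (Fin k), wcode w = wcode w' → w = w' := by
  intro w
  induction w using List.reverseRecOn with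
  | nil =>
    intro w' h
    rcases List.eq_nil_or_concat' w' with rfl | ⟨v, j, rfl⟩
    · rfl
    · rw [wcode_concat] at h
      have h0 : wcode ([] : List (Fin k)) = 0 := rfl
      omega
  | append_singleton w i ih =>
    intro w' h
    rcases List.eq_nil_or_concat' w' with rfl | ⟨v, j, rfl⟩
    · rw [wcode_concat] at h
      have h0 : wcode ([] : List (Fin k)) = 0 := rfl
      omega
    · rw [wcode_concat, wcode_concat] at h
      have hi : (i : ℕ) + 1 < k + 1 := by omega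
      have hj : (j : ℕ) + 1 < k + 1 := by omega
      have h1 : ((k + 1) * wcode w + ((i : ℕ) + 1)) % (k + 1) = (i : ℕ) + 1 := by
        rw [Nat.mul_add_mod, Nat.mod_eq_of_lt hi]
      have h2 : ((k + 1) * wcode v + ((j : ℕ) + 1)) % (k + 1) = (j : ℕ) + 1 := by
        rw [Nat.mul_add_mod, Nat.mod_eq_of_lt hj]
      have h3 : (i : ℕ) = j := by
        rw [h, h2] at h1
        omega
      have h4 : i = j := Fin.ext h3
      subst h4
      have h5 : (k + 1) * wcode w = (k + 1) * wcode v := by omega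
      have h6 : wcode w = wcode v := Nat.eq_of_mul_eq_mul_left (Nat.succ_pos k) h5
      rw [ih v h6]

theorem wcode_eq {k : ℕ} (w : List (Fin k)) :
    wcode w = w.foldl (fun (x : ℕ) (j : Fin k) => (k + 1) * x + ((j : ℕ) + 1)) 0 := by
  induction w using List.reverseRecOn with
  | nil => rfl
  | append_singleton w i ih => rw [wcode_concat, List.foldl_append, ← ih]; rfl

theorem wcode_primrec {k : ℕ} : Primrec (wcode : List (Fin k) → ℕ) := by
  have hh : Primrec₂ (fun (_ : List (Fin k)) (p : ℕ × Fin k) => (k + 1) * p.1 + ((p.2 : ℕ) + 1)) := by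
    refine Primrec.nat_add.comp ?_ ?_
    · exact Primrec.nat_mul.comp (Primrec.const (k + 1)) (Primrec.fst.comp Primrec.snd)
    · exact Primrec.succ.comp (Primrec.fin_val.comp (Primrec.snd.comp Primrec.snd))
  exact (Primrec.list_foldl (f := fun w : List (Fin k) => w) (g := fun _ => 0) Primrec.id
    (Primrec.const 0) hh).of_eq fun w => (wcode_eq w).symm

/-- The search function. -/
def srch (k : ℕ) (x n : ℕ) : Option (List (Fin k)) :=
  (Encodable.decode n : Option (List (Fin k))).bind fun w => if wcode w = x then some w else none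

theorem srch_computable (k : ℕ) : Computable₂ (srch k) := by
  refine Primrec.to_comp ?_
  refine Primrec.option_bind (Primrec.decode.comp Primrec.snd) ?_
  refine Primrec.ite ?_ (Primrec.option_some.comp Primrec.snd) (Primrec.const none)
  exact Primrec.eq.comp (wcode_primrec.comp Primrec.snd) (Primrec.fst.comp Primrec.fst)

theorem srch_mem {k x n : ℕ} {w : List (Fin k)} (h : w ∈ srch k x n) : wcode w = x := by
  simp only [srch, Option.mem_def, Option.bind_eq_some_iff] at h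
  obtain ⟨v, -, hv⟩ := h
  split_ifs at hv with h1
  · cases hv
    exact h1

theorem srch_code {k : ℕ} (w : List (Fin k)) : w ∈ srch k (wcode w) (Encodable.encode w) := by
  simp [srch]

theorem rep {k : ℕ} {L : Set (List (Fin k))} (hL : REPred (fun w => w ∈ L)) :
    REPred (fun x : ℕ => ∃ w : List (Fin k), wcode w = x ∧ w ∈ L) := by
  have h1 : Partrec fun x : ℕ => (Nat.rfindOpt (srch k x)).bind
      (fun w => Part.assert (w ∈ L) fun _ => Part.some ()) :=
    Partrec.bind (Partrec.rfindOpt (srch_computable k)) (hL.comp Computable.snd)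
  refine h1.of_eq ?_
  intro x
  ext a
  simp only [Part.mem_bind_iff, Part.mem_assert_iff, Part.mem_some_iff]
  constructor
  · rintro ⟨w, hw, h, ha⟩
    obtain ⟨n, hn⟩ := Nat.rfindOpt_spec hw
    exact ⟨⟨w, srch_mem hn, h⟩, ha⟩
  · rintro ⟨⟨w, hw, h⟩, ha⟩
    subst hw
    have hd : (Nat.rfindOpt (srch k (wcode w))).Dom := Nat.rfindOpt_dom.2 ⟨_, _, srch_code w⟩
    obtain ⟨n, hn⟩ := Nat.rfindOpt_spec ⟨hd, rfl⟩
    have he := wcode_inj _ _ (srch_mem hn)
    refine ⟨w, ?_, h, ha⟩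
    exact ⟨hd, he⟩

/-- The tree of a polynomial. -/
theorem tree {α : Type} {f : (α → ℕ) → ℤ} (hf : IsPoly f) :
    ∃ F : Set α, F.Finite ∧ (∀ v v' : α → ℕ, (∀ a ∈ F, v a = v' a) → f v = f v') ∧
      ∀ ρ : α → ℕ, ∃ e : Expr, (∀ n, (∀ a ∈ F, ρ a < n) → e.Below n) ∧
        ∀ s : ℕ → ℕ, e.eval s = f (fun a => s (ρ a)) := by
  induction hf with
  | proj i =>
    refine ⟨{i}, Set.finite_singleton i, ?_, ?_⟩
    · intro v v' h
      have := h i rfl
      simp only [this]
    · intro ρ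
      exact ⟨.var (ρ i), fun n h => h i rfl, fun s => rfl⟩
  | const n =>
    refine ⟨∅, Set.finite_empty, fun _ _ _ => rfl, fun ρ => ⟨.cst n, fun _ _ => trivial, fun _ => rfl⟩⟩
  | @sub f g _ _ ihf ihg =>
    obtain ⟨F, hF, hf1, hf2⟩ := ihf
    obtain ⟨G, hG, hg1, hg2⟩ := ihg
    refine ⟨F ∪ G, hF.union hG, ?_, ?_⟩
    · intro v v' h
      simp only [hf1 v v' fun a ha => h a (Or.inl ha), hg1 v v' fun a ha => h a (Or.inr ha)]
    · intro ρ
      obtain ⟨e₁, h₁, h₁'⟩ := hf2 ρ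
      obtain ⟨e₂, h₂, h₂'⟩ := hg2 ρ
      refine ⟨.sub e₁ e₂, fun n h => ⟨h₁ n fun a ha => h a (Or.inl ha),
        h₂ n fun a ha => h a (Or.inr ha)⟩, fun s => ?_⟩
      simp only [Expr.eval, h₁', h₂']
  | @mul f g _ _ ihf ihg =>
    obtain ⟨F, hF, hf1, hf2⟩ := ihf
    obtain ⟨G, hG, hg1, hg2⟩ := ihg
    refine ⟨F ∪ G, hF.union hG, ?_, ?_⟩
    · intro v v' h
      simp only [hf1 v v' fun a ha => h a (Or.inl ha), hg1 v v' fun a ha => h a (Or.inr ha)]
    · intro ρ
      obtain ⟨e₁, h₁, h₁'⟩ := hf2 ρ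
      obtain ⟨e₂, h₂, h₂'⟩ := hg2 ρ
      refine ⟨.mul e₁ e₂, fun n h => ⟨h₁ n fun a ha => h a (Or.inl ha),
        h₂ n fun a ha => h a (Or.inr ha)⟩, fun s => ?_⟩
      simp only [Expr.eval, h₁', h₂']

/-- A Diophantine set of numbers is given by an expression. -/
theorem dio {p : ℕ → Prop} (hp : Dioph {v : Unit → ℕ | p (v ())}) :
    ∃ (n : ℕ) (e : Expr), 1 ≤ n ∧ e.Below n ∧
      ∀ x : ℕ, p x ↔ ∃ s : ℕ → ℕ, s 0 = x ∧ e.eval s = 0 := by
  classical
  obtain ⟨β, P, hP⟩ := hp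
  obtain ⟨F, hF, hloc, htree⟩ := tree P.isPoly
  have hB : (Sum.inr ⁻¹' F : Set β).Finite := hF.preimage Sum.inr_injective.injOn
  let B : Finset β := hB.toFinset
  have hBmem : ∀ b : β, Sum.inr b ∈ F ↔ b ∈ B := by
    intro b
    simp [B]
  let E : B ≃ Fin B.card := B.equivFin
  let ρ : Unit ⊕ β → ℕ := Sum.elim (fun _ => 0)
    (fun b => if h : b ∈ B then (E ⟨b, h⟩ : ℕ) + 1 else 0)
  obtain ⟨e, he1, he2⟩ := htree ρ
  refine ⟨B.card + 1, e, by omega, he1 _ ?_, ?_⟩
  · rintro (⟨⟩ | b) hb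
    · simp [ρ]
    · have hb' := (hBmem b).1 hb
      simp [ρ, hb']
  · intro x
    have h1 := hP (fun _ => x)
    have h2 : ((fun _ => x) ∈ {v : Unit → ℕ | p (v ())}) ↔ p x := Iff.rfl
    rw [← h2, h1]
    constructor
    · rintro ⟨t, ht⟩
      refine ⟨fun i => if i = 0 then x else if h : i - 1 < B.card then t (E.symm ⟨i - 1, h⟩) else 0,
        by simp, ?_⟩
      rw [he2]
      rw [← ht]
      refine hloc _ _ ?_
      rintro (⟨⟩ | b) hb
      · simp [ρ]
      · have hb' := (hBmem b).1 hb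
        simp [ρ, hb']
    · rintro ⟨s, hs, h⟩
      refine ⟨fun b => s (ρ (Sum.inr b)), ?_⟩
      rw [he2] at h
      rw [← h]
      refine hloc _ _ ?_
      rintro (⟨⟩ | b) _
      · simp [ρ, hs]
      · rfl

end DIOx

/-- **DIO**. -/
theorem t_DIO : S_DIO := by
  intro k L hL
  obtain ⟨n, e, hn, he, h⟩ := DIOx.dio
    (Pool.Agent.Lib_helper46.DPRM36.MRDP.re_dioph (DIOx.rep hL))
  refine ⟨n, e, hn, he, fun w => ?_⟩
  rw [← h (wcode w)]
  constructor
  · intro hw
    exact ⟨w, rfl, hw⟩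
  · rintro ⟨w', h1, h2⟩
    rw [DIOx.wcode_inj _ _ h1] at h2
    exact h2

end Pool.Agent.UDG
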