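import Mathlib
import Pool.Agent.UDG.St

/-!
ELI, elimination of the skip edges (helper61).
-/

set_option autoImplicit false

namespace Pool.Agent.UDG

open Relation

/-- Skip edges lead the automaton along. -/
theorem astep_skips {B γ : Type} (β : B → γ → γ → Prop) (E : List (ℕ × B × ℕ)) (F : List (ℕ × ℕ))
    {a b : ℕ} (h : ReflTransGen (fun x y => (x, y) ∈ F) a b) (c : γ) :
    ReflTransGen (AStep β E F) (a, c) (b, c) := by
  induction h with
  | refl => exact .refl
  | tail _ hb ih => exact ih.tail (Or.inr ⟨hb, rfl⟩)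

/-- **ELI**. -/
theorem t_ELI : S_ELI := by
  classical
  intro B γ β s i f E F hi hf hE hF
  refine ⟨(List.range s).flatMap fun q =>
    (E.filter fun e => ReflTransGen (fun x y => (x, y) ∈ F) q e.1).map fun e => (q, e.2.1, e.2.2),
    (List.range s).filter fun q => ReflTransGen (fun x y => (x, y) ∈ F) q f, ?_, ?_, ?_⟩
  · intro e he
    simp only [List.mem_flatMap, List.mem_range, List.mem_map, List.mem_filter,
      decide_eq_true_eq] at he
    obtain ⟨q, hq, e', ⟨he', -⟩, rfl⟩ := he
    exact ⟨hq, (hE e' he').2⟩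
  · intro q hq
    simp only [List.mem_filter, List.mem_range, decide_eq_true_eq] at hq
    exact hq.1
  · intro c c'
    have mE : ∀ e : ℕ × B × ℕ, (e ∈ (List.range s).flatMap fun q =>
        (E.filter fun e => ReflTransGen (fun x y => (x, y) ∈ F) q e.1).map
          fun e => (q, e.2.1, e.2.2)) ↔
        e.1 < s ∧ ∃ q₁, (q₁, e.2.1, e.2.2) ∈ E ∧
          ReflTransGen (fun x y => (x, y) ∈ F) e.1 q₁ := by
      rintro ⟨q, b, q₂⟩
      simp only [List.mem_flatMap, List.mem_range, List.mem_map, List.mem_filter,
        decide_eq_true_eq]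
      constructor
      · rintro ⟨a, ha, ⟨q₁, b', q₂'⟩, ⟨he', hr⟩, heq⟩
        simp only [Prod.mk.injEq] at heq
        obtain ⟨rfl, rfl, rfl⟩ := heq
        exact ⟨ha, q₁, he', hr⟩
      · rintro ⟨ha, q₁, he', hr⟩
        exact ⟨q, ha, (q₁, b, q₂), ⟨he', hr⟩, rfl⟩
    have mG : ∀ q, (q ∈ (List.range s).filter
        fun q => ReflTransGen (fun x y => (x, y) ∈ F) q f) ↔
        q < s ∧ ReflTransGen (fun x y => (x, y) ∈ F) q f := by
      intro q
      simp only [List.mem_filter, List.mem_range, decide_eq_true_eq]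
    generalize (List.range s).flatMap (fun q =>
      (E.filter fun e => ReflTransGen (fun x y => (x, y) ∈ F) q e.1).map
        fun e => (q, e.2.1, e.2.2)) = E' at mE ⊢
    generalize (List.range s).filter
      (fun q => ReflTransGen (fun x y => (x, y) ∈ F) q f) = G at mG ⊢
    constructor
    · intro h
      have key : ∀ x : ℕ × γ, ReflTransGen (AStep β E F) x (f, c') → x.1 < s →
          ∃ q ∈ G, ReflTransGen (AStep β E' []) x (q, c') := by
        intro x hx
        induction hx using ReflTransGen.head_induction_on with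
        | refl => exact fun _ => ⟨f, (mG f).2 ⟨hf, .refl⟩, .refl⟩
        | @head x y hxy hyz ih =>
          intro hxs
          rcases hxy with ⟨e, he, h1, h2, h3⟩ | ⟨h1, h2⟩
          · obtain ⟨q, hq, hr⟩ := ih (h2 ▸ (hE e he).2)
            refine ⟨q, hq, .head (Or.inl ⟨(x.1, e.2.1, e.2.2), (mE _).2 ⟨hxs, e.1, he, ?_⟩,
              rfl, h2, h3⟩) hr⟩
            simp only [h1]
            exact .refl
          · obtain ⟨q, hq, hr⟩ := ih (hF _ h1).2
            rcases ReflTransGen.cases_head hr with h | ⟨z, hz, hr'⟩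
            · subst h
              refine ⟨x.1, (mG _).2 ⟨hxs, .head h1 ((mG _).1 hq).2⟩, ?_⟩
              have : x = (x.1, c') := Prod.ext rfl h2.symm
              rw [← this]
            · rcases hz with ⟨e, he, h3, h4, h5⟩ | ⟨h3, -⟩
              · obtain ⟨-, q₁, hq₁, hr₁⟩ := (mE e).1 he
                refine ⟨q, hq, .head (Or.inl ⟨(x.1, e.2.1, e.2.2),
                  (mE _).2 ⟨hxs, q₁, hq₁, .head h1 (h3 ▸ hr₁)⟩, rfl, h4, ?_⟩) hr'⟩
                rw [← h2]
                exact h5
              · simp at h3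
      exact key _ h hi
    · rintro ⟨q, hq, hr⟩
      refine ReflTransGen.trans ?_ (astep_skips β E F ((mG q).1 hq).2 c')
      clear hq
      have key : ∀ x y : ℕ × γ, ReflTransGen (AStep β E' []) x y →
          ReflTransGen (AStep β E F) x y := by
        intro x y hxy
        induction hxy with
        | refl => exact .refl
        | @tail y z _ hb ih =>
          refine ih.trans ?_
          rcases hb with ⟨e, he, h3, h4, h5⟩ | ⟨h3, -⟩
          · obtain ⟨-, q₁, hq₁, hr₁⟩ := (mE e).1 he
            have h6 := astep_skips β E F hr₁ y.2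
            rw [h3] at h6
            exact h6.tail (Or.inl ⟨_, hq₁, rfl, h4, h5⟩)
          · simp at h3
      exact key _ _ hr

end Pool.Agent.UDG
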