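import Mathlib
import Pool.Agent.UDG.St

/-!
Proof of `S_EVL` (evaluation of a polynomial expression by a program for many counters), module of
helper58 for MP_84f0c5_lc.
-/

set_option autoImplicit false

namespace Pool.Agent.UDG

open Relation

namespace EVL

variable {T : Type}

/-- The function `F` on the stores in `D` is realised by a program without output. -/
def RF (T : Type) (D : Set (ℕ →₀ ℕ)) (F : (ℕ →₀ ℕ) → (ℕ →₀ ℕ)) : Prop :=
  RealOn D fun c c' : List T × (ℕ →₀ ℕ) => c' = (c.1, F c.2)

theorem RF.congr {D : Set (ℕ →₀ ℕ)} {F G : (ℕ →₀ ℕ) → (ℕ →₀ ℕ)} (h : RF T D F)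
    (e : ∀ s ∈ D, F s = G s) : RF T D G :=
  RealOn.congr h fun c c' hc => by rw [e _ hc]

theorem RF.mono {D D' : Set (ℕ →₀ ℕ)} {F : (ℕ →₀ ℕ) → (ℕ →₀ ℕ)} (h : RF T D F) (hD : D' ⊆ D) :
    RF T D' F := RealOn.mono h hD

theorem RF.comp {D D' : Set (ℕ →₀ ℕ)} {F G : (ℕ →₀ ℕ) → (ℕ →₀ ℕ)} (h : RF T D F) (h' : RF T D' G)
    (m : ∀ s ∈ D, F s ∈ D') : RF T D fun s => G (F s) := by
  refine (RealOn.seq h h' ?_).congr ?_
  · rintro c c' hc rfl
    exact m _ hc
  · intro c c' _
    simp only [Relation.Comp]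
    constructor
    · rintro ⟨d, rfl, rfl⟩
      rfl
    · rintro rfl
      exact ⟨_, rfl, rfl⟩

theorem low_mono {m n : ℕ} (h : m ≤ n) : Low m ⊆ Low n := fun _ hs j hj => hs j (h.trans hj)

theorem pab_congr {n : ℕ} {s t : ℕ → ℕ} (h : ∀ i < n, s i = t i) :
    ∀ e : Expr, e.Below n → e.pab s = e.pab t := by
  intro e
  induction e with
  | var i => intro hi; simp only [Expr.Below] at hi; simp [Expr.pab, h i hi]
  | cst c => intro _; rfl
  | sub e f he hf => intro hb; simp only [Expr.pab, he hb.1, hf hb.2]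
  | mul e f he hf => intro hb; simp only [Expr.pab, he hb.1, hf hb.2]

/-- TRF as a function. -/
theorem trf (h1 : S_TRF) (i : ℕ) (v : ℕ →₀ ℕ) (hv : v i = 0) (D : Set (ℕ →₀ ℕ)) :
    RF T D fun s => s.erase i + s i • v := (h1 T i v hv).on D

/-- CPY as a function. -/
theorem cpy (h2 : S_CPY) (i j k : ℕ) (hij : i ≠ j) (hik : i ≠ k) (hjk : j ≠ k) {D : Set (ℕ →₀ ℕ)}
    (hD : ∀ s ∈ D, s k = 0) : RF T D fun s => s + s i • Finsupp.single j 1 :=
  (h2 T i j k hij hik hjk).mono hD

/-- The loop which multiplies: the counter `i` is cleared and `s i` times the counters `p`, `q` are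
added to the counters `a`, `b`. -/
theorem lop (h2 : S_CPY) (h3 : S_LOP) (m i p q a b : ℕ) (hi : i < m) (hp : p < m) (hq : q < m)
    (ha : a < m) (hb : b < m) (hip : i ≠ p) (hiq : i ≠ q) (hia : i ≠ a) (hib : i ≠ b)
    (hpa : p ≠ a) (hpb : p ≠ b) (hqa : q ≠ a) (hqb : q ≠ b) :
    RF T (Low m) fun s => s.erase i +
      s i • (s p • Finsupp.single a 1 + s q • Finsupp.single b 1) := by
  refine h3 T (Low m) i (fun s => s p • Finsupp.single a 1 + s q • Finsupp.single b 1)
    ?_ ?_ ?_ ?_
  · intro s _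
    simp [hia.symm, hib.symm]
  · intro s hs
    refine ⟨fun j hj => ?_, ?_⟩
    · have := hs j hj
      simp only [Finsupp.coe_add, Pi.add_apply] at this
      omega
    · simp [hip, hiq]
  · intro s hs
    refine ⟨fun j hj => ?_, ?_⟩
    · have h0 : s j = 0 := hs j hj
      have hja : a ≠ j := by omega
      have hjb : b ≠ j := by omega
      simp [h0, hja, hjb]
    · simp [hpa.symm, hpb.symm, hqa.symm, hqb.symm]
  · have e1 : RF T (Low m) fun s => s + s p • Finsupp.single a 1 :=
      cpy h2 p a m hpa (by omega) (by omega) fun s hs => hs m le_rfl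
    have e2 : RF T (Low m) fun s => s + s q • Finsupp.single b 1 :=
      cpy h2 q b m hqb (by omega) (by omega) fun s hs => hs m le_rfl
    have e3 : RF T (Low m) fun s => s + (s p • Finsupp.single a 1 + s q • Finsupp.single b 1) := by
      refine (e1.comp e2 ?_).congr ?_
      · intro s hs j hj
        have h0 : s j = 0 := hs j hj
        have hja : a ≠ j := by omega
        simp [h0, hja]
      · intro s _
        have : (s + s p • Finsupp.single a (1 : ℕ)) q = s q := by simp [hqa.symm]
        rw [this, add_assoc]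
    exact e3

/-- The function of `S_EVL`. -/
noncomputable def ev (e : Expr) (k : ℕ) (s : ℕ →₀ ℕ) : ℕ →₀ ℕ :=
  s + Finsupp.single k (e.pab s).1 + Finsupp.single (k + 1) (e.pab s).2

theorem ev_low {e : Expr} {k m : ℕ} {s : ℕ →₀ ℕ} (hs : s ∈ Low m) (hm : k + 2 ≤ m) :
    ev e k s ∈ Low m := by
  intro j hj
  have h0 : s j = 0 := hs j hj
  have h1 : k ≠ j := by omega
  have h2 : k + 1 ≠ j := by omega
  simp [ev, h0, h1, h2]

theorem ev_apply (e : Expr) (k : ℕ) (s : ℕ →₀ ℕ) (x : ℕ) :
    ev e k s x = s x + (if k = x then (e.pab s).1 else 0) +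
      (if k + 1 = x then (e.pab s).2 else 0) := by
  simp [ev, Finsupp.single_apply]

theorem pab_ev {n : ℕ} {e f : Expr} (hf : f.Below n) {k : ℕ} (hk : n ≤ k) (s : ℕ →₀ ℕ) :
    f.pab (ev e k s) = f.pab s := by
  refine pab_congr (n := n) ?_ f hf
  intro i hi
  have h1 : k ≠ i := by omega
  have h2 : k + 1 ≠ i := by omega
  simp [ev_apply, h1, h2]

theorem main (h1 : S_TRF) (h2 : S_CPY) (h3 : S_LOP) (n : ℕ) :
    ∀ e : Expr, e.Below n → ∀ k, n ≤ k → RF T (Low k) (ev e k) := by
  intro e
  induction e with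
  | var i =>
    intro hi k hk
    simp only [Expr.Below] at hi
    refine RF.congr (cpy h2 i k (k + 1) (by omega) (by omega) (by omega)
      fun s hs => hs (k + 1) (by omega)) ?_
    intro s _
    simp [ev, Expr.pab]
  | cst c =>
    intro _ k _
    have h := (Real.add (T := T) [] (Finsupp.single k c.toNat +
      Finsupp.single (k + 1) (-c).toNat)).on (Low k)
    refine h.congr ?_
    intro c c' _
    simp [ev, Expr.pab, add_assoc]
  | sub e f he hf =>
    intro hb k hk
    have e1 := he hb.1 k hk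
    have e2 := hf hb.2 (k + 2) (by omega)
    have e3 : RF T Set.univ fun s => s.erase (k + 3) + s (k + 3) • Finsupp.single k 1 :=
      trf h1 (k + 3) (Finsupp.single k 1) (by simp) _
    have e4 : RF T Set.univ fun s => s.erase (k + 2) + s (k + 2) • Finsupp.single (k + 1) 1 :=
      trf h1 (k + 2) (Finsupp.single (k + 1) 1) (by simp) _
    refine (((e1.comp e2 fun s hs => ev_low (low_mono (by omega) hs) le_rfl).comp e3
      fun _ _ => Set.mem_univ _).comp e4 fun _ _ => Set.mem_univ _).congr ?_
    intro s hs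
    have hp : f.pab (ev e k s) = f.pab s := pab_ev hb.2 hk s
    have z : ∀ j, k ≤ j → s j = 0 := hs
    ext x
    simp only [Finsupp.coe_add, Pi.add_apply, Finsupp.coe_smul, Pi.smul_apply, smul_eq_mul,
      Finsupp.erase_apply, Finsupp.single_apply, ev_apply, hp]
    simp only [Expr.pab]
    have z0 := z k le_rfl
    have z1 := z (k + 1) (by omega)
    have z2 := z (k + 2) (by omega)
    have z3 := z (k + 3) (by omega)
    rcases eq_or_ne x k with rfl | x0
    · simp [z0, z2, z3]
      omega
    rcases eq_or_ne x (k + 1) with rfl | x1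
    · simp [z1, z2, z3]
    rcases eq_or_ne x (k + 2) with rfl | x2
    · simp [z2, z3]
    rcases eq_or_ne x (k + 3) with rfl | x3
    · simp [z2, z3]
    simp [x0.symm, x1.symm, x2.symm, x3.symm, x2, x3]
  | mul e f he hf =>
    intro hb k hk
    have e1 := he hb.1 (k + 2) (by omega)
    have e2 := hf hb.2 (k + 4) (by omega)
    have e3 := lop (T := T) h2 h3 (k + 6) (k + 2) (k + 4) (k + 5) k (k + 1) (by omega) (by omega)
      (by omega) (by omega) (by omega) (by omega) (by omega) (by omega) (by omega) (by omega)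
      (by omega) (by omega) (by omega)
    have e4 := lop (T := T) h2 h3 (k + 6) (k + 3) (k + 5) (k + 4) k (k + 1) (by omega) (by omega)
      (by omega) (by omega) (by omega) (by omega) (by omega) (by omega) (by omega) (by omega)
      (by omega) (by omega) (by omega)
    have e5 : RF T Set.univ fun s => s.erase (k + 4) + s (k + 4) • (0 : ℕ →₀ ℕ) :=
      trf h1 (k + 4) 0 rfl _
    have e6 : RF T Set.univ fun s => s.erase (k + 5) + s (k + 5) • (0 : ℕ →₀ ℕ) :=
      trf h1 (k + 5) 0 rfl _
    have e1' : RF T (Low k) (ev e (k + 2)) := e1.mono (low_mono (by omega))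
    refine (((((e1'.comp e2 fun s hs => ev_low (low_mono (by omega) hs) (by omega)).comp e3
      fun s hs => ev_low (ev_low (low_mono (by omega) hs) (by omega)) (by omega)).comp e4
      ?_).comp e5 fun _ _ => Set.mem_univ _).comp e6 fun _ _ => Set.mem_univ _).congr ?_
    · intro s hs j hj
      have h0 : s j = 0 := hs j (by omega)
      have q0 : k ≠ j := by omega
      have q1 : k + 1 ≠ j := by omega
      have q2 : k + 2 ≠ j := by omega
      have q3 : k + 3 ≠ j := by omega
      have q4 : k + 4 ≠ j := by omega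
      have q5 : k + 5 ≠ j := by omega
      simp [Finsupp.erase_apply, ev_apply, h0, q0, q1, q2, q3, q4, q5]
    intro s hs
    have hp : f.pab (ev e (k + 2) s) = f.pab s := pab_ev hb.2 (by omega) s
    have z : ∀ j, k ≤ j → s j = 0 := hs
    have z0 := z k le_rfl
    have z1 := z (k + 1) (by omega)
    have z2 := z (k + 2) (by omega)
    have z3 := z (k + 3) (by omega)
    have z4 := z (k + 4) (by omega)
    have z5 := z (k + 5) (by omega)
    ext x
    simp only [Finsupp.coe_add, Pi.add_apply, Finsupp.coe_smul, Pi.smul_apply, smul_eq_mul,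
      Finsupp.erase_apply, Finsupp.single_apply, ev_apply, hp, smul_zero]
    simp only [Expr.pab]
    rcases eq_or_ne x k with rfl | x0
    · simp [z0, z2, z3, z4, z5]
      omega
    rcases eq_or_ne x (k + 1) with rfl | x1
    · simp [z1, z2, z3, z4, z5]
    rcases eq_or_ne x (k + 2) with rfl | x2
    · simp [z2, z3, z4, z5]
    rcases eq_or_ne x (k + 3) with rfl | x3
    · simp [z2, z3, z4, z5]
    rcases eq_or_ne x (k + 4) with rfl | x4
    · simp [z4]
    rcases eq_or_ne x (k + 5) with rfl | x5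
    · simp [z5]
    simp [x0.symm, x1.symm, x2.symm, x3.symm, x4.symm, x5.symm, x2, x3, x4, x5]

end EVL

/-- **EVL**. -/
theorem t_EVL (h1 : S_TRF) (h2 : S_CPY) (h3 : S_LOP) : S_EVL := by
  intro T n e he k hk
  exact EVL.main h1 h2 h3 n e he k hk

end Pool.Agent.UDG
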