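import Pool.Agent.UDG.St

/-!
The loop lemma `S_LOP` (MP_84f0c5_lc): `(dec i; B)*; zer i`.
-/

set_option autoImplicit false

namespace Pool.Agent.UDG

open Relation

section

variable {T : Type}

/-- One round: subtract 1 from the counter `i`, then add `w`. -/
def LopRound (T : Type) (i : ℕ) (w : (ℕ →₀ ℕ) → (ℕ →₀ ℕ)) : Rel T := fun c c' =>
  ∃ t : ℕ →₀ ℕ, c.2 = t + Finsupp.single i 1 ∧ c' = (c.1, t + w t)

/-- The result of the loop. -/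
noncomputable def lopRes (i : ℕ) (w : (ℕ →₀ ℕ) → (ℕ →₀ ℕ)) (s : ℕ →₀ ℕ) : ℕ →₀ ℕ :=
  s.erase i + s i • w s

theorem lop_erase_self {i : ℕ} {s : ℕ →₀ ℕ} (h : s i = 0) : s.erase i = s := by
  ext j
  by_cases hj : j = i
  · subst hj
    rw [Finsupp.erase_same, h]
  · rw [Finsupp.erase_ne hj]

theorem lop_step {D : Set (ℕ →₀ ℕ)} {i : ℕ} {w : (ℕ →₀ ℕ) → (ℕ →₀ ℕ)}
    (h0 : ∀ s ∈ D, (w s) i = 0)
    (h1 : ∀ s, s + Finsupp.single i 1 ∈ D → s ∈ D ∧ w (s + Finsupp.single i 1) = w s)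
    (h2 : ∀ s ∈ D, s + w s ∈ D ∧ w (s + w s) = w s) {t : ℕ →₀ ℕ}
    (ht : t + Finsupp.single i 1 ∈ D) :
    lopRes i w (t + w t) = lopRes i w (t + Finsupp.single i 1) := by
  obtain ⟨ht1, ht2⟩ := h1 t ht
  obtain ⟨-, ht3⟩ := h2 t ht1
  have hwi := h0 t ht1
  unfold lopRes
  rw [ht2, ht3, Finsupp.erase_add, Finsupp.erase_add, lop_erase_self hwi, Finsupp.erase_single,
    Finsupp.add_apply, Finsupp.add_apply, hwi, Finsupp.single_eq_same, add_zero, add_zero, add_smul,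
    one_smul]
  abel

theorem lop_end {i : ℕ} {w : (ℕ →₀ ℕ) → (ℕ →₀ ℕ)} {s : ℕ →₀ ℕ} (h : s i = 0) :
    lopRes i w s = s := by
  unfold lopRes
  rw [h, zero_smul, add_zero, lop_erase_self h]

theorem lop_path {D : Set (ℕ →₀ ℕ)} {i : ℕ} {w : (ℕ →₀ ℕ) → (ℕ →₀ ℕ)}
    (h0 : ∀ s ∈ D, (w s) i = 0)
    (h1 : ∀ s, s + Finsupp.single i 1 ∈ D → s ∈ D ∧ w (s + Finsupp.single i 1) = w s)
    (h2 : ∀ s ∈ D, s + w s ∈ D ∧ w (s + w s) = w s) (u : List T) :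
    ∀ (n : ℕ) (s : ℕ →₀ ℕ), s ∈ D → s i = n →
      ReflTransGen (LopRound T i w) (u, s) (u, lopRes i w s) ∧ lopRes i w s i = 0
  | 0, s, _, hn => by
    rw [lop_end hn]
    exact ⟨.refl, hn⟩
  | n + 1, s, hs, hn => by
    have hst : s - Finsupp.single i 1 + Finsupp.single i 1 = s := by
      refine tsub_add_cancel_of_le ?_
      rw [Finsupp.single_le_iff]
      omega
    obtain ⟨t, ht⟩ : ∃ t : ℕ →₀ ℕ, s = t + Finsupp.single i 1 := ⟨_, hst.symm⟩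
    subst ht
    obtain ⟨ht1, -⟩ := h1 t hs
    obtain ⟨ht2, -⟩ := h2 t ht1
    have hti : (t + w t) i = n := by
      rw [Finsupp.add_apply, Finsupp.single_eq_same] at hn
      rw [Finsupp.add_apply, h0 t ht1]
      omega
    obtain ⟨ih1, ih2⟩ := lop_path h0 h1 h2 u n (t + w t) ht2 hti
    rw [lop_step h0 h1 h2 hs] at ih1 ih2
    exact ⟨ReflTransGen.head ⟨t, rfl, rfl⟩ ih1, ih2⟩

theorem lop_inv {D : Set (ℕ →₀ ℕ)} {i : ℕ} {w : (ℕ →₀ ℕ) → (ℕ →₀ ℕ)}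
    (h0 : ∀ s ∈ D, (w s) i = 0)
    (h1 : ∀ s, s + Finsupp.single i 1 ∈ D → s ∈ D ∧ w (s + Finsupp.single i 1) = w s)
    (h2 : ∀ s ∈ D, s + w s ∈ D ∧ w (s + w s) = w s) {c d : List T × (ℕ →₀ ℕ)} (hc : c.2 ∈ D)
    (h : ReflTransGen (LopRound T i w) c d) :
    d.2 ∈ D ∧ d.1 = c.1 ∧ lopRes i w d.2 = lopRes i w c.2 := by
  induction h with
  | refl => exact ⟨hc, rfl, rfl⟩
  | tail _ hb ih =>
    obtain ⟨ih1, ih2, ih3⟩ := ih
    obtain ⟨t, ht, rfl⟩ := hb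
    rw [ht] at ih1 ih3
    refine ⟨(h2 t (h1 t ih1).1).1, ih2, ?_⟩
    rw [← ih3]
    exact lop_step h0 h1 h2 ih1

end

/-- **LOP**. -/
theorem t_LOP : S_LOP := by
  intro T D i w h0 h1 h2 hB
  have hR : RealOn D (LopRound T i w) := by
    refine (((Real.bas (.dec i)).on D).seq hB ?_).congr ?_
    · intro c d hc hcd
      obtain ⟨-, h⟩ : d.1 = c.1 ∧ c.2 = d.2 + Finsupp.single i 1 := hcd
      rw [h] at hc
      exact (h1 _ hc).1
    · intro c c' _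
      simp only [Relation.Comp, Instr.sem, LopRound]
      constructor
      · rintro ⟨d, ⟨hd1, hd2⟩, rfl⟩
        exact ⟨d.2, hd2, by rw [hd1]⟩
      · rintro ⟨t, ht, rfl⟩
        exact ⟨(c.1, t), ⟨rfl, ht⟩, rfl⟩
  have hS : RealOn D (ReflTransGen (LopRound T i w)) := by
    refine hR.star ?_
    rintro c c' hc ⟨t, ht, rfl⟩
    rw [ht] at hc
    exact (h2 t (h1 t hc).1).1
  refine (hS.seq ((Real.bas (.zer i)).on D) ?_).congr ?_
  · intro c d hc hcd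
    exact (lop_inv h0 h1 h2 hc hcd).1
  · intro c c' hc
    simp only [Relation.Comp, Instr.sem]
    constructor
    · rintro ⟨d, hd, rfl, hz⟩
      obtain ⟨-, hd2, hd3⟩ := lop_inv h0 h1 h2 hc hd
      rw [lop_end hz] at hd3
      exact Prod.ext hd2 hd3
    · rintro rfl
      obtain ⟨hp1, hp2⟩ := lop_path h0 h1 h2 c.1 (c.2 i) c.2 hc rfl
      exact ⟨(c.1, lopRes i w c.2), hp1, rfl, hp2⟩

end Pool.Agent.UDG
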