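import Mathlib
import Pool.Agent.UDG.St

/-!
Assembly of UDG (helper26).
-/

set_option autoImplicit false

namespace Pool.Agent.UDG

open Pool.Agent.SCG Relation

theorem Expr.eval_congr {n : ℕ} {s s' : ℕ → ℕ} (h : ∀ i < n, s i = s' i) :
    ∀ e : Expr, e.Below n → e.eval s = e.eval s'
  | .var i, hi => by
    simp only [Expr.Below] at hi
    simp only [Expr.eval, h i hi]
  | .cst c, _ => rfl
  | .sub e f, hb => by
    simp only [Expr.Below] at hb
    simp only [Expr.eval, Expr.eval_congr h e hb.1, Expr.eval_congr h f hb.2]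
  | .mul e f, hb => by
    simp only [Expr.Below] at hb
    simp only [Expr.eval, Expr.eval_congr h e hb.1, Expr.eval_congr h f hb.2]

theorem Expr.eval_pab (s : ℕ → ℕ) :
    ∀ e : Expr, e.eval s = ((e.pab s).1 : ℤ) - ((e.pab s).2 : ℤ)
  | .var i => by simp [Expr.eval, Expr.pab]
  | .cst c => by
    simp only [Expr.eval, Expr.pab]
    omega
  | .sub e f => by
    simp only [Expr.eval, Expr.pab, Expr.eval_pab s e, Expr.eval_pab s f]
    push_cast
    ring
  | .mul e f => by
    simp only [Expr.eval, Expr.pab, Expr.eval_pab s e, Expr.eval_pab s f]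
    push_cast
    ring

theorem god_zero : god 0 = 1 := by simp [god]

theorem god_eq_one {s : ℕ →₀ ℕ} (h : god s = 1) : s = 0 := by
  by_contra hs
  obtain ⟨i, hi⟩ := Finsupp.ne_iff.1 hs
  have hi' : s i ≠ 0 := by simpa using hi
  have h1 : Nat.nth Nat.Prime i ^ s i ∣ god s :=
    Finset.dvd_prod_of_mem (fun i => Nat.nth Nat.Prime i ^ s i) (Finsupp.mem_support_iff.2 hi')
  have h2 : Nat.nth Nat.Prime i ∣ god s := (dvd_pow_self _ hi').trans h1
  rw [h] at h2
  exact (Nat.prime_nth_prime i).one_lt.ne' (Nat.dvd_one.1 h2)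

/-- The 13 conditional rules. -/
def condRules (T : Type) : List (Rule T (Ctl ⊕ Cnt)) :=
  ([⟨.d0, [], some .d1, [], .prm (Sum.inr .Z)⟩,
    ⟨.d1, [], some .c6, [], .frb (Sum.inr .Z)⟩,
    ⟨.e0, [], some .e1, [], .prm (Sum.inr .Z)⟩,
    ⟨.e1, [], some .c5, [], .frb (Sum.inr .Z)⟩,
    ⟨.c5, [], some .c7, [], .frb (Sum.inr .Y)⟩,
    ⟨.c7, [], some .c8, [], .frb (Sum.inr .N)⟩,
    ⟨.c8, [], some .c0, [], .frb (Sum.inr .W)⟩] : List (CRule T Ctl Cnt)).map CRule.toRule ++
  fixedK.map KRule.toRule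

theorem condRules_length (T : Type) : (condRules T).length = 13 := rfl

theorem mem_condRules {T : Type} (S : Sys T) (r : Rule T (Ctl ⊕ Cnt))
    (hr : r ∈ (S.cg.toGrammar Ctl.st).rules) (h : r.perm ≠ none ∨ r.forb ≠ none) :
    r ∈ condRules T := by
  have hr0 : r ∈ (S.cg.cr.map CRule.toRule ++ S.cg.kr.map KRule.toRule :
    List (Rule T (Ctl ⊕ Cnt))) := hr
  rcases List.mem_append.1 hr0 with hr | hr
  · obtain ⟨r', hr', rfl⟩ := List.mem_map.1 hr
    simp only [Sys.cg, List.mem_append] at hr'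
    rcases hr' with hr' | hr'
    · simp only [fixedC, List.mem_cons, List.not_mem_nil, or_false] at hr'
      rw [condRules, List.mem_append, List.mem_map]
      left
      rcases hr' with rfl | rfl | rfl | rfl | rfl | rfl | rfl | rfl | rfl | rfl | rfl | rfl |
        rfl | rfl | rfl | rfl | rfl <;>
      first
        | (exfalso; simp [CRule.toRule, Cond.permW, Cond.forbW] at h; done)
        | (refine ⟨_, ?_, rfl⟩; simp)
    · rw [List.mem_map] at hr'
      obtain ⟨e, -, rfl⟩ := hr'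
      simp [Entry.rule, CRule.toRule, Cond.permW, Cond.forbW] at h
  · rw [condRules, List.mem_append]
    exact Or.inr hr

theorem ncard_le_length {α : Type} (s : Set α) (l : List α) (h : ∀ a ∈ s, a ∈ l) :
    s.ncard ≤ l.length := by
  classical
  have h1 : s ⊆ (l.toFinset : Set α) := fun a ha => Finset.mem_coe.2 (List.mem_toFinset.2 (h a ha))
  refine (Set.ncard_le_ncard h1 (Finset.finite_toSet _)).trans ?_
  rw [Set.ncard_coe_finset]
  exact List.toFinset_card_le _

theorem ncard_condRules {T : Type} (S : Sys T) :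
    {r ∈ (S.cg.toGrammar Ctl.st).rules | r.perm ≠ none ∨ r.forb ≠ none}.ncard ≤ 13 := by
  exact ncard_le_length (α := Rule T (Ctl ⊕ Cnt)) _ (condRules T)
    fun r hr => mem_condRules S r hr.1 hr.2

theorem card_symbols : Nat.card (Ctl ⊕ Cnt) = 18 := by
  rw [Nat.card_sum, Nat.card_eq_fintype_card, Nat.card_eq_fintype_card]
  rfl

theorem Cond.simple {T C K : Type} (c : Cond C K) :
    (c.permW : Option (List (T ⊕ (C ⊕ K)))) = none ∨
      (c.forbW : Option (List (T ⊕ (C ⊕ K)))) = none := by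
  cases c <;> simp [Cond.permW, Cond.forbW]

theorem Cond.degree {T C K : Type} (c : Cond C K) :
    (∀ α : List (T ⊕ (C ⊕ K)), c.permW = some α → α.length ≤ 1) ∧
      ∀ α : List (T ⊕ (C ⊕ K)), c.forbW = some α → α.length ≤ 1 := by
  cases c <;> simp [Cond.permW, Cond.forbW]

theorem simple_toGrammar {T C K : Type} [Finite C] [Finite K] (g : CG T C K) (q0 : C) :
    (g.toGrammar q0).Simple := by
  intro (r : Rule T (C ⊕ K)) hr
  have hr0 : r ∈ (g.cr.map CRule.toRule ++ g.kr.map KRule.toRule : List (Rule T (C ⊕ K))) := hr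
  rw [List.mem_append, List.mem_map, List.mem_map] at hr0
  rcases hr0 with ⟨r', -, rfl⟩ | ⟨r', -, rfl⟩
  · exact Cond.simple (T := T) r'.cond
  · exact Cond.simple (T := T) r'.cond

theorem degree_toGrammar {T C K : Type} [Finite C] [Finite K] (g : CG T C K) (q0 : C) :
    (g.toGrammar q0).Degree 1 1 := by
  intro (r : Rule T (C ⊕ K)) hr
  have hr0 : r ∈ (g.cr.map CRule.toRule ++ g.kr.map KRule.toRule : List (Rule T (C ⊕ K))) := hr
  rw [List.mem_append, List.mem_map, List.mem_map] at hr0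
  rcases hr0 with ⟨r', -, rfl⟩ | ⟨r', -, rfl⟩
  · exact Cond.degree (T := T) r'.cond
  · exact Cond.degree (T := T) r'.cond

/-- A program for many counters which generates the language. -/
theorem exists_prog (hD : S_DIO) (hE : S_EVL) (hC : S_CHK) (hR : S_CLR) (hP : S_PH1) (hG : S_GUE)
    (k : ℕ) (L : Set (List (Fin k))) (hL : REPred (fun w => w ∈ L)) :
    ∃ P : Prog (Instr (Fin k)), ∀ w, P.sem Instr.sem ([], 0) (w, 0) ↔ w ∈ L := by
  obtain ⟨n, e, hn, hB, h⟩ := hD k L hL
  obtain ⟨R1, ⟨P1, hP1⟩, h1⟩ := hP k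
  obtain ⟨P2, hP2⟩ := hG (Fin k) n
  obtain ⟨P3, hP3⟩ := hE (Fin k) n e hB n le_rfl
  obtain ⟨P4, hP4⟩ := hC (Fin k) n (n + 1) (by omega)
  obtain ⟨P5, hP5⟩ := hR (Fin k) n
  refine ⟨.seq P1 (.seq P2 (.seq P3 (.seq P4 P5))), fun w => ?_⟩
  simp only [Prog.sem, Relation.Comp]
  rw [h w]
  have low : ∀ (x : ℕ) (y : ℕ →₀ ℕ), (∀ i, y i ≠ 0 → 1 ≤ i ∧ i < n) →
      Finsupp.single 0 x + y ∈ Low n := by
    intro x y hy j hj
    have h1 : y j = 0 := by
      by_contra h2
      exact absurd (hy j h2).2 (by omega)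
    have h2 : (0 : ℕ) ≠ j := by omega
    simp [h1, h2]
  constructor
  · rintro ⟨c1, hc1, c2, hc2, c3, hc3, c4, hc4, hc5⟩
    rw [hP1, h1] at hc1
    obtain ⟨w1, rfl⟩ := hc1
    rw [hP2] at hc2
    obtain ⟨ha, y, hy, hb⟩ := hc2
    simp only at ha hb
    obtain ⟨u2, s2⟩ := c2
    simp only at ha hb
    have ha' : w1 = u2 := ha.symm
    subst ha' hb
    have hl := low (wcode w1) y hy
    rw [hP3 _ _ hl] at hc3
    subst hc3
    rw [hP4] at hc4
    obtain ⟨hq, rfl⟩ := hc4
    simp only at hq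
    have hn0 := hl n le_rfl
    have hn1 := hl (n + 1) (by omega)
    set s := Finsupp.single 0 (wcode w1) + y with hs
    have hq' : (e.pab s).1 = (e.pab s).2 := by
      simpa [Finsupp.single_apply, hn0, hn1] using hq
    rw [hP5 _ _ ?_] at hc5
    · have hw : w = w1 := by
        have := congrArg Prod.fst hc5
        simpa using this
      subst hw
      refine ⟨s, ?_, ?_⟩
      · have : y 0 = 0 := by
          by_contra h2
          exact absurd (hy 0 h2).1 (by omega)
        simp [hs, this]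
      · rw [Expr.eval_pab, hq', sub_self]
    · intro j hj
      have hj0 := hl j hj
      simp only [Finsupp.erase_apply, Finsupp.add_apply, hj0, Finsupp.single_apply]
      split_ifs <;> first | rfl | omega
  · rintro ⟨t, ht0, ht⟩
    let y : ℕ →₀ ℕ := Finsupp.onFinset (Finset.range n)
      (fun i => if 1 ≤ i ∧ i < n then t i else 0) (by
        intro i hi
        simp only [ne_eq, ite_eq_right_iff, Classical.not_imp] at hi
        exact Finset.mem_range.2 hi.1.2)
    have hy : ∀ i, y i ≠ 0 → 1 ≤ i ∧ i < n := by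
      intro i hi
      simp only [y, Finsupp.onFinset_apply, ne_eq, ite_eq_right_iff, Classical.not_imp] at hi
      exact hi.1
    have hl := low (wcode w) y hy
    set s := Finsupp.single 0 (wcode w) + y with hs
    have hst : ∀ i < n, s i = t i := by
      intro i hi
      rcases Nat.eq_zero_or_pos i with rfl | hi0
      · simp [hs, y, ht0]
      · have h2 : (0 : ℕ) ≠ i := by omega
        have h3 : 1 ≤ i ∧ i < n := ⟨hi0, hi⟩
        simp [hs, y, h2, h3]
    have hq : (e.pab s).1 = (e.pab s).2 := by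
      have h2 : e.eval s = 0 := by rw [Expr.eval_congr hst e hB, ht]
      rw [Expr.eval_pab] at h2
      omega
    have hn0 := hl n le_rfl
    have hn1 := hl (n + 1) (by omega)
    refine ⟨(w, Finsupp.single 0 (wcode w)), (hP1 _ _).2 ((h1 _).2 ⟨w, rfl⟩), (w, s),
      (hP2 _ _).2 ⟨rfl, y, hy, rfl⟩, _, (hP3 _ _ hl).2 rfl, _, (hP4 _ _).2 ⟨?_, rfl⟩,
      (hP5 _ _ ?_).2 rfl⟩
    · simpa [Finsupp.single_apply, hn0, hn1] using hq
    · intro j hj
      have hj0 := hl j hj
      simp only [Finsupp.erase_apply, Finsupp.add_apply, hj0, Finsupp.single_apply]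
      split_ifs <;> first | rfl | omega

/-- A system which generates the language. -/
theorem exists_sys (hD : S_DIO) (hE : S_EVL) (hC : S_CHK) (hR : S_CLR) (hP : S_PH1) (hG : S_GUE)
    (hI : S_SIM) (h2 : S_TO2) (h3 : S_TO3) (hT : S_THO) (hL : S_ELI) (hS : S_SYS)
    (k : ℕ) (L : Set (List (Fin k))) (h : REPred (fun w => w ∈ L)) :
    ∃ S : Sys (Fin k), S.lang = L := by
  obtain ⟨P, hP⟩ := exists_prog hD hE hC hR hP hG k L h
  obtain ⟨P2, hP2⟩ := hI (Instr (Fin k)) (Instr2 (Fin k)) (List (Fin k) × (ℕ →₀ ℕ))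
    (List (Fin k) × ℕ × ℕ) Instr.sem Instr2.sem (fun c => (c.1, god c.2, 0)) (h2 (Fin k)) P
  obtain ⟨P3, hP3⟩ := hI (Instr2 (Fin k)) (Instr3 (Fin k)) (List (Fin k) × ℕ × ℕ)
    (List (Fin k) × ℕ) Instr2.sem Instr3.sem num2 (h3 (Fin k))
    (.seq (.bas (.inc false)) (.seq P2 (.bas (.dec false))))
  have e1 : ∀ w, P3.sem Instr3.sem ([], 1) (w, 1) ↔ w ∈ L := by
    intro w
    rw [← hP w]
    have e2 := hP3 ([], 0, 0) (w, 1)
    have e3 : num2 (([], 0, 0) : List (Fin k) × ℕ × ℕ) = ([], 1) := by simp [num2]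
    rw [e3] at e2
    rw [e2]
    simp only [Prog.sem, Relation.Comp, Instr2.sem]
    have e4 := fun y => hP2 ([], 0) y
    simp only [god_zero] at e4
    constructor
    · rintro ⟨c', hc', d, rfl, d', hd', hd⟩
      rw [show (([] : List (Fin k)), 0 + 1, 0) = ([], 1, 0) from rfl, e4] at hd'
      obtain ⟨c'', rfl, hc''⟩ := hd'
      obtain ⟨u, a, b⟩ := c'
      simp only [num2, Prod.mk.injEq] at hc' hd
      obtain ⟨rfl, hab⟩ := hc'
      have ha : 2 ^ a = 1 := Nat.dvd_one.1 (Dvd.intro _ hab.symm)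
      have ha0 : a = 0 := by
        by_contra h0
        exact absurd ha (Nat.one_lt_pow h0 (by norm_num)).ne'
      subst ha0
      have h5 : c''.2 = 0 := god_eq_one (by simpa using hd.2.1)
      obtain ⟨u'', s''⟩ := c''
      simp only at h5 hd
      rw [h5, hd.1] at hc''
      exact hc''
    · intro hw
      refine ⟨(w, 0, 0), by simp [num2], _, rfl, (w, 1, 0), ?_, rfl⟩
      rw [show (([] : List (Fin k)), 0 + 1, 0) = ([], 1, 0) from rfl, e4]
      exact ⟨(w, 0), by simp [god_zero], hw⟩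
  obtain ⟨s, i, f, E, F, hi, hf, hE', hF', hA⟩ := hT _ _ Instr3.sem P3
  obtain ⟨E', G, hE'', hG'', hB⟩ := hL _ _ Instr3.sem s i f E F hi hf hE' hF'
  obtain ⟨S, hS'⟩ := hS (Fin k) s i E' G hi hE'' hG''
  refine ⟨S, Set.ext fun w => ?_⟩
  rw [hS' w, ← hB, hA, e1]

theorem t_MAIN (hCG : S_CG) (hSN : S_SND) (hCP : S_CPL) (hD : S_DIO) (hE : S_EVL) (hC : S_CHK)
    (hR : S_CLR) (hP : S_PH1) (hG : S_GUE) (hI : S_SIM) (h2 : S_TO2) (h3 : S_TO3) (hT : S_THO)
    (hL : S_ELI) (hS : S_SYS) (hRec : S_REC) : S_MAIN := by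
  intro k L
  constructor
  · intro h
    obtain ⟨S, rfl⟩ := exists_sys hD hE hC hR hP hG hI h2 h3 hT hL hS k L h
    refine ⟨S.cg.toGrammar .st, simple_toGrammar _ _, degree_toGrammar _ _, card_symbols.le,
      ncard_condRules S, Set.ext fun w => ?_⟩
    rw [hCG]
    exact ⟨hSN (Fin k) S w, hCP (Fin k) S w⟩
  · rintro ⟨G, -, hd, -, -, rfl⟩
    exact hRec k G hd

end Pool.Agent.UDG
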