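import Mathlib
import Pool.Agent.UDG.St

/-!
UDG_PH1: a program writes any word and its code into the counter 0 (module by helper39).
-/

set_option autoImplicit false

namespace Pool.Agent.UDG

open Relation

namespace PH1

/-- The choice of a letter. -/
def Ltr (k : ℕ) : Rel (Fin k) := fun c c' =>
  ∃ j ∈ List.finRange k, c' = (c.1 ++ [j], c.2 + ((j : ℕ) + 1) • Finsupp.single 0 1)

/-- The transfer of the counter `i`. -/
def Trf (k i : ℕ) (v : ℕ →₀ ℕ) : Rel (Fin k) := fun c c' =>
  c' = (c.1, c.2.erase i + c.2 i • v)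

/-- One round of the program. -/
def Rnd (k : ℕ) : Rel (Fin k) :=
  Relation.Comp (Trf k 0 ((k + 1) • Finsupp.single 1 1))
    (Relation.Comp (Trf k 1 (Finsupp.single 0 1)) (Ltr k))

theorem rnd_real (h : S_TRF) (k : ℕ) : Real (Rnd k) := by
  unfold Rnd Trf Ltr
  refine Real.seq (h (Fin k) 0 _ ?_) (Real.seq (h (Fin k) 1 _ ?_) ?_)
  · simp
  · simp
  · exact Real.listUnion (List.finRange k)
      (fun j c c' => c' = (c.1 ++ [j], c.2 + ((j : ℕ) + 1) • Finsupp.single 0 1))
      fun j _ => Real.add [j] (((j : ℕ) + 1) • Finsupp.single 0 1)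

theorem rnd_iff (k : ℕ) (w : List (Fin k)) (x : ℕ) (c' : List (Fin k) × (ℕ →₀ ℕ)) :
    Rnd k (w, Finsupp.single 0 x) c' ↔
      ∃ j : Fin k, c' = (w ++ [j], Finsupp.single 0 ((k + 1) * x + ((j : ℕ) + 1))) := by
  have e1 : (Finsupp.single 0 x : ℕ →₀ ℕ).erase 0 +
      (Finsupp.single 0 x : ℕ →₀ ℕ) 0 • ((k + 1) • Finsupp.single 1 1) =
      Finsupp.single 1 ((k + 1) * x) := by
    rw [Finsupp.erase_single, Finsupp.single_eq_same, zero_add, smul_smul, Finsupp.smul_single]
    congr 1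
    simp [mul_comm]
  have e2 : (Finsupp.single 1 ((k + 1) * x) : ℕ →₀ ℕ).erase 1 +
      (Finsupp.single 1 ((k + 1) * x) : ℕ →₀ ℕ) 1 • Finsupp.single 0 1 =
      Finsupp.single 0 ((k + 1) * x) := by
    rw [Finsupp.erase_single, Finsupp.single_eq_same, zero_add, Finsupp.smul_single]
    congr 1
    simp
  have e3 : ∀ j : Fin k, (Finsupp.single 0 ((k + 1) * x) : ℕ →₀ ℕ) +
      ((j : ℕ) + 1) • Finsupp.single 0 1 =
      Finsupp.single 0 ((k + 1) * x + ((j : ℕ) + 1)) := by
    intro j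
    rw [Finsupp.smul_single, ← Finsupp.single_add]
    simp
  constructor
  · rintro ⟨d, hd, d', hd', j, -, hj⟩
    subst hd
    subst hd'
    refine ⟨j, ?_⟩
    rw [hj]
    simp only
    rw [e1, e2, e3]
  · rintro ⟨j, rfl⟩
    refine ⟨(w, Finsupp.single 1 ((k + 1) * x)), ?_, (w, Finsupp.single 0 ((k + 1) * x)), ?_, j,
      List.mem_finRange j, ?_⟩
    · simp only [Trf]
      rw [e1]
    · simp only [Trf]
      rw [e2]
    · simp only
      rw [e3]

end PH1

open PH1 in
/-- **PH1**. -/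
theorem t_PH1 (h : S_TRF) : S_PH1 := by
  intro k
  refine ⟨ReflTransGen (Rnd k), (rnd_real h k).star, fun c' => ?_⟩
  constructor
  · intro hr
    induction hr with
    | refl => exact ⟨[], by simp [wcode]⟩
    | tail _ hb ih =>
      obtain ⟨w, rfl⟩ := ih
      obtain ⟨j, rfl⟩ := (rnd_iff k w _ _).1 hb
      exact ⟨w ++ [j], by simp [wcode, List.foldl_append]⟩
  · rintro ⟨w, rfl⟩
    induction w using List.reverseRecOn with
    | nil => simpa [wcode] using ReflTransGen.refl
    | append_singleton w j ih =>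
      refine ih.tail ?_
      rw [rnd_iff]
      exact ⟨j, by simp [wcode, List.foldl_append]⟩

end Pool.Agent.UDG
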