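import Mathlib
import Pool.Agent.UDG.St2

/-!
# The supplement on propagating grammars (helper26), from `S_MAIN` and `S_DEC`
-/

set_option autoImplicit false

namespace Pool.Agent.UDG

open Pool.Agent.SCG Relation

/-- **PRO**.  There is a language over one letter, without the empty word, which is generated by a simple
semi-conditional grammar of degree `(1,1)`, but by no propagating semi-conditional grammar of degree
`(1,1)`. -/
def S_PRO : Prop :=
  ∃ L : Set (List (Fin 1)), [] ∉ L ∧
    (∃ G : Grammar (Fin 1), G.Simple ∧ G.Degree 1 1 ∧ G.lang = L) ∧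
    ∀ G : Grammar (Fin 1), G.Propagating → G.Degree 1 1 → G.lang ≠ L

/-- An undecidable r.e. language over one letter without the empty word. -/
theorem exists_undecidable : ∃ L : Set (List (Fin 1)), [] ∉ L ∧ REPred (fun w => w ∈ L) ∧
    ¬ ComputablePred (fun w => w ∈ L) := by
  refine ⟨{w | (bif w.isEmpty then Part.none else
    Nat.Partrec.Code.eval (Denumerable.ofNat Nat.Partrec.Code (w.length - 1)) 0).Dom}, ?_, ?_, ?_⟩
  · simp
  · have h1 : Computable fun w : List (Fin 1) =>
        Denumerable.ofNat Nat.Partrec.Code (w.length - 1) :=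
      (Computable.ofNat Nat.Partrec.Code).comp
        (Primrec.pred.to_comp.comp Computable.list_length)
    have h2 : Partrec fun w : List (Fin 1) =>
        Nat.Partrec.Code.eval (Denumerable.ofNat Nat.Partrec.Code (w.length - 1)) 0 :=
      Nat.Partrec.Code.eval_part.comp h1 (Computable.const 0)
    have h3 : Computable fun w : List (Fin 1) => w.isEmpty := by
      have h4 : Primrec fun w : List (Fin 1) => decide (w.length = 0) :=
        ((Primrec.eq (α := ℕ)).comp Primrec.list_length (Primrec.const 0)).decide
      refine (h4.of_eq fun w => ?_).to_comp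
      cases w <;> simp
    exact (Partrec.cond h3 Partrec.none h2).dom_re
  · intro h
    obtain ⟨f, hf, hfp⟩ := ComputablePred.computable_iff.1 h
    refine ComputablePred.halting_problem 0 ?_
    have h1 : Computable fun c : Nat.Partrec.Code =>
        List.replicate (Encodable.encode c + 1) (0 : Fin 1) := by
      have h2 : Primrec fun c : Nat.Partrec.Code =>
          (List.range (Encodable.encode c + 1)).map fun _ => (0 : Fin 1) :=
        Primrec.list_map (Primrec.list_range.comp (Primrec.succ.comp Primrec.encode))
          (Primrec.const 0).to₂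
      refine (h2.of_eq fun c => ?_).to_comp
      simp
    refine ComputablePred.computable_iff.2 ⟨_, hf.comp h1, ?_⟩
    funext c
    have h3 := congrFun hfp (List.replicate (Encodable.encode c + 1) (0 : Fin 1))
    simp only [Set.mem_ofPred_eq, List.length_replicate, Nat.add_sub_cancel,
      Denumerable.ofNat_encode] at h3
    simpa using h3

theorem t_PRO (hD : S_DEC) (hM : S_MAIN) : S_PRO := by
  obtain ⟨L, h0, h1, h2⟩ := exists_undecidable
  obtain ⟨G, hs, hd, -, -, hG⟩ := (hM 1 L).1 h1
  refine ⟨L, h0, ⟨G, hs, hd, hG⟩, fun G' hp' hd' hG' => h2 ?_⟩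
  have h3 := hD 1 G' hd' hp'
  rw [hG'] at h3
  exact h3

end Pool.Agent.UDG
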