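import Mathlib
import Pool.Agent.UDG.St

/-!
# `t_SIM` for MP_84f0c5_lc: simulation of programs, by induction on the program
-/

set_option autoImplicit false

namespace Pool.Agent.UDG

open Relation

theorem t_SIM : S_SIM := by
  intro B₁ B₂ γ₁ γ₂ β₁ β₂ φ hb P₁
  induction P₁ with
  | bas b => exact hb b
  | seq P Q ihP ihQ =>
    obtain ⟨P', hP⟩ := ihP
    obtain ⟨Q', hQ⟩ := ihQ
    refine ⟨.seq P' Q', fun c y => ⟨?_, ?_⟩⟩
    · rintro ⟨z, h1, h2⟩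
      obtain ⟨c1, rfl, k1⟩ := (hP c z).1 h1
      obtain ⟨c2, rfl, k2⟩ := (hQ c1 y).1 h2
      exact ⟨c2, rfl, c1, k1, k2⟩
    · rintro ⟨c2, rfl, c1, h1, h2⟩
      exact ⟨φ c1, (hP c _).2 ⟨c1, rfl, h1⟩, (hQ c1 _).2 ⟨c2, rfl, h2⟩⟩
  | alt P Q ihP ihQ =>
    obtain ⟨P', hP⟩ := ihP
    obtain ⟨Q', hQ⟩ := ihQ
    refine ⟨.alt P' Q', fun c y => ⟨?_, ?_⟩⟩
    · rintro (h | h)
      · obtain ⟨c1, rfl, h1⟩ := (hP c y).1 h
        exact ⟨c1, rfl, Or.inl h1⟩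
      · obtain ⟨c1, rfl, h1⟩ := (hQ c y).1 h
        exact ⟨c1, rfl, Or.inr h1⟩
    · rintro ⟨c1, rfl, h | h⟩
      · exact Or.inl ((hP c _).2 ⟨c1, rfl, h⟩)
      · exact Or.inr ((hQ c _).2 ⟨c1, rfl, h⟩)
  | star P ihP =>
    obtain ⟨P', hP⟩ := ihP
    refine ⟨.star P', fun c y => ⟨?_, ?_⟩⟩
    · intro h
      have h' : ReflTransGen (P'.sem β₂) (φ c) y := h
      clear h
      induction h' with
      | refl => exact ⟨c, rfl, ReflTransGen.refl⟩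
      | tail _ h2 ih =>
        obtain ⟨c1, rfl, k1⟩ := ih
        obtain ⟨c2, rfl, k2⟩ := (hP c1 _).1 h2
        exact ⟨c2, rfl, ReflTransGen.tail k1 k2⟩
    · rintro ⟨c1, rfl, h⟩
      have h' : ReflTransGen (P.sem β₁) c c1 := h
      clear h
      show ReflTransGen (P'.sem β₂) (φ c) (φ c1)
      induction h' with
      | refl => exact ReflTransGen.refl
      | tail _ h2 ih => exact ReflTransGen.tail ih ((hP _ _).2 ⟨_, rfl, h2⟩)

end Pool.Agent.UDG
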