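import Pool.Agent.UDG.St

/-!
Soundness of the control grammar with 13 control symbols (`S_SND`).
-/

set_option autoImplicit false

namespace Pool.Agent.UDG

open Pool.Agent.SCG Relation

namespace SND

section

variable {T : Type}

/-- Reached in the system. -/
def Rch (S : Sys T) (u : List T) (n : ℕ) : Prop :=
  ReflTransGen S.Step (([] : List T), S.n0) (u, n)

/-- The data of a step which is simulated. -/
def Mid (S : Sys T) (u : List T) (n y w : ℕ) : Prop :=
  ∃ u₀ : List T, Rch S u₀ n ∧ S.Step (u₀, y) (u, w)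

/-- The loop for the multiplier `k`. -/
def Lp (S : Sys T) (u : List T) (k : Fin 3) (N Y W : ℕ) : Prop :=
  ∃ (u₀ : List T) (e : Entry T) (v : ℕ), Rch S u₀ N ∧ e ∈ S.tab ∧ e.kind = some k ∧
    u = u₀ ++ e.out ∧ Y = S.D * v + e.r ∧ W = S.a k * v + e.c

/-- The invariant. -/
def Inv (S : Sys T) (u : List T) (q : Option Ctl) (N Y W Z Z' : ℕ) : Prop :=
  Z' ≤ 1 ∧
  match q with
  | none => Rch S u N ∧ Y = 0 ∧ W = 0 ∧ Z = 0
  | some .st => u = [] ∧ N = 0 ∧ Y = 0 ∧ W = 0 ∧ Z = 0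
  | some .c0 => Rch S u N ∧ Y = 0 ∧ W = 0 ∧ Z = 0
  | some .p1 => Lp S u 0 N Y W ∧ Z = 0
  | some .p2 => Lp S u 1 N Y W ∧ Z = 0
  | some .p3 => Lp S u 2 N Y W ∧ Z = 0
  | some .c5 => ∃ n y w j, Mid S u n y w ∧ N + j = n ∧ Y + j = y ∧ W = w ∧ Z = 0
  | some .d0 => ∃ n y w j g t, Mid S u n y w ∧ N + j = n ∧ Y + Z + t + j = y ∧ Z' = g + t ∧ W = w
  | some .d1 => ∃ n y w j g t, Mid S u n y w ∧ N + j = n ∧ Y + Z + t + j = y ∧ Z' = g + t ∧
      W = w ∧ 1 ≤ Z + t
  | some .c6 => ∃ n y w j, Mid S u n y w ∧ N + j = n ∧ Y + j + 1 = y ∧ W = w ∧ Z = 0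
  | some .e0 => ∃ n y w j g t, Mid S u n y w ∧ N + Z + t + j = n ∧ Y + j + 1 = y ∧ Z' = g + t ∧
      W = w
  | some .e1 => ∃ n y w j g t, Mid S u n y w ∧ N + Z + t + j = n ∧ Y + j + 1 = y ∧ Z' = g + t ∧
      W = w ∧ 1 ≤ Z + t
  | some .c7 => ∃ n y w j, Mid S u n y w ∧ N + j = n ∧ j = y ∧ W = w ∧ Y = 0 ∧ Z = 0
  | some .c8 => ∃ n y w, Mid S u n y w ∧ n = y ∧ N + W = w ∧ Y = 0 ∧ Z = 0

theorem lp_mid {S : Sys T} {u : List T} {k : Fin 3} {N Y W : ℕ} (h : Lp S u k N Y W) :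
    Mid S u N Y W := by
  obtain ⟨u₀, e, v, hR, he, hk, hu, hY, hW⟩ := h
  refine ⟨u₀, hR, e, he, ?_, hu⟩
  unfold Sys.Moves
  rw [hk]
  exact ⟨v, hY, hW⟩

theorem lp_next {S : Sys T} {u : List T} {k : Fin 3} {N Y W : ℕ} (h : Lp S u k N Y W) :
    Lp S u k N (Y + S.D) (W + S.a k) := by
  obtain ⟨u₀, e, v, hR, he, hk, hu, hY, hW⟩ := h
  refine ⟨u₀, e, v + 1, hR, he, hk, hu, ?_, ?_⟩
  · rw [hY]; ring
  · rw [hW]; ring

theorem step_inv (S : Sys T) (c c' : List T × Option Ctl × (Cnt → ℕ)) (h : S.cg.Step c c')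
    (hI : Inv S c.1 c.2.1 (c.2.2 .N) (c.2.2 .Y) (c.2.2 .W) (c.2.2 .Z) (c.2.2 .Z')) :
    Inv S c'.1 c'.2.1 (c'.2.2 .N) (c'.2.2 .Y) (c'.2.2 .W) (c'.2.2 .Z) (c'.2.2 .Z') := by
  obtain ⟨u, q, m⟩ := c
  obtain ⟨u', q', m'⟩ := c'
  rcases h with ⟨r, hr, hq, hc, hu, hq', hm⟩ | ⟨r, hr, hx, hc, hu, hq', hm⟩
  · have hN := hm .N
    have hY := hm .Y
    have hW := hm .W
    have hZ := hm .Z
    have hZ' := hm .Z'
    clear hm
    simp only at hq hc hu hq' hN hY hW hZ hZ' hI ⊢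
    simp only [Sys.cg, List.mem_append, List.mem_map] at hr
    rcases hr with hr | ⟨e, he, rfl⟩
    · simp only [fixedC, List.mem_cons, List.not_mem_nil, or_false] at hr
      rcases hr with rfl | rfl | rfl | rfl | rfl | rfl | rfl | rfl | rfl | rfl | rfl | rfl | rfl |
        rfl | rfl | rfl | rfl
      all_goals
        subst hq
        simp only at hq'
        subst hq'
        subst hu
        simp [List.count_replicate, List.count_append] at hN hY hW hZ hZ'
        simp only [Cond.Holds] at hc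
        simp only [List.append_nil, hN, hY, hW, hZ, hZ']
      · -- st
        obtain ⟨h1, h2, h3, h4, h5, h6⟩ := hI
        refine ⟨h1, ?_, h4, h5, h6⟩
        rw [h2, h3, Nat.zero_add]
        exact ReflTransGen.refl
      · exact hI
      · exact ⟨hI.1, lp_next hI.2.1, hI.2.2⟩
      · exact ⟨hI.1, lp_next hI.2.1, hI.2.2⟩
      · exact ⟨hI.1, lp_next hI.2.1, hI.2.2⟩
      · exact ⟨hI.1, _, _, _, 0, lp_mid hI.2.1, rfl, rfl, rfl, hI.2.2⟩
      · exact ⟨hI.1, _, _, _, 0, lp_mid hI.2.1, rfl, rfl, rfl, hI.2.2⟩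
      · exact ⟨hI.1, _, _, _, 0, lp_mid hI.2.1, rfl, rfl, rfl, hI.2.2⟩
      · obtain ⟨h1, n, y, w, j, hM, h2, h3, h4, h5⟩ := hI
        exact ⟨h1, n, y, w, j, m .Z', 0, hM, h2, by omega, rfl, h4⟩
      · obtain ⟨h1, n, y, w, j, g, t, hM, h2, h3, h4, h5⟩ := hI
        exact ⟨h1, n, y, w, j, g, t, hM, h2, h3, h4, h5, by omega⟩
      · obtain ⟨h1, n, y, w, j, g, t, hM, h2, h3, h4, h5, h6⟩ := hI
        exact ⟨h1, n, y, w, j, hM, h2, by omega, h5, hc⟩
      · obtain ⟨h1, n, y, w, j, hM, h2, h3, h4, h5⟩ := hI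
        exact ⟨h1, n, y, w, j, m .Z', 0, hM, by omega, h3, rfl, h4⟩
      · obtain ⟨h1, n, y, w, j, g, t, hM, h2, h3, h4, h5⟩ := hI
        exact ⟨h1, n, y, w, j, g, t, hM, h2, h3, h4, h5, by omega⟩
      · obtain ⟨h1, n, y, w, j, g, t, hM, h2, h3, h4, h5, h6⟩ := hI
        exact ⟨h1, n, y, w, j + 1, hM, by omega, by omega, h5, hc⟩
      · obtain ⟨h1, n, y, w, j, hM, h2, h3, h4, h5⟩ := hI
        exact ⟨h1, n, y, w, j, hM, h2, by omega, h4, hc, h5⟩
      · obtain ⟨h1, n, y, w, j, hM, h2, h3, h4, h5, h6⟩ := hI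
        exact ⟨h1, n, y, w, hM, by omega, by omega, h5, h6⟩
      · obtain ⟨h1, n, y, w, ⟨u₀, hR, hS⟩, h2, h3, h4, h5⟩ := hI
        refine ⟨h1, ?_, h4, hc, h5⟩
        subst h2
        have hw : m .N = w := by omega
        rw [hw]
        exact hR.tail hS
    · subst hu
      simp only [Entry.rule] at hq hq' hc hN hY hW hZ hZ' ⊢
      subst hq
      subst hq'
      simp [List.count_replicate, List.count_append] at hN hY hW hZ hZ'
      simp only [hN, hY, hW, hZ, hZ']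
      obtain ⟨h1, h2, h3, h4, h5⟩ := hI
      rw [h3, h4, Nat.zero_add, Nat.zero_add]
      rcases hk : e.kind with _ | k
      · refine ⟨h1, m .N, e.r, e.c, 0, ⟨u, h2, e, he, ?_, rfl⟩, rfl, rfl, rfl, h5⟩
        unfold Sys.Moves
        rw [hk]
        exact ⟨rfl, rfl⟩
      · have hL : Lp S (u ++ e.out) k (m .N) e.r e.c :=
          ⟨u, e, 0, h2, he, hk, rfl, by simp, by simp⟩
        fin_cases k
        · exact ⟨h1, hL, h5⟩
        · exact ⟨h1, hL, h5⟩
        · exact ⟨h1, hL, h5⟩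
  · have hN := hm .N
    have hY := hm .Y
    have hW := hm .W
    have hZ := hm .Z
    have hZ' := hm .Z'
    clear hm
    simp only at hx hc hu hq' hN hY hW hZ hZ' hI ⊢
    simp only [Sys.cg, fixedK, List.mem_cons, List.not_mem_nil, or_false] at hr
    subst hu
    subst hq'
    rcases hr with rfl | rfl | rfl | rfl | rfl | rfl
    all_goals
      simp at hN hY hW hZ hZ'
      simp only [Cond.Holds] at hc
    · subst hc
      obtain ⟨h1, n, y, w, j, g, t, hM, h2, h3, h4, h5⟩ := hI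
      exact ⟨by omega, n, y, w, j, g, t, hM, by omega, by omega, by omega, by omega⟩
    · simp only at hx
      have e1 : m' .N = m .N := by omega
      have e2 : m' .Y = m .Y := by omega
      have e3 : m' .W = m .W := by omega
      have e4 : m' .Z' = 1 := by omega
      rcases q' with _ | q'
      · obtain ⟨h1, h2, h3, h4, h5⟩ := hI
        omega
      · cases q'
        · obtain ⟨h1, h2, h3, h4, h5⟩ := hI
          omega
        · obtain ⟨h1, h2, h3, h4, h5⟩ := hI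
          omega
        · obtain ⟨h1, h2, h3⟩ := hI
          omega
        · obtain ⟨h1, h2, h3⟩ := hI
          omega
        · obtain ⟨h1, h2, h3⟩ := hI
          omega
        · obtain ⟨h1, n, y, w, j, hM, h2, h3, h4, h5⟩ := hI
          omega
        · obtain ⟨h1, n, y, w, j, g, t, hM, h2, h3, h4, h5⟩ := hI
          exact ⟨by omega, n, y, w, j, g, t + 1, hM, by omega, by omega, by omega, by omega⟩
        · obtain ⟨h1, n, y, w, j, g, t, hM, h2, h3, h4, h5, h6⟩ := hI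
          exact ⟨by omega, n, y, w, j, g, t + 1, hM, by omega, by omega, by omega, by omega,
            by omega⟩
        · obtain ⟨h1, n, y, w, j, hM, h2, h3, h4, h5⟩ := hI
          omega
        · obtain ⟨h1, n, y, w, j, g, t, hM, h2, h3, h4, h5⟩ := hI
          exact ⟨by omega, n, y, w, j, g, t + 1, hM, by omega, by omega, by omega, by omega⟩
        · obtain ⟨h1, n, y, w, j, g, t, hM, h2, h3, h4, h5, h6⟩ := hI
          exact ⟨by omega, n, y, w, j, g, t + 1, hM, by omega, by omega, by omega, by omega,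
            by omega⟩
        · obtain ⟨h1, n, y, w, j, hM, h2, h3, h4, h5, h6⟩ := hI
          omega
        · obtain ⟨h1, n, y, w, hM, h2, h3, h4, h5⟩ := hI
          omega
    · subst hc
      obtain ⟨h1, n, y, w, j, hM, h2, h3, h4, h5⟩ := hI
      exact ⟨by omega, n, y, w, j, hM, by omega, by omega, by omega, by omega⟩
    · subst hc
      obtain ⟨h1, n, y, w, j, g, t, hM, h2, h3, h4, h5⟩ := hI
      exact ⟨by omega, n, y, w, j, g, t, hM, by omega, by omega, by omega, by omega⟩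
    · subst hc
      obtain ⟨h1, n, y, w, j, hM, h2, h3, h4, h5⟩ := hI
      exact ⟨by omega, n, y, w, j, hM, by omega, by omega, by omega, by omega⟩
    · subst hc
      obtain ⟨h1, n, y, w, hM, h2, h3, h4, h5⟩ := hI
      exact ⟨by omega, n, y, w, hM, by omega, by omega, by omega, by omega⟩

end

end SND

open SND in
theorem t_SND : S_SND := by
  intro T S w h
  have key : ∀ c : List T × Option Ctl × (Cnt → ℕ),
      ReflTransGen S.cg.Step ([], some .st, fun _ => 0) c →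
      Inv S c.1 c.2.1 (c.2.2 .N) (c.2.2 .Y) (c.2.2 .W) (c.2.2 .Z) (c.2.2 .Z') := by
    intro c hc
    induction hc with
    | refl => exact ⟨Nat.zero_le _, rfl, rfl, rfl, rfl, rfl⟩
    | tail _ hs ih => exact step_inv S _ _ hs ih
  exact (key _ h).2.1

end Pool.Agent.UDG
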