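import Mathlib
import Pool.Agent.UDG.St

/-!
# Module SYS of MP_84f0c5_lc (helper99): an automaton on one number gives a system
-/

set_option autoImplicit false

namespace Pool.Agent.UDG

open Relation

namespace SYSm

variable {T : Type}

/-- The entries of an edge `(q, I, q')` for the remainder `t`. -/
def ents (m q q' t : ℕ) : Instr3 T → List (Entry T)
  | .up u => [⟨u, some 0, m * t + (q + 1), 6 * m * t + (q' + 1)⟩]
  | .d2 => if t % 2 = 0 then [⟨[], some 1, m * t + (q + 1), m * (t / 2) + (q' + 1)⟩] else []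
  | .d3 => if t % 3 = 0 then [⟨[], some 2, m * t + (q + 1), m * (t / 3) + (q' + 1)⟩] else []
  | .t2 => if t % 2 = 0 then [] else [⟨[], some 0, m * t + (q + 1), 6 * m * t + (q' + 1)⟩]
  | .t3 => if t % 3 = 0 then [] else [⟨[], some 0, m * t + (q + 1), 6 * m * t + (q' + 1)⟩]

/-- The system of an automaton. -/
def sys (s i : ℕ) (E : List (ℕ × Instr3 T × ℕ)) (G : List ℕ) : Sys T where
  D := 6 * (s + 1)
  a := ![36 * (s + 1), 3 * (s + 1), 2 * (s + 1)]
  n0 := (s + 1) + (i + 1)
  tab := (E.flatMap fun e => (List.range 6).flatMap fun t => ents (s + 1) e.1 e.2.2 t e.2.1) ++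
    G.map fun q => ⟨[], none, (s + 1) + (q + 1), 0⟩

theorem code_inj {s q q₁ x x₁ : ℕ} (hq : q < s) (hq₁ : q₁ < s)
    (h : (s + 1) * x + (q + 1) = (s + 1) * x₁ + (q₁ + 1)) : x = x₁ ∧ q = q₁ := by
  have h1 := congrArg (fun n => n / (s + 1)) h
  simp only [Nat.mul_add_div (Nat.succ_pos s), Nat.div_eq_of_lt (show q + 1 < s + 1 by omega),
    Nat.div_eq_of_lt (show q₁ + 1 < s + 1 by omega), Nat.add_zero] at h1
  refine ⟨h1, ?_⟩
  subst h1
  omega

theorem code_inj' {s q q₁ x v t : ℕ} (hq : q < s) (hq₁ : q₁ < s)
    (h : (s + 1) * x + (q + 1) = 6 * (s + 1) * v + ((s + 1) * t + (q₁ + 1))) :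
    x = 6 * v + t ∧ q = q₁ := by
  refine code_inj (x₁ := 6 * v + t) hq hq₁ ?_
  rw [h]
  ring

/-- The steps of the system from a code. -/
theorem step_iff (s i : ℕ) (E : List (ℕ × Instr3 T × ℕ)) (G : List ℕ)
    (hE : ∀ e ∈ E, e.1 < s ∧ e.2.2 < s) (hG : ∀ q ∈ G, q < s) (q x : ℕ) (hq : q < s)
    (u : List T) (y : List T × ℕ) :
    (sys s i E G).Step (u, (s + 1) * x + (q + 1)) y ↔
      (∃ e ∈ E, e.1 = q ∧ ∃ x' : ℕ, Instr3.sem e.2.1 (u, x) (y.1, x') ∧
        y.2 = (s + 1) * x' + (e.2.2 + 1)) ∨
      (q ∈ G ∧ x = 1 ∧ y = (u, 0)) := by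
  constructor
  · rintro ⟨e, he, hm, hy⟩
    simp only [sys, List.mem_append, List.mem_flatMap, List.mem_range, List.mem_map] at he
    rcases he with ⟨e0, he0, t, ht, he⟩ | ⟨q₁, hq₁, rfl⟩
    · left
      refine ⟨e0, he0, ?_⟩
      obtain ⟨h1, h2⟩ := hE e0 he0
      obtain ⟨q₁, I, q₂⟩ := e0
      simp only at he h1 h2 ⊢
      cases I with
      | up w =>
        simp only [ents, List.mem_singleton] at he
        subst he
        obtain ⟨v, hv, hv'⟩ := hm
        obtain ⟨rfl, rfl⟩ := code_inj' hq h1 hv
        refine ⟨rfl, 6 * (6 * v + t), ⟨hy, rfl⟩, ?_⟩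
        rw [hv']
        simp only [sys, Matrix.cons_val_zero]
        ring
      | d2 =>
        simp only [ents] at he
        split_ifs at he with h0
        · simp only [List.mem_singleton] at he
          subst he
          obtain ⟨v, hv, hv'⟩ := hm
          obtain ⟨rfl, rfl⟩ := code_inj' hq h1 hv
          refine ⟨rfl, 3 * v + t / 2, ⟨by simpa using hy, ?_⟩, ?_⟩
          · show 6 * v + t = 2 * (3 * v + t / 2)
            omega
          · rw [hv']
            simp only [sys, Matrix.cons_val_one, Matrix.cons_val_zero]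
            ring
        · simp at he
      | d3 =>
        simp only [ents] at he
        split_ifs at he with h0
        · simp only [List.mem_singleton] at he
          subst he
          obtain ⟨v, hv, hv'⟩ := hm
          obtain ⟨rfl, rfl⟩ := code_inj' hq h1 hv
          refine ⟨rfl, 2 * v + t / 3, ⟨by simpa using hy, ?_⟩, ?_⟩
          · show 6 * v + t = 3 * (2 * v + t / 3)
            omega
          · rw [hv']
            simp only [sys, Matrix.cons_val]
            ring
        · simp at he
      | t2 =>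
        simp only [ents] at he
        split_ifs at he with h0
        · simp at he
        · simp only [List.mem_singleton] at he
          subst he
          obtain ⟨v, hv, hv'⟩ := hm
          obtain ⟨rfl, rfl⟩ := code_inj' hq h1 hv
          refine ⟨rfl, 6 * (6 * v + t), ⟨by simpa using hy, ?_, rfl⟩, ?_⟩
          · show ¬ 2 ∣ 6 * v + t
            omega
          · rw [hv']
            simp only [sys, Matrix.cons_val_zero]
            ring
      | t3 =>
        simp only [ents] at he
        split_ifs at he with h0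
        · simp at he
        · simp only [List.mem_singleton] at he
          subst he
          obtain ⟨v, hv, hv'⟩ := hm
          obtain ⟨rfl, rfl⟩ := code_inj' hq h1 hv
          refine ⟨rfl, 6 * (6 * v + t), ⟨by simpa using hy, ?_, rfl⟩, ?_⟩
          · show ¬ 3 ∣ 6 * v + t
            omega
          · rw [hv']
            simp only [sys, Matrix.cons_val_zero]
            ring
    · right
      obtain ⟨h1, h2⟩ := hm
      have h3 : (s + 1) * x + (q + 1) = (s + 1) * 1 + (q₁ + 1) := by
        simpa using h1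
      obtain ⟨rfl, rfl⟩ := code_inj hq (hG q₁ hq₁) h3
      exact ⟨hq₁, rfl, Prod.ext (by simpa using hy) h2⟩
  · rintro (⟨e0, he0, rfl, x', hs, hy⟩ | ⟨hqG, rfl, rfl⟩)
    · have key : ∀ en : Entry T, en ∈ ents (s + 1) e0.1 e0.2.2 (x % 6) e0.2.1 →
          (sys s i E G).Moves en ((s + 1) * x + (e0.1 + 1)) y.2 → y.1 = u ++ en.out →
          (sys s i E G).Step (u, (s + 1) * x + (e0.1 + 1)) y := by
        intro en hen hm ho
        refine ⟨en, ?_, hm, ho⟩
        simp only [sys, List.mem_append, List.mem_flatMap, List.mem_range, List.mem_map]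
        exact Or.inl ⟨e0, he0, x % 6, Nat.mod_lt _ (by norm_num), hen⟩
      have hx : x = 6 * (x / 6) + x % 6 := (Nat.div_add_mod x 6).symm
      have hc : (s + 1) * x + (e0.1 + 1) =
          6 * (s + 1) * (x / 6) + ((s + 1) * (x % 6) + (e0.1 + 1)) := by
        conv_lhs => rw [hx]
        ring
      obtain ⟨q₁, I, q₂⟩ := e0
      simp only at key hs hy hc hq ⊢
      cases I with
      | up w =>
        obtain ⟨h1, h2⟩ := hs
        simp only at h1 h2
        refine key _ (List.mem_singleton.2 rfl) ⟨x / 6, hc, ?_⟩ h1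
        rw [hy, h2]
        simp only [sys, Matrix.cons_val_zero]
        conv_lhs => rw [hx]
        ring
      | d2 =>
        obtain ⟨h1, h2⟩ := hs
        simp only at h1 h2
        have h0 : x % 6 % 2 = 0 := by omega
        refine key ⟨[], some 1, (s + 1) * (x % 6) + (q₁ + 1), (s + 1) * (x % 6 / 2) + (q₂ + 1)⟩
          (by simp only [ents]; rw [if_pos h0]; exact List.mem_singleton.2 rfl) ⟨x / 6, hc, ?_⟩ (by simpa using h1)
        rw [hy]
        have h3 : x' = 3 * (x / 6) + x % 6 / 2 := by omega
        simp only [sys, Matrix.cons_val_one, Matrix.cons_val_zero]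
        conv_lhs => rw [h3]
        ring
      | d3 =>
        obtain ⟨h1, h2⟩ := hs
        simp only at h1 h2
        have h0 : x % 6 % 3 = 0 := by omega
        refine key ⟨[], some 2, (s + 1) * (x % 6) + (q₁ + 1), (s + 1) * (x % 6 / 3) + (q₂ + 1)⟩
          (by simp only [ents]; rw [if_pos h0]; exact List.mem_singleton.2 rfl) ⟨x / 6, hc, ?_⟩ (by simpa using h1)
        rw [hy]
        have h3 : x' = 2 * (x / 6) + x % 6 / 3 := by omega
        simp only [sys, Matrix.cons_val]
        conv_lhs => rw [h3]
        ring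
      | t2 =>
        obtain ⟨h1, h2, h3⟩ := hs
        simp only at h1 h2 h3
        have h0 : ¬ x % 6 % 2 = 0 := by omega
        refine key ⟨[], some 0, (s + 1) * (x % 6) + (q₁ + 1), 6 * (s + 1) * (x % 6) + (q₂ + 1)⟩
          (by simp only [ents]; rw [if_neg h0]; exact List.mem_singleton.2 rfl) ⟨x / 6, hc, ?_⟩ (by simpa using h1)
        rw [hy, h3]
        simp only [sys, Matrix.cons_val_zero]
        conv_lhs => rw [hx]
        ring
      | t3 =>
        obtain ⟨h1, h2, h3⟩ := hs
        simp only at h1 h2 h3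
        have h0 : ¬ x % 6 % 3 = 0 := by omega
        refine key ⟨[], some 0, (s + 1) * (x % 6) + (q₁ + 1), 6 * (s + 1) * (x % 6) + (q₂ + 1)⟩
          (by simp only [ents]; rw [if_neg h0]; exact List.mem_singleton.2 rfl) ⟨x / 6, hc, ?_⟩ (by simpa using h1)
        rw [hy, h3]
        simp only [sys, Matrix.cons_val_zero]
        conv_lhs => rw [hx]
        ring
    · refine ⟨⟨[], none, (s + 1) + (q + 1), 0⟩, ?_, ⟨by simp, rfl⟩, by simp⟩
      simp only [sys, List.mem_append, List.mem_map]
      exact Or.inr ⟨q, hqG, rfl⟩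

theorem ents_pos (m q q' t : ℕ) (I : Instr3 T) (e : Entry T) (he : e ∈ ents m q q' t I) :
    1 ≤ e.r := by
  cases I <;> simp only [ents] at he
  · rw [List.mem_singleton] at he
    subst he
    exact Nat.le_add_left_of_le (Nat.le_add_left 1 q)
  all_goals
    split_ifs at he
    all_goals first
      | (exact absurd he List.not_mem_nil)
      | (rw [List.mem_singleton] at he
         subst he
         exact Nat.le_add_left_of_le (Nat.le_add_left 1 q))

/-- No step leads away from `0`. -/
theorem no_step (s i : ℕ) (E : List (ℕ × Instr3 T × ℕ)) (G : List ℕ) (u : List T)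
    (y : List T × ℕ) : ¬ (sys s i E G).Step (u, 0) y := by
  rintro ⟨e, he, hm, -⟩
  have hr : 1 ≤ e.r := by
    simp only [sys, List.mem_append, List.mem_flatMap, List.mem_range, List.mem_map] at he
    rcases he with ⟨e0, he0, t, ht, he⟩ | ⟨q₁, hq₁, rfl⟩
    · exact ents_pos _ _ _ _ _ _ he
    · show 1 ≤ (s + 1) + (q₁ + 1)
      omega
  unfold Sys.Moves at hm
  split at hm
  · obtain ⟨v, hv, -⟩ := hm
    simp only at hv
    omega
  · obtain ⟨hv, -⟩ := hm
    simp only at hv
    omega

end SYSm

open SYSm in
theorem t_SYS : S_SYS := by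
  intro T s i E G hi hE hG
  refine ⟨sys s i E G, fun w => ⟨fun hw => ?_, ?_⟩⟩
  · have inv : ∀ y : List T × ℕ, ReflTransGen (sys s i E G).Step ([], (sys s i E G).n0) y →
        (∃ q x : ℕ, q < s ∧ 1 ≤ x ∧ y.2 = (s + 1) * x + (q + 1) ∧
          ReflTransGen (AStep Instr3.sem E []) (i, (([] : List T), 1)) (q, (y.1, x))) ∨
        (y.2 = 0 ∧ ∃ q ∈ G,
          ReflTransGen (AStep Instr3.sem E []) (i, (([] : List T), 1)) (q, (y.1, 1))) := by
      intro y hy
      induction hy with
      | refl => exact Or.inl ⟨i, 1, hi, le_rfl, by simp [sys], .refl⟩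
      | @tail b c _ hbc ih =>
        obtain ⟨b1, b2⟩ := b
        rcases ih with ⟨q, x, hq, hx, hb, hr⟩ | ⟨hb, -⟩
        · simp only at hb hr
          subst hb
          rcases (step_iff s i E G hE hG q x hq b1 c).1 hbc with ⟨e, he, rfl, x', hs, hc⟩ |
            ⟨hqG, rfl, rfl⟩
          · left
            refine ⟨e.2.2, x', (hE e he).2, ?_, hc, hr.tail (Or.inl ⟨e, he, rfl, rfl, hs⟩)⟩
            obtain ⟨q₁, I, q₂⟩ := e
            cases I with
            | up w =>
              obtain ⟨-, h2⟩ := hs
              simp only at h2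
              omega
            | d2 =>
              obtain ⟨-, h2⟩ := hs
              simp only at h2
              omega
            | d3 =>
              obtain ⟨-, h2⟩ := hs
              simp only at h2
              omega
            | t2 =>
              obtain ⟨-, -, h2⟩ := hs
              simp only at h2
              omega
            | t3 =>
              obtain ⟨-, -, h2⟩ := hs
              simp only at h2
              omega
          · exact Or.inr ⟨rfl, q, hqG, hr⟩
        · simp only at hb
          subst hb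
          exact absurd hbc (no_step s i E G b1 c)
    rcases inv (w, 0) hw with ⟨q, x, -, -, h, -⟩ | ⟨-, h⟩
    · simp only at h
      omega
    · exact h
  · rintro ⟨q, hq, hr⟩
    have inv : ∀ y : ℕ × (List T × ℕ),
        ReflTransGen (AStep Instr3.sem E []) (i, (([] : List T), 1)) y → y.1 < s ∧
          ReflTransGen (sys s i E G).Step ([], (sys s i E G).n0)
            (y.2.1, (s + 1) * y.2.2 + (y.1 + 1)) := by
      intro y hy
      induction hy with
      | refl =>
        refine ⟨hi, ?_⟩
        have : (sys s i E G).n0 = (s + 1) * 1 + (i + 1) := by simp [sys]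
        rw [this]
      | @tail b c _ hbc ih =>
        obtain ⟨b1, b2, b3⟩ := b
        obtain ⟨c1, c2, c3⟩ := c
        rcases hbc with ⟨e, he, h1, h2, h3⟩ | ⟨h, -⟩
        · simp only at h1 h2 h3 ih ⊢
          subst h2
          refine ⟨(hE e he).2, ih.2.tail ?_⟩
          exact (step_iff s i E G hE hG b1 b3 ih.1 b2 _).2 (Or.inl ⟨e, he, h1, c3, h3, rfl⟩)
        · simp at h
    have h := (inv _ hr).2
    exact h.tail ((step_iff s i E G hE hG q 1 (hG q hq) w (w, 0)).2 (Or.inr ⟨hq, rfl, rfl⟩))

end Pool.Agent.UDG
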