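import Pool.Agent.UDG.St

/-!
The automaton of a program (module UDG_THO, helper78).
-/

set_option autoImplicit false

namespace Pool.Agent.UDG

open Pool.Agent.SCG Relation

namespace THO

variable {B γ : Type} {β : B → γ → γ → Prop}

/-- Shifted edges. -/
def shE (n : ℕ) (E : List (ℕ × B × ℕ)) : List (ℕ × B × ℕ) :=
  E.map fun e => (n + e.1, e.2.1, n + e.2.2)

/-- Shifted skip edges. -/
def shF (n : ℕ) (F : List (ℕ × ℕ)) : List (ℕ × ℕ) :=
  F.map fun e => (n + e.1, n + e.2)

theorem mono {E E' : List (ℕ × B × ℕ)} {F F' : List (ℕ × ℕ)} (hE : E ⊆ E') (hF : F ⊆ F')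
    {x y : ℕ × γ} (h : ReflTransGen (AStep β E F) x y) : ReflTransGen (AStep β E' F') x y := by
  refine ReflTransGen.mono ?_ _ _ h
  rintro a b (⟨e, he, h1⟩ | ⟨h1, h2⟩)
  · exact Or.inl ⟨e, hE he, h1⟩
  · exact Or.inr ⟨hF h1, h2⟩

theorem shift {n : ℕ} {E E' : List (ℕ × B × ℕ)} {F F' : List (ℕ × ℕ)} (hE : shE n E ⊆ E')
    (hF : shF n F ⊆ F') {x y : ℕ × γ} (h : ReflTransGen (AStep β E F) x y) :
    ReflTransGen (AStep β E' F') (n + x.1, x.2) (n + y.1, y.2) := by
  refine ReflTransGen.lift (fun x : ℕ × γ => (n + x.1, x.2)) ?_ _ _ h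
  rintro a b (⟨e, he, h1, h2, h3⟩ | ⟨h1, h2⟩)
  · exact Or.inl ⟨(n + e.1, e.2.1, n + e.2.2), hE (List.mem_map.2 ⟨e, he, rfl⟩),
      by simp [h1], by simp [h2], h3⟩
  · exact Or.inr ⟨hF (List.mem_map.2 ⟨_, h1, rfl⟩), h2⟩

theorem skip {E : List (ℕ × B × ℕ)} {F : List (ℕ × ℕ)} {x y : ℕ} (h : (x, y) ∈ F) (c : γ) :
    AStep β E F (x, c) (y, c) := Or.inr ⟨h, rfl⟩

/-- The statement for one program. -/
def Good (β : B → γ → γ → Prop) (R : γ → γ → Prop) : Prop :=
  ∃ (s i f : ℕ) (E : List (ℕ × B × ℕ)) (F : List (ℕ × ℕ)), i < s ∧ f < s ∧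
      (∀ e ∈ E, e.1 < s ∧ e.2.2 < s) ∧ (∀ e ∈ F, e.1 < s ∧ e.2 < s) ∧
      ∀ c c', ReflTransGen (AStep β E F) (i, c) (f, c') ↔ R c c'

theorem good_bas (b : B) : Good β (β b) := by
  refine ⟨2, 0, 1, [(0, b, 1)], [], by omega, by omega, by simp, by simp, fun c c' => ?_⟩
  constructor
  · intro h
    have : ∀ y : ℕ × γ, ReflTransGen (AStep β [(0, b, 1)] []) (0, c) y →
        y = (0, c) ∨ (y.1 = 1 ∧ β b c y.2) := by
      intro y hy
      induction hy with
      | refl => exact Or.inl rfl
      | tail _ hb ih =>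
        rcases hb with ⟨e, he, h1, h2, h3⟩ | ⟨h1, -⟩
        · simp only [List.mem_singleton] at he
          subst he
          simp only at h1 h2 h3
          rcases ih with rfl | ⟨h4, -⟩
          · exact Or.inr ⟨h2.symm, h3⟩
          · omega
        · simp at h1
    rcases this _ h with h1 | ⟨-, h1⟩
    · simp at h1
    · exact h1
  · intro h
    exact ReflTransGen.single (Or.inl ⟨(0, b, 1), by simp, rfl, rfl, h⟩)

theorem good_seq {R₁ R₂ : γ → γ → Prop} (h₁ : Good β R₁) (h₂ : Good β R₂) :
    Good β (Relation.Comp R₁ R₂) := by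
  obtain ⟨s₁, i₁, f₁, E₁, F₁, hi₁, hf₁, hE₁, hF₁, H₁⟩ := h₁
  obtain ⟨s₂, i₂, f₂, E₂, F₂, hi₂, hf₂, hE₂, hF₂, H₂⟩ := h₂
  set E := E₁ ++ shE s₁ E₂ with hE
  set F := F₁ ++ (shF s₁ F₂ ++ [(f₁, s₁ + i₂)]) with hF
  refine ⟨s₁ + s₂, i₁, s₁ + f₂, E, F, by omega, by omega, ?_, ?_, fun c c' => ?_⟩
  · intro e he
    rw [hE, List.mem_append, shE, List.mem_map] at he
    rcases he with he | ⟨e', he, rfl⟩
    · have := hE₁ e he
      exact ⟨by omega, by omega⟩
    · have := hE₂ e' he
      exact ⟨by simp only; omega, by simp only; omega⟩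
  · intro e he
    rw [hF, List.mem_append, List.mem_append, shF, List.mem_map, List.mem_singleton] at he
    rcases he with he | ⟨e', he, rfl⟩ | rfl
    · have := hF₁ e he
      exact ⟨by omega, by omega⟩
    · have := hF₂ e' he
      exact ⟨by simp only; omega, by simp only; omega⟩
    · exact ⟨by simp only; omega, by simp only; omega⟩
  constructor
  · intro h
    have key : ∀ y : ℕ × γ, ReflTransGen (AStep β E F) (i₁, c) y →
        (y.1 < s₁ ∧ ReflTransGen (AStep β E₁ F₁) (i₁, c) y) ∨
        ∃ (x : ℕ) (d : γ), y.1 = s₁ + x ∧ ReflTransGen (AStep β E₁ F₁) (i₁, c) (f₁, d) ∧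
          ReflTransGen (AStep β E₂ F₂) (i₂, d) (x, y.2) := by
      intro y hy
      induction hy with
      | refl => exact Or.inl ⟨hi₁, .refl⟩
      | @tail y z _ hb ih =>
        rcases hb with ⟨e, he, h1, h2, h3⟩ | ⟨h1, h2⟩
        · rw [hE, List.mem_append, shE, List.mem_map] at he
          rcases he with he | ⟨e', he, rfl⟩
          · have hs := hE₁ e he
            rcases ih with ⟨h4, h5⟩ | ⟨x, d, h4, -⟩
            · exact Or.inl ⟨by omega, h5.tail (Or.inl ⟨e, he, h1, h2, h3⟩)⟩
            · omega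
          · have hs := hE₂ e' he
            simp only at h1 h2 h3
            rcases ih with ⟨h4, h5⟩ | ⟨x, d, h4, h5, h6⟩
            · omega
            · exact Or.inr ⟨e'.2.2, d, h2.symm, h5,
                h6.tail (Or.inl ⟨e', he, by simp only; omega, rfl, h3⟩)⟩
        · rw [hF, List.mem_append, List.mem_append, shF, List.mem_map, List.mem_singleton] at h1
          rcases h1 with he | ⟨e', he, h1⟩ | h1
          · have hs := hF₁ _ he
            simp only at hs
            rcases ih with ⟨h4, h5⟩ | ⟨x, d, h4, -⟩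
            · exact Or.inl ⟨by omega, h5.tail (Or.inr ⟨he, h2⟩)⟩
            · omega
          · have hs := hF₂ _ he
            rw [Prod.mk.injEq] at h1
            rcases ih with ⟨h4, h5⟩ | ⟨x, d, h4, h5, h6⟩
            · omega
            · refine Or.inr ⟨e'.2, d, h1.2.symm, h5, ?_⟩
              refine h6.tail (Or.inr ⟨?_, h2⟩)
              have : x = e'.1 := by omega
              subst this
              exact he
          · rw [Prod.mk.injEq] at h1
            rcases ih with ⟨h4, h5⟩ | ⟨x, d, h4, h5, h6⟩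
            · refine Or.inr ⟨i₂, y.2, h1.2, ?_, ?_⟩
              · rw [← h1.1]
                exact h5
              · rw [h2]
            · omega
    rcases key _ h with ⟨h4, -⟩ | ⟨x, d, h4, h5, h6⟩
    · simp only at h4
      omega
    · simp only at h4 h6
      have : x = f₂ := by omega
      subst this
      exact ⟨d, (H₁ _ _).1 h5, (H₂ _ _).1 h6⟩
  · rintro ⟨d, h1, h2⟩
    have g1 := mono (E' := E) (F' := F) (by simp [hE]) (by simp [hF]) ((H₁ _ _).2 h1)
    have g2 := shift (n := s₁) (E' := E) (F' := F) (by simp [hE])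
      (fun e he => by rw [hF]; simp [he]) ((H₂ _ _).2 h2)
    have g3 : AStep β E F (f₁, d) (s₁ + i₂, d) := skip (by simp [hF]) d
    exact (g1.tail g3).trans g2

theorem good_alt {R₁ R₂ : γ → γ → Prop} (h₁ : Good β R₁) (h₂ : Good β R₂) :
    Good β (fun c c' => R₁ c c' ∨ R₂ c c') := by
  obtain ⟨s₁, i₁, f₁, E₁, F₁, hi₁, hf₁, hE₁, hF₁, H₁⟩ := h₁
  obtain ⟨s₂, i₂, f₂, E₂, F₂, hi₂, hf₂, hE₂, hF₂, H₂⟩ := h₂
  set E := E₁ ++ shE s₁ E₂ with hE
  set F := F₁ ++ (shF s₁ F₂ ++ [(s₁ + s₂, i₁), (s₁ + s₂, s₁ + i₂), (f₁, s₁ + s₂ + 1),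
    (s₁ + f₂, s₁ + s₂ + 1)]) with hF
  refine ⟨s₁ + s₂ + 2, s₁ + s₂, s₁ + s₂ + 1, E, F, by omega, by omega, ?_, ?_, fun c c' => ?_⟩
  · intro e he
    rw [hE, List.mem_append, shE, List.mem_map] at he
    rcases he with he | ⟨e', he, rfl⟩
    · have := hE₁ e he
      exact ⟨by omega, by omega⟩
    · have := hE₂ e' he
      exact ⟨by simp only; omega, by simp only; omega⟩
  · intro e he
    rw [hF, List.mem_append, List.mem_append, shF, List.mem_map] at he
    simp only [List.mem_cons, List.not_mem_nil, or_false] at he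
    rcases he with he | ⟨e', he, rfl⟩ | rfl | rfl | rfl | rfl
    · have := hF₁ e he
      exact ⟨by omega, by omega⟩
    · have := hF₂ e' he
      exact ⟨by simp only; omega, by simp only; omega⟩
    all_goals exact ⟨by simp only; omega, by simp only; omega⟩
  constructor
  · intro h
    have key : ∀ y : ℕ × γ, ReflTransGen (AStep β E F) (s₁ + s₂, c) y →
        (y = (s₁ + s₂, c)) ∨
        (y.1 < s₁ ∧ ReflTransGen (AStep β E₁ F₁) (i₁, c) y) ∨
        (∃ x : ℕ, x < s₂ ∧ y.1 = s₁ + x ∧ ReflTransGen (AStep β E₂ F₂) (i₂, c) (x, y.2)) ∨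
        (y.1 = s₁ + s₂ + 1 ∧ (R₁ c y.2 ∨ R₂ c y.2)) := by
      intro y hy
      induction hy with
      | refl => exact Or.inl rfl
      | @tail y z _ hb ih =>
        rcases hb with ⟨e, he, h1, h2, h3⟩ | ⟨h1, h2⟩
        · rw [hE, List.mem_append, shE, List.mem_map] at he
          rcases he with he | ⟨e', he, rfl⟩
          · have hs := hE₁ e he
            rcases ih with rfl | ⟨h4, h5⟩ | ⟨x, hx, h4, -⟩ | ⟨h4, -⟩
            · simp only at h1
              omega
            · exact Or.inr (Or.inl ⟨by omega, h5.tail (Or.inl ⟨e, he, h1, h2, h3⟩)⟩)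
            · omega
            · omega
          · have hs := hE₂ e' he
            simp only at h1 h2 h3
            rcases ih with rfl | ⟨h4, h5⟩ | ⟨x, hx, h4, h6⟩ | ⟨h4, -⟩
            · simp only at h1
              omega
            · omega
            · exact Or.inr (Or.inr (Or.inl ⟨e'.2.2, hs.2, h2.symm,
                h6.tail (Or.inl ⟨e', he, by simp only; omega, rfl, h3⟩)⟩))
            · omega
        · rw [hF, List.mem_append, List.mem_append, shF, List.mem_map] at h1
          simp only [List.mem_cons, List.not_mem_nil, or_false, Prod.mk.injEq] at h1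
          rcases h1 with he | ⟨e', he, h1⟩ | h1 | h1 | h1 | h1
          · have hs := hF₁ _ he
            simp only at hs
            rcases ih with rfl | ⟨h4, h5⟩ | ⟨x, hx, h4, -⟩ | ⟨h4, -⟩
            · simp only at hs
              omega
            · exact Or.inr (Or.inl ⟨by omega, h5.tail (Or.inr ⟨he, h2⟩)⟩)
            · omega
            · omega
          · have hs := hF₂ _ he
            rcases ih with rfl | ⟨h4, h5⟩ | ⟨x, hx, h4, h6⟩ | ⟨h4, -⟩
            · simp only at h1
              omega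
            · omega
            · refine Or.inr (Or.inr (Or.inl ⟨e'.2, hs.2, h1.2.symm, ?_⟩))
              refine h6.tail (Or.inr ⟨?_, h2⟩)
              have : x = e'.1 := by omega
              subst this
              exact he
            · omega
          · rcases ih with rfl | ⟨h4, h5⟩ | ⟨x, hx, h4, h6⟩ | ⟨h4, -⟩
            · refine Or.inr (Or.inl ⟨by omega, ?_⟩)
              have : z = (i₁, c) := Prod.ext h1.2 h2
              rw [this]
            · omega
            · omega
            · omega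
          · rcases ih with rfl | ⟨h4, h5⟩ | ⟨x, hx, h4, h6⟩ | ⟨h4, -⟩
            · refine Or.inr (Or.inr (Or.inl ⟨i₂, hi₂, h1.2, ?_⟩))
              rw [h2]
            · omega
            · omega
            · omega
          · rcases ih with rfl | ⟨h4, h5⟩ | ⟨x, hx, h4, h6⟩ | ⟨h4, -⟩
            · simp only at h1
              omega
            · refine Or.inr (Or.inr (Or.inr ⟨h1.2, Or.inl ?_⟩))
              rw [h2]
              refine (H₁ _ _).1 ?_
              rw [← h1.1]
              exact h5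
            · omega
            · omega
          · rcases ih with rfl | ⟨h4, h5⟩ | ⟨x, hx, h4, h6⟩ | ⟨h4, -⟩
            · simp only at h1
              omega
            · omega
            · refine Or.inr (Or.inr (Or.inr ⟨h1.2, Or.inr ?_⟩))
              rw [h2]
              refine (H₂ _ _).1 ?_
              have : x = f₂ := by omega
              rw [← this]
              exact h6
            · omega
    rcases key _ h with h4 | ⟨h4, -⟩ | ⟨x, hx, h4, -⟩ | ⟨-, h4⟩
    · rw [Prod.mk.injEq] at h4
      omega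
    · simp only at h4
      omega
    · simp only at h4
      omega
    · exact h4
  · rintro (h1 | h1)
    · have g1 := mono (E' := E) (F' := F) (by simp [hE]) (by simp [hF]) ((H₁ _ _).2 h1)
      have g2 : AStep β E F (s₁ + s₂, c) (i₁, c) := skip (by simp [hF]) c
      have g3 : AStep β E F (f₁, c') (s₁ + s₂ + 1, c') := skip (by simp [hF]) c'
      exact (g1.head g2).tail g3
    · have g1 := shift (n := s₁) (E' := E) (F' := F) (by simp [hE])
        (fun e he => by rw [hF]; simp [he]) ((H₂ _ _).2 h1)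
      have g2 : AStep β E F (s₁ + s₂, c) (s₁ + i₂, c) := skip (by simp [hF]) c
      have g3 : AStep β E F (s₁ + f₂, c') (s₁ + s₂ + 1, c') := skip (by simp [hF]) c'
      exact (g1.head g2).tail g3

theorem good_star {R₁ : γ → γ → Prop} (h₁ : Good β R₁) : Good β (ReflTransGen R₁) := by
  obtain ⟨s₁, i₁, f₁, E₁, F₁, hi₁, hf₁, hE₁, hF₁, H₁⟩ := h₁
  set F := F₁ ++ [(s₁, i₁), (f₁, s₁), (s₁, s₁ + 1)] with hF
  refine ⟨s₁ + 2, s₁, s₁ + 1, E₁, F, by omega, by omega, ?_, ?_, fun c c' => ?_⟩
  · intro e he
    have := hE₁ e he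
    exact ⟨by omega, by omega⟩
  · intro e he
    rw [hF, List.mem_append] at he
    simp only [List.mem_cons, List.not_mem_nil, or_false] at he
    rcases he with he | rfl | rfl | rfl
    · have := hF₁ e he
      exact ⟨by omega, by omega⟩
    all_goals exact ⟨by simp only; omega, by simp only; omega⟩
  constructor
  · intro h
    have key : ∀ y : ℕ × γ, ReflTransGen (AStep β E₁ F) (s₁, c) y →
        (y.1 < s₁ ∧ ∃ d, ReflTransGen R₁ c d ∧ ReflTransGen (AStep β E₁ F₁) (i₁, d) y) ∨
        (s₁ ≤ y.1 ∧ ReflTransGen R₁ c y.2) := by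
      intro y hy
      induction hy with
      | refl => exact Or.inr ⟨le_refl _, .refl⟩
      | @tail y z _ hb ih =>
        rcases hb with ⟨e, he, h1, h2, h3⟩ | ⟨h1, h2⟩
        · have hs := hE₁ e he
          rcases ih with ⟨h4, d, h5, h6⟩ | ⟨h4, h5⟩
          · exact Or.inl ⟨by omega, d, h5, h6.tail (Or.inl ⟨e, he, h1, h2, h3⟩)⟩
          · omega
        · rw [hF, List.mem_append] at h1
          simp only [List.mem_cons, List.not_mem_nil, or_false, Prod.mk.injEq] at h1
          rcases h1 with he | h1 | h1 | h1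
          · have hs := hF₁ _ he
            simp only at hs
            rcases ih with ⟨h4, d, h5, h6⟩ | ⟨h4, h5⟩
            · exact Or.inl ⟨by omega, d, h5, h6.tail (Or.inr ⟨he, h2⟩)⟩
            · omega
          · rcases ih with ⟨h4, d, h5, h6⟩ | ⟨h4, h5⟩
            · omega
            · refine Or.inl ⟨by omega, y.2, h5, ?_⟩
              have : z = (i₁, y.2) := Prod.ext h1.2 h2
              rw [this]
          · rcases ih with ⟨h4, d, h5, h6⟩ | ⟨h4, h5⟩
            · refine Or.inr ⟨by omega, ?_⟩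
              rw [h2]
              refine h5.tail ((H₁ _ _).1 ?_)
              rw [← h1.1]
              exact h6
            · omega
          · rcases ih with ⟨h4, d, h5, h6⟩ | ⟨h4, h5⟩
            · omega
            · refine Or.inr ⟨by omega, ?_⟩
              rw [h2]
              exact h5
    rcases key _ h with ⟨h4, -⟩ | ⟨-, h4⟩
    · simp only at h4
      omega
    · exact h4
  · intro h
    have key : ReflTransGen (AStep β E₁ F) (s₁, c) (s₁, c') := by
      induction h with
      | refl => exact .refl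
      | @tail d d' _ hb ih =>
        have g1 := mono (E' := E₁) (F' := F) (fun _ h => h) (by simp [hF]) ((H₁ _ _).2 hb)
        have g2 : AStep β E₁ F (s₁, d) (i₁, d) := skip (by simp [hF]) d
        have g3 : AStep β E₁ F (f₁, d') (s₁, d') := skip (by simp [hF]) d'
        exact ih.trans ((g1.head g2).tail g3)
    exact key.tail (skip (by simp [hF]) c')

end THO

open THO in
theorem t_THO : S_THO := by
  intro B γ β P
  change Good β (P.sem β)
  induction P with
  | bas b => exact good_bas b
  | seq P Q ih₁ ih₂ => exact good_seq ih₁ ih₂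
  | alt P Q ih₁ ih₂ => exact good_alt ih₁ ih₂
  | star P ih => exact good_star ih

end Pool.Agent.UDG
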