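import Mathlib
import Pool.Agent.UDG.St

/-!
Module TRF: transfer of a counter.
-/

set_option autoImplicit false

namespace Pool.Agent.UDG

open Relation

namespace TRF

variable {T : Type}

/-- One round of the loop. -/
def B (i : ℕ) (v : ℕ →₀ ℕ) : Rel T := fun c c' =>
  ∃ e : ℕ →₀ ℕ, c.2 = e + Finsupp.single i 1 ∧ c' = (c.1, e + v)

theorem real_B (i : ℕ) (v : ℕ →₀ ℕ) : Real (B (T := T) i v) :=
  ((Real.bas (.dec i)).seq (Real.add [] v)).congr fun c c' => by
    simp only [Relation.Comp, Instr.sem, B]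
    constructor
    · rintro ⟨d, ⟨h1, h2⟩, rfl⟩
      exact ⟨d.2, h2, by rw [List.append_nil, h1]⟩
    · rintro ⟨e, h1, rfl⟩
      exact ⟨(c.1, e), ⟨rfl, h1⟩, by rw [List.append_nil]⟩

/-- The result of the transfer. -/
noncomputable def tr (i : ℕ) (v : ℕ →₀ ℕ) (c : List T × (ℕ →₀ ℕ)) : List T × (ℕ →₀ ℕ) :=
  (c.1, c.2.erase i + c.2 i • v)

theorem tr_eq {i : ℕ} {v : ℕ →₀ ℕ} (hv : v i = 0) {c d : List T × (ℕ →₀ ℕ)} (h : B i v c d) :
    tr i v c = tr i v d := by
  obtain ⟨e, h1, rfl⟩ := h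
  have hev : v.erase i = v := by
    ext j
    by_cases hj : j = i
    · subst hj
      rw [Finsupp.erase_same, hv]
    · rw [Finsupp.erase_ne hj]
  simp only [tr, h1, Finsupp.erase_add, Finsupp.erase_single, Finsupp.add_apply,
    Finsupp.single_eq_same, add_zero, hev, hv, add_smul, one_smul]
  rw [add_assoc, add_comm v]

theorem tr_zero {i : ℕ} {v : ℕ →₀ ℕ} {c : List T × (ℕ →₀ ℕ)} (h : c.2 i = 0) : tr i v c = c := by
  have he : c.2.erase i = c.2 := by
    ext j
    by_cases hj : j = i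
    · subst hj
      rw [Finsupp.erase_same, h]
    · rw [Finsupp.erase_ne hj]
  simp only [tr, h, he, zero_smul, add_zero]

theorem forth {i : ℕ} {v : ℕ →₀ ℕ} (hv : v i = 0) {c c' : List T × (ℕ →₀ ℕ)}
    (h : ReflTransGen (B i v) c c') : tr i v c = tr i v c' := by
  induction h with
  | refl => rfl
  | tail _ hb ih => rw [ih, tr_eq hv hb]

theorem back {i : ℕ} {v : ℕ →₀ ℕ} (hv : v i = 0) :
    ∀ (k : ℕ) (c : List T × (ℕ →₀ ℕ)), c.2 i = k →
      ReflTransGen (B i v) c (tr i v c) := by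
  intro k
  induction k with
  | zero =>
    intro c hc
    rw [tr_zero hc]
  | succ k ih =>
    intro c hc
    have hle : Finsupp.single i 1 ≤ c.2 := by
      rw [Finsupp.single_le_iff]
      omega
    have hb : B i v c (c.1, c.2 - Finsupp.single i 1 + v) :=
      ⟨c.2 - Finsupp.single i 1, (tsub_add_cancel_of_le hle).symm, rfl⟩
    rw [tr_eq hv hb]
    refine .head hb (ih _ ?_)
    simp only [Finsupp.add_apply, Finsupp.tsub_apply, Finsupp.single_eq_same, hv, hc]
    omega

end TRF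

open TRF in
theorem t_TRF : S_TRF := by
  intro T i v hv
  refine ((real_B (T := T) i v).star.seq (Real.bas (.zer i))).congr fun c c' => ?_
  simp only [Relation.Comp, Instr.sem]
  constructor
  · rintro ⟨d, h1, rfl, h2⟩
    have h3 := forth hv h1
    rw [tr_zero h2] at h3
    exact h3.symm
  · intro h
    refine ⟨c', ?_, rfl, ?_⟩
    · rw [h]
      exact back hv _ c rfl
    · rw [h]
      simp [hv]

end Pool.Agent.UDG
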