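import Mathlib
import Pool.Agent.UDG.St

/-!
TO3 of project UDG (MP_84f0c5_lc): two counters by one number `2 ^ a * 3 ^ b`.
-/

set_option autoImplicit false

namespace Pool.Agent.UDG

open Relation

namespace TO3

variable {T : Type}

theorem up_iff (u w : List T) (a b : ℕ) (y : List T × ℕ) :
    (Instr3.up u).sem (w, 2 ^ a * 3 ^ b) y ↔ y = (w ++ u, 2 ^ (a + 1) * 3 ^ (b + 1)) := by
  simp only [Instr3.sem, Prod.ext_iff]
  have : 6 * (2 ^ a * 3 ^ b) = 2 ^ (a + 1) * 3 ^ (b + 1) := by ring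
  rw [this]

theorem two_pow (a b x : ℕ) (h : 2 ^ a * 3 ^ b = 2 * x) : ∃ a', a = a' + 1 ∧ x = 2 ^ a' * 3 ^ b := by
  cases a with
  | zero =>
    exfalso
    have h1 : 2 ∣ 3 ^ b := ⟨x, by simpa using h⟩
    have h2 := Nat.prime_two.dvd_of_dvd_pow h1
    omega
  | succ a =>
    refine ⟨a, rfl, ?_⟩
    have h1 : 2 * (2 ^ a * 3 ^ b) = 2 * x := by
      rw [← h]
      ring
    omega

theorem three_pow (a b x : ℕ) (h : 2 ^ a * 3 ^ b = 3 * x) :
    ∃ b', b = b' + 1 ∧ x = 2 ^ a * 3 ^ b' := by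
  cases b with
  | zero =>
    exfalso
    have h1 : 3 ∣ 2 ^ a := ⟨x, by simpa using h⟩
    have h2 := Nat.prime_three.dvd_of_dvd_pow h1
    omega
  | succ b =>
    refine ⟨b, rfl, ?_⟩
    have h1 : 3 * (2 ^ a * 3 ^ b) = 3 * x := by
      rw [← h]
      ring
    omega

theorem d2_iff (w : List T) (a b : ℕ) (y : List T × ℕ) :
    (Instr3.d2 : Instr3 T).sem (w, 2 ^ a * 3 ^ b) y ↔ ∃ a', a = a' + 1 ∧ y = (w, 2 ^ a' * 3 ^ b) := by
  obtain ⟨v, x⟩ := y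
  simp only [Instr3.sem, Prod.mk.injEq]
  constructor
  · rintro ⟨rfl, h⟩
    obtain ⟨a', h1, h2⟩ := two_pow a b x h
    exact ⟨a', h1, rfl, h2⟩
  · rintro ⟨a', rfl, rfl, rfl⟩
    exact ⟨rfl, by ring⟩

theorem d3_iff (w : List T) (a b : ℕ) (y : List T × ℕ) :
    (Instr3.d3 : Instr3 T).sem (w, 2 ^ a * 3 ^ b) y ↔ ∃ b', b = b' + 1 ∧ y = (w, 2 ^ a * 3 ^ b') := by
  obtain ⟨v, x⟩ := y
  simp only [Instr3.sem, Prod.mk.injEq]
  constructor
  · rintro ⟨rfl, h⟩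
    obtain ⟨b', h1, h2⟩ := three_pow a b x h
    exact ⟨b', h1, rfl, h2⟩
  · rintro ⟨b', rfl, rfl, rfl⟩
    exact ⟨rfl, by ring⟩

theorem two_ndvd (a b : ℕ) : ¬ 2 ∣ 2 ^ a * 3 ^ b ↔ a = 0 := by
  constructor
  · intro h
    by_contra ha
    exact h (Dvd.dvd.mul_right (dvd_pow_self 2 ha) _)
  · rintro rfl h
    have h2 := Nat.prime_two.dvd_of_dvd_pow (by simpa using h : 2 ∣ 3 ^ b)
    omega

theorem three_ndvd (a b : ℕ) : ¬ 3 ∣ 2 ^ a * 3 ^ b ↔ b = 0 := by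
  constructor
  · intro h
    by_contra hb
    exact h (Dvd.dvd.mul_left (dvd_pow_self 3 hb) _)
  · rintro rfl h
    have h2 := Nat.prime_three.dvd_of_dvd_pow (by simpa using h : 3 ∣ 2 ^ a)
    omega

theorem t2_iff (w : List T) (a b : ℕ) (y : List T × ℕ) :
    (Instr3.t2 : Instr3 T).sem (w, 2 ^ a * 3 ^ b) y ↔
      a = 0 ∧ y = (w, 2 ^ (a + 1) * 3 ^ (b + 1)) := by
  simp only [Instr3.sem, Prod.ext_iff, two_ndvd]
  have : 6 * (2 ^ a * 3 ^ b) = 2 ^ (a + 1) * 3 ^ (b + 1) := by ring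
  rw [this]
  tauto

theorem t3_iff (w : List T) (a b : ℕ) (y : List T × ℕ) :
    (Instr3.t3 : Instr3 T).sem (w, 2 ^ a * 3 ^ b) y ↔
      b = 0 ∧ y = (w, 2 ^ (a + 1) * 3 ^ (b + 1)) := by
  simp only [Instr3.sem, Prod.ext_iff, three_ndvd]
  have : 6 * (2 ^ a * 3 ^ b) = 2 ^ (a + 1) * 3 ^ (b + 1) := by ring
  rw [this]
  tauto

/-- division by 2 and then by 3 -/
def dd : Prog (Instr3 T) := .seq (.bas .d2) (.bas .d3)

theorem dd_iff (w : List T) (a b : ℕ) (y : List T × ℕ) :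
    (dd : Prog (Instr3 T)).sem Instr3.sem (w, 2 ^ (a + 1) * 3 ^ (b + 1)) y ↔
      y = (w, 2 ^ a * 3 ^ b) := by
  simp only [dd, Prog.sem, Relation.Comp, d2_iff]
  constructor
  · rintro ⟨z, ⟨a', h1, rfl⟩, h2⟩
    obtain ⟨b', h3, h4⟩ := (d3_iff _ _ _ _).1 h2
    obtain rfl : a = a' := by omega
    obtain rfl : b = b' := by omega
    exact h4
  · rintro rfl
    exact ⟨_, ⟨a, rfl, rfl⟩, (d3_iff _ _ _ _).2 ⟨b, rfl, rfl⟩⟩

end TO3

open TO3 in
theorem t_TO3 : S_TO3 := by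
  intro T I
  cases I with
  | out u =>
    refine ⟨.seq (.bas (.up u)) dd, ?_⟩
    rintro ⟨w, a, b⟩ y
    simp only [num2, Prog.sem, Relation.Comp, up_iff, Instr2.sem]
    constructor
    · rintro ⟨z, rfl, h⟩
      exact ⟨_, (dd_iff _ _ _ _).1 h, rfl⟩
    · rintro ⟨c', rfl, rfl⟩
      exact ⟨_, rfl, (dd_iff _ _ _ _).2 rfl⟩
  | inc k =>
    cases k with
    | false =>
      refine ⟨.seq (.bas (.up [])) (.bas .d3), ?_⟩
      rintro ⟨w, a, b⟩ y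
      simp only [num2, Prog.sem, Relation.Comp, up_iff, Instr2.sem]
      constructor
      · rintro ⟨z, rfl, h⟩
        obtain ⟨b', h1, h2⟩ := (d3_iff _ _ _ _).1 h
        obtain rfl : b = b' := by omega
        exact ⟨(w, a + 1, b), by simpa using h2, rfl⟩
      · rintro ⟨c', rfl, rfl⟩
        exact ⟨_, rfl, (d3_iff _ _ _ _).2 ⟨b, rfl, by simp⟩⟩
    | true =>
      refine ⟨.seq (.bas (.up [])) (.bas .d2), ?_⟩
      rintro ⟨w, a, b⟩ y
      simp only [num2, Prog.sem, Relation.Comp, up_iff, Instr2.sem]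
      constructor
      · rintro ⟨z, rfl, h⟩
        obtain ⟨a', h1, h2⟩ := (d2_iff _ _ _ _).1 h
        obtain rfl : a = a' := by omega
        exact ⟨(w, a, b + 1), by simpa using h2, rfl⟩
      · rintro ⟨c', rfl, rfl⟩
        exact ⟨_, rfl, (d2_iff _ _ _ _).2 ⟨a, rfl, by simp⟩⟩
  | dec k =>
    cases k with
    | false =>
      refine ⟨.bas .d2, ?_⟩
      rintro ⟨w, a, b⟩ y
      simp only [num2, Prog.sem, Instr2.sem, d2_iff]
      constructor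
      · rintro ⟨a', rfl, rfl⟩
        exact ⟨(w, a', b), rfl, rfl⟩
      · rintro ⟨⟨w', a', b'⟩, rfl, h⟩
        simp only [Prod.mk.injEq] at h
        obtain ⟨rfl, rfl, rfl⟩ := h
        exact ⟨a', rfl, rfl⟩
    | true =>
      refine ⟨.bas .d3, ?_⟩
      rintro ⟨w, a, b⟩ y
      simp only [num2, Prog.sem, Instr2.sem, d3_iff]
      constructor
      · rintro ⟨b', rfl, rfl⟩
        exact ⟨(w, a, b'), rfl, rfl⟩
      · rintro ⟨⟨w', a', b'⟩, rfl, h⟩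
        simp only [Prod.mk.injEq] at h
        obtain ⟨rfl, rfl, rfl⟩ := h
        exact ⟨b', rfl, rfl⟩
  | zer k =>
    cases k with
    | false =>
      refine ⟨.seq (.bas .t2) dd, ?_⟩
      rintro ⟨w, a, b⟩ y
      simp only [num2, Prog.sem, Relation.Comp, t2_iff, Instr2.sem]
      constructor
      · rintro ⟨z, ⟨h0, rfl⟩, h⟩
        exact ⟨(w, a, b), (dd_iff _ _ _ _).1 h, rfl, h0⟩
      · rintro ⟨c', rfl, rfl, h0⟩
        exact ⟨_, ⟨h0, rfl⟩, (dd_iff _ _ _ _).2 rfl⟩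
    | true =>
      refine ⟨.seq (.bas .t3) dd, ?_⟩
      rintro ⟨w, a, b⟩ y
      simp only [num2, Prog.sem, Relation.Comp, t3_iff, Instr2.sem]
      constructor
      · rintro ⟨z, ⟨h0, rfl⟩, h⟩
        exact ⟨(w, a, b), (dd_iff _ _ _ _).1 h, rfl, h0⟩
      · rintro ⟨c', rfl, rfl, h0⟩
        exact ⟨_, ⟨h0, rfl⟩, (dd_iff _ _ _ _).2 rfl⟩

end Pool.Agent.UDG
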