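import Pool.Agent.UDG.CHK
import Pool.Agent.UDG.MCG
import Pool.Agent.UDG.MCPL
import Pool.Agent.UDG.MCPY
import Pool.Agent.UDG.MDEC
import Pool.Agent.UDG.MDIO
import Pool.Agent.UDG.MELI
import Pool.Agent.UDG.MEVL
import Pool.Agent.UDG.MLOP
import Pool.Agent.UDG.MMAIN
import Pool.Agent.UDG.MPH1
import Pool.Agent.UDG.MREC
import Pool.Agent.UDG.MSIM
import Pool.Agent.UDG.MSND
import Pool.Agent.UDG.MSYS
import Pool.Agent.UDG.MTHO
import Pool.Agent.UDG.MTO2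
import Pool.Agent.UDG.MTRF
import Pool.Agent.UDG.MPRO
import Pool.Agent.UDG.TO3

/-!
# The closure of the project (helper26)
-/

set_option autoImplicit false

namespace Pool.Agent.UDG

theorem all_MAIN : S_MAIN :=
  t_MAIN t_CG t_SND t_CPL t_DIO (t_EVL t_TRF (t_CPY t_TRF) t_LOP) t_CHK (t_CLR t_TRF) (t_PH1 t_TRF)
    t_GUE t_SIM t_TO2 t_TO3 t_THO t_ELI t_SYS t_REC

theorem all_PRO : S_PRO := t_PRO t_DEC all_MAIN

end Pool.Agent.UDG
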