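import Mathlib
import Pool.Agent.UDG.St

/-!
# UDG: modules CHK and GUE
-/

set_option autoImplicit false

namespace Pool.Agent.UDG

open Relation

section

variable {T : Type}

/-- The loop of `CHK`. -/
theorem chk_star (i j : ℕ) (c d : List T × (ℕ →₀ ℕ)) :
    ReflTransGen (Relation.Comp (Instr.sem (T := T) (.dec i)) (Instr.sem (.dec j))) c d ↔
      d.1 = c.1 ∧ ∃ n : ℕ, c.2 = d.2 + Finsupp.single i n + Finsupp.single j n := by
  have key : ∀ c d : List T × (ℕ →₀ ℕ),
      Relation.Comp (Instr.sem (T := T) (.dec i)) (Instr.sem (.dec j)) c d ↔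
        d.1 = c.1 ∧ c.2 = d.2 + Finsupp.single i 1 + Finsupp.single j 1 := by
    intro c d
    constructor
    · rintro ⟨e, ⟨h1, h2⟩, h3, h4⟩
      refine ⟨h3.trans h1, ?_⟩
      rw [h2, h4]
      abel
    · rintro ⟨h1, h2⟩
      refine ⟨(d.1, d.2 + Finsupp.single j 1), ⟨h1, ?_⟩, rfl, rfl⟩
      rw [h2]
      change d.2 + Finsupp.single i 1 + Finsupp.single j 1 =
        d.2 + Finsupp.single j 1 + Finsupp.single i 1
      abel
  constructor
  · intro h
    induction h with
    | refl => exact ⟨rfl, 0, by simp⟩
    | tail _ hb ih =>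
      obtain ⟨h1, n, h2⟩ := ih
      obtain ⟨h3, h4⟩ := (key _ _).1 hb
      refine ⟨h3.trans h1, n + 1, ?_⟩
      rw [h2, h4, Finsupp.single_add, Finsupp.single_add]
      abel
  · rintro ⟨h1, n, h2⟩
    induction n generalizing c with
    | zero =>
      have : c = d := Prod.ext h1.symm (by simpa using h2)
      rw [this]
    | succ n ih =>
      refine ReflTransGen.head (b := (c.1, d.2 + Finsupp.single i n + Finsupp.single j n)) ?_
        (ih _ h1 rfl)
      rw [key]
      refine ⟨rfl, ?_⟩
      rw [h2, Finsupp.single_add, Finsupp.single_add]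
      change d.2 + (Finsupp.single i n + Finsupp.single i 1) +
        (Finsupp.single j n + Finsupp.single j 1) = d.2 + Finsupp.single i n +
        Finsupp.single j n + Finsupp.single i 1 + Finsupp.single j 1
      abel

/-- The loop of `GUE`. -/
theorem gue_star (n : ℕ) (c d : List T × (ℕ →₀ ℕ)) :
    ReflTransGen (fun c c' : List T × (ℕ →₀ ℕ) => c' = (c.1 ++ [], c.2 + Finsupp.single n 1)) c d ↔
      d.1 = c.1 ∧ ∃ k : ℕ, d.2 = c.2 + Finsupp.single n k := by
  constructor
  · intro h
    induction h with
    | refl => exact ⟨rfl, 0, by simp⟩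
    | tail _ hb ih =>
      obtain ⟨h1, k, h2⟩ := ih
      refine ⟨by rw [hb, ← h1]; simp, k + 1, ?_⟩
      rw [hb, Finsupp.single_add]
      change _ + Finsupp.single n 1 = _
      rw [h2]
      abel
  · rintro ⟨h1, k, h2⟩
    induction k generalizing d with
    | zero =>
      have : d = c := Prod.ext h1 (by simpa using h2)
      rw [this]
    | succ k ih =>
      refine (ih (c.1, c.2 + Finsupp.single n k) rfl rfl).tail ?_
      refine Prod.ext (by simpa using h1) ?_
      rw [h2, Finsupp.single_add]
      change _ = c.2 + Finsupp.single n k + Finsupp.single n 1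
      abel

end

theorem t_CHK : S_CHK := by
  intro T i j hij
  have h := (((Real.bas (T := T) (.dec i)).seq (Real.bas (.dec j))).star.seq
    ((Real.bas (.zer i)).seq (Real.bas (.zer j))))
  refine h.congr fun c c' => ?_
  constructor
  · rintro ⟨d, h1, e, ⟨h2, h3⟩, h4, h5⟩
    rw [chk_star] at h1
    obtain ⟨h6, n, h7⟩ := h1
    subst h2
    subst h4
    have hi : c.2 i = n := by
      rw [h7]; simp [h3, hij]
    have hj : c.2 j = n := by
      rw [h7]; simp [h5, hij.symm]
    refine ⟨hi.trans hj.symm, Prod.ext h6 ?_⟩
    change c'.2 = (c.2.erase i).erase j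
    ext x
    by_cases hx : x = j
    · subst hx
      rw [Finsupp.erase_same]; exact h5
    · rw [Finsupp.erase_ne hx]
      by_cases hx' : x = i
      · subst hx'
        rw [Finsupp.erase_same]; exact h3
      · rw [Finsupp.erase_ne hx', h7]
        simp [Finsupp.single_apply, Ne.symm hx, Ne.symm hx']
  · rintro ⟨h1, rfl⟩
    refine ⟨(c.1, (c.2.erase i).erase j), ?_, _, ⟨rfl, ?_⟩, rfl, ?_⟩
    · rw [chk_star]
      refine ⟨rfl, c.2 i, ?_⟩
      ext x
      change c.2 x = ((c.2.erase i).erase j + Finsupp.single i (c.2 i) +
        Finsupp.single j (c.2 i)) x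
      rw [Finsupp.add_apply, Finsupp.add_apply]
      by_cases hx : x = j
      · subst hx
        rw [Finsupp.erase_same]
        simp [hij, h1]
      · rw [Finsupp.erase_ne hx]
        by_cases hx' : x = i
        · subst hx'
          rw [Finsupp.erase_same]
          simp [Ne.symm hx]
        · rw [Finsupp.erase_ne hx']
          simp [Finsupp.single_apply, Ne.symm hx, Ne.symm hx']
    · change ((c.2.erase i).erase j) i = 0
      rw [Finsupp.erase_ne hij, Finsupp.erase_same]
    · change ((c.2.erase i).erase j) j = 0
      rw [Finsupp.erase_same]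

theorem t_GUE : S_GUE := by
  intro T n
  induction n with
  | zero =>
    refine Real.skip.congr fun c c' => ?_
    constructor
    · rintro rfl
      exact ⟨rfl, 0, by simp, by simp⟩
    · rintro ⟨h1, y, h2, h3⟩
      have : y = 0 := by
        ext i
        by_contra h
        have := h2 i h
        omega
      subst this
      exact Prod.ext h1 (by simpa using h3)
  | succ n ih =>
    rcases Nat.eq_zero_or_pos n with rfl | hn
    · refine ih.congr fun c c' => ?_
      constructor
      · rintro ⟨h1, y, h2, h3⟩
        exact ⟨h1, y, fun i hi => by have := h2 i hi; omega, h3⟩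
      · rintro ⟨h1, y, h2, h3⟩
        exact ⟨h1, y, fun i hi => by have := h2 i hi; omega, h3⟩
    · refine (ih.seq (Real.add (T := T) [] (Finsupp.single n 1)).star).congr fun c c' => ?_
      constructor
      · rintro ⟨d, ⟨h1, y, h2, h3⟩, h4⟩
        rw [gue_star] at h4
        obtain ⟨h5, k, h6⟩ := h4
        refine ⟨h5.trans h1, y + Finsupp.single n k, ?_, ?_⟩
        · intro i hi
          by_cases hin : i = n
          · omega
          · rw [Finsupp.add_apply, Finsupp.single_eq_of_ne hin, add_zero] at hi
            have := h2 i hi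
            omega
        · rw [h6, h3, add_assoc]
      · rintro ⟨h1, y, h2, h3⟩
        refine ⟨(c.1, c.2 + y.erase n), ⟨rfl, y.erase n, ?_, rfl⟩, ?_⟩
        · intro i hi
          have hin : i ≠ n := by
            rintro rfl
            exact hi Finsupp.erase_same
          rw [Finsupp.erase_ne hin] at hi
          have := h2 i hi
          omega
        · rw [gue_star]
          refine ⟨h1, y n, ?_⟩
          rw [h3]
          change c.2 + y = c.2 + y.erase n + Finsupp.single n (y n)
          rw [add_assoc, Finsupp.erase_add_single]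

end Pool.Agent.UDG
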