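import Mathlib
import Pool.Agent.UDG.St

/-!
# TO2: many counters by two counters (Gödel numbers)
-/

set_option autoImplicit false

namespace Pool.Agent.UDG

open Relation

namespace TO2

variable {T : Type}

/-- `R` is the relation of a program for two counters. -/
def Real2 (R : List T × ℕ × ℕ → List T × ℕ × ℕ → Prop) : Prop :=
  ∃ P : Prog (Instr2 T), ∀ c c', P.sem Instr2.sem c c' ↔ R c c'

theorem Real2.congr {R R' : List T × ℕ × ℕ → List T × ℕ × ℕ → Prop} (h : Real2 R)
    (e : ∀ c c', R c c' ↔ R' c c') : Real2 R' := by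
  obtain ⟨P, hP⟩ := h
  exact ⟨P, fun c c' => (hP c c').trans (e c c')⟩

theorem Real2.bas (I : Instr2 T) : Real2 I.sem := ⟨.bas I, fun _ _ => Iff.rfl⟩

theorem Real2.seq {R R' : List T × ℕ × ℕ → List T × ℕ × ℕ → Prop} (h : Real2 R)
    (h' : Real2 R') : Real2 (Relation.Comp R R') := by
  obtain ⟨P, hP⟩ := h
  obtain ⟨Q, hQ⟩ := h'
  refine ⟨.seq P Q, fun c c' => ?_⟩
  simp only [Prog.sem, Relation.Comp, hP, hQ]

theorem Real2.alt {R R' : List T × ℕ × ℕ → List T × ℕ × ℕ → Prop} (h : Real2 R)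
    (h' : Real2 R') : Real2 fun c c' => R c c' ∨ R' c c' := by
  obtain ⟨P, hP⟩ := h
  obtain ⟨Q, hQ⟩ := h'
  refine ⟨.alt P Q, fun c c' => ?_⟩
  simp only [Prog.sem, hP, hQ]

theorem Real2.star {R : List T × ℕ × ℕ → List T × ℕ × ℕ → Prop} (h : Real2 R) :
    Real2 (ReflTransGen R) := by
  obtain ⟨P, hP⟩ := h
  refine ⟨.star P, fun c c' => ?_⟩
  have : P.sem Instr2.sem = R := by
    funext c c'
    exact propext (hP c c')
  simp only [Prog.sem, this]

/-- The identity. -/
theorem Real2.skip : Real2 fun c c' : List T × ℕ × ℕ => c' = c :=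
  (Real2.bas (.out [])).congr fun c c' => by
    simp only [Instr2.sem, List.append_nil]

/-- The empty relation. -/
theorem Real2.fail : Real2 fun _ _ : List T × ℕ × ℕ => False :=
  ((Real2.bas (.inc false)).seq (Real2.bas (.zer false))).congr fun c c' => by
    simp only [Relation.Comp, Instr2.sem, iff_false]
    rintro ⟨d, rfl, -, h⟩
    simp at h

/-- A finite union of relations. -/
theorem Real2.listUnion {ι : Type} (l : List ι)
    (R : ι → List T × ℕ × ℕ → List T × ℕ × ℕ → Prop) (h : ∀ i ∈ l, Real2 (R i)) :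
    Real2 fun c c' => ∃ i ∈ l, R i c c' := by
  induction l with
  | nil => exact Real2.fail.congr fun c c' => by simp
  | cons a l ih =>
    have h1 := ih fun i hi => h i (List.mem_cons_of_mem _ hi)
    exact ((h a List.mem_cons_self).alt h1).congr fun c c' => by simp

/-- Add `p` to the first counter. -/
theorem Real2.inc0 (p : ℕ) :
    Real2 fun c c' : List T × ℕ × ℕ => c' = (c.1, c.2.1 + p, c.2.2) := by
  induction p with
  | zero => exact Real2.skip
  | succ p ih =>
    refine (ih.seq (Real2.bas (.inc false))).congr fun c c' => ?_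
    simp only [Relation.Comp, Instr2.sem]
    constructor
    · rintro ⟨d, rfl, rfl⟩
      rfl
    · rintro rfl
      exact ⟨_, rfl, rfl⟩

/-- Add `p` to the second counter. -/
theorem Real2.inc1 (p : ℕ) :
    Real2 fun c c' : List T × ℕ × ℕ => c' = (c.1, c.2.1, c.2.2 + p) := by
  induction p with
  | zero => exact Real2.skip
  | succ p ih =>
    refine (ih.seq (Real2.bas (.inc true))).congr fun c c' => ?_
    simp only [Relation.Comp, Instr2.sem]
    constructor
    · rintro ⟨d, rfl, rfl⟩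
      rfl
    · rintro rfl
      exact ⟨_, rfl, rfl⟩

/-- Subtract `p` from the first counter. -/
theorem Real2.dec0 (p : ℕ) :
    Real2 fun c c' : List T × ℕ × ℕ => c = (c'.1, c'.2.1 + p, c'.2.2) := by
  induction p with
  | zero => exact Real2.skip.congr fun c c' => ⟨fun h => h.symm, fun h => h.symm⟩
  | succ p ih =>
    refine ((Real2.bas (.dec false)).seq ih).congr fun c c' => ?_
    simp only [Relation.Comp, Instr2.sem]
    constructor
    · rintro ⟨d, rfl, rfl⟩
      rfl
    · rintro rfl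
      exact ⟨_, rfl, rfl⟩

/-- The first loop: `j` rounds of `dec₀^p; inc₁^q`. -/
theorem Real2.loop0 (p q : ℕ) :
    Real2 fun c c' : List T × ℕ × ℕ =>
      ∃ j, c.2.1 = c'.2.1 + j * p ∧ c' = (c.1, c'.2.1, c.2.2 + j * q) := by
  refine (((Real2.dec0 p).seq (Real2.inc1 q)).star).congr fun c c' => ?_
  constructor
  · intro h
    induction h with
    | refl => exact ⟨0, by simp⟩
    | tail _ hs ih =>
      obtain ⟨j, h1, h2⟩ := ih
      obtain ⟨e, h3, h4⟩ := hs
      refine ⟨j + 1, ?_, ?_⟩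
      · rw [h4, h1, h3]
        simp only
        ring
      · rw [h4, h2] at *
        rw [Prod.ext_iff, Prod.ext_iff] at h3
        obtain ⟨h31, h32, h33⟩ := h3
        simp only at h31 h32 h33 ⊢
        rw [← h31, ← h33]
        refine Prod.ext rfl (Prod.ext rfl ?_)
        simp only
        ring
  · rintro ⟨j, h1, h2⟩
    obtain ⟨u, x, y⟩ := c
    obtain ⟨u', x', y'⟩ := c'
    simp only [Prod.mk.injEq] at h1 h2
    obtain ⟨rfl, -, rfl⟩ := h2
    subst h1
    induction j generalizing y with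
    | zero => simp only [Nat.zero_mul, Nat.add_zero]; exact .refl
    | succ j ih =>
      refine ReflTransGen.head ⟨(u', x' + j * p, y), ?_, rfl⟩ ?_
      · refine Prod.ext rfl (Prod.ext ?_ rfl)
        simp only
        ring
      · have h := ih (y + q)
        have e : y + q + j * q = y + (j + 1) * q := by ring
        rw [e] at h
        exact h

/-- Subtract 1 from the second counter. -/
theorem Real2.dec1 : Real2 fun c c' : List T × ℕ × ℕ => c = (c'.1, c'.2.1, c'.2.2 + 1) :=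
  Real2.bas (.dec true)

/-- The second loop: `j` rounds of `dec₁; inc₀^q`. -/
theorem Real2.loop1 (q : ℕ) :
    Real2 fun c c' : List T × ℕ × ℕ =>
      ∃ j, c.2.2 = c'.2.2 + j ∧ c' = (c.1, c.2.1 + j * q, c'.2.2) := by
  refine ((Real2.dec1.seq (Real2.inc0 q)).star).congr fun c c' => ?_
  constructor
  · intro h
    induction h with
    | refl => exact ⟨0, by simp⟩
    | tail _ hs ih =>
      obtain ⟨j, h1, h2⟩ := ih
      obtain ⟨e, h3, h4⟩ := hs
      refine ⟨j + 1, ?_, ?_⟩
      · rw [h4, h1, h3]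
        simp only
        ring
      · rw [h4, h2] at *
        rw [Prod.ext_iff, Prod.ext_iff] at h3
        obtain ⟨h31, h32, h33⟩ := h3
        simp only at h31 h32 h33 ⊢
        rw [← h31, ← h32]
        refine Prod.ext rfl (Prod.ext ?_ rfl)
        simp only
        ring
  · rintro ⟨j, h1, h2⟩
    obtain ⟨u, x, y⟩ := c
    obtain ⟨u', x', y'⟩ := c'
    simp only [Prod.mk.injEq] at h1 h2
    obtain ⟨rfl, rfl, -⟩ := h2
    subst h1
    induction j generalizing x with
    | zero => simp only [Nat.zero_mul, Nat.add_zero]; exact .refl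
    | succ j ih =>
      refine ReflTransGen.head ⟨(u', x, y' + j), ?_, rfl⟩ ?_
      · exact Prod.ext rfl (Prod.ext rfl rfl)
      · have h := ih (x + q)
        have e : x + q + j * q = x + (j + 1) * q := by ring
        rw [e] at h
        exact h

/-- `(dec₀^p; inc₁^q)*; zer₀`. -/
theorem Real2.mz0 (p q : ℕ) :
    Real2 fun c c' : List T × ℕ × ℕ => ∃ j, c.2.1 = j * p ∧ c' = (c.1, 0, c.2.2 + j * q) := by
  refine ((Real2.loop0 p q).seq (Real2.bas (.zer false))).congr fun c c' => ?_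
  simp only [Relation.Comp, Instr2.sem]
  constructor
  · rintro ⟨d, ⟨j, h1, h2⟩, rfl, h3⟩
    rw [h3] at h1 h2
    exact ⟨j, by omega, h2⟩
  · rintro ⟨j, h1, rfl⟩
    exact ⟨_, ⟨j, by simpa using h1, rfl⟩, rfl, rfl⟩

/-- `(dec₁; inc₀^q)*; zer₁`. -/
theorem Real2.mz1 (q : ℕ) :
    Real2 fun c c' : List T × ℕ × ℕ => c' = (c.1, c.2.1 + c.2.2 * q, 0) := by
  refine ((Real2.loop1 q).seq (Real2.bas (.zer true))).congr fun c c' => ?_
  simp only [Relation.Comp, Instr2.sem]
  constructor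
  · rintro ⟨d, ⟨j, h1, h2⟩, rfl, h3⟩
    rw [h3] at h1 h2
    have h4 : c.2.2 = j := by omega
    rw [h4, h2]
  · rintro rfl
    exact ⟨_, ⟨c.2.2, by simp, rfl⟩, rfl, rfl⟩

/-- Output and multiplication. -/
theorem Real2.mul (u : List T) (p : ℕ) :
    Real2 fun c c' : List T × ℕ × ℕ => c' = (c.1 ++ u, c.2.2 + c.2.1 * p, 0) := by
  refine (((Real2.bas (.out u)).seq (Real2.mz0 1 p)).seq (Real2.mz1 1)).congr fun c c' => ?_
  simp only [Relation.Comp, Instr2.sem]
  constructor
  · rintro ⟨d, ⟨e, rfl, j, h1, rfl⟩, rfl⟩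
    have h2 : c.2.1 = j := by simpa using h1
    simp only [h2]
    refine Prod.ext rfl (Prod.ext ?_ rfl)
    simp only
    ring
  · rintro rfl
    refine ⟨_, ⟨_, rfl, c.2.1, by simp, rfl⟩, ?_⟩
    refine Prod.ext rfl (Prod.ext ?_ rfl)
    simp only
    ring

/-- Division. -/
theorem Real2.div (p : ℕ) :
    Real2 fun c c' : List T × ℕ × ℕ => ∃ j, c.2.1 = j * p ∧ c' = (c.1, c.2.2 + j, 0) := by
  refine ((Real2.mz0 p 1).seq (Real2.mz1 1)).congr fun c c' => ?_
  simp only [Relation.Comp]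
  constructor
  · rintro ⟨d, ⟨j, h1, rfl⟩, rfl⟩
    refine ⟨j, h1, ?_⟩
    refine Prod.ext rfl (Prod.ext ?_ rfl)
    simp only
    ring
  · rintro ⟨j, h1, rfl⟩
    refine ⟨_, ⟨j, h1, rfl⟩, ?_⟩
    refine Prod.ext rfl (Prod.ext ?_ rfl)
    simp only
    ring

/-- Remainder `j`. -/
theorem Real2.rem (p j : ℕ) :
    Real2 fun c c' : List T × ℕ × ℕ => c.2.1 = j ∧ c' = (c.1, c.2.2 * p + j, 0) := by
  refine ((((Real2.dec0 j).seq (Real2.bas (.zer false))).seq (Real2.mz1 p)).seq
    (Real2.inc0 j)).congr fun c c' => ?_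
  simp only [Relation.Comp, Instr2.sem]
  constructor
  · rintro ⟨d, ⟨e, ⟨f, rfl, rfl, h3⟩, rfl⟩, rfl⟩
    simp only [h3]
    refine ⟨by omega, Prod.ext rfl (Prod.ext ?_ rfl)⟩
    simp only
    ring
  · rintro ⟨h1, rfl⟩
    refine ⟨_, ⟨_, ⟨(c.1, 0, c.2.2), ?_, rfl, rfl⟩, rfl⟩, ?_⟩
    · rw [Prod.ext_iff, Prod.ext_iff]
      refine ⟨rfl, ?_, rfl⟩
      simp only
      omega
    · refine Prod.ext rfl (Prod.ext ?_ rfl)
      simp only
      ring

/-- Test of divisibility. -/
theorem Real2.tst (p : ℕ) :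
    Real2 fun c c' : List T × ℕ × ℕ => ∃ i j, 1 ≤ j ∧ j < p ∧ c.2.1 = j + i * p ∧
      c' = (c.1, (c.2.2 + i) * p + j, 0) := by
  refine ((Real2.loop0 p 1).seq (Real2.listUnion ((List.range p).filter (fun j => 1 ≤ j))
    (fun j c c' => c.2.1 = j ∧ c' = (c.1, c.2.2 * p + j, 0))
    (fun j _ => Real2.rem p j))).congr fun c c' => ?_
  simp only [Relation.Comp, List.mem_filter, List.mem_range, decide_eq_true_eq]
  constructor
  · rintro ⟨d, ⟨i, h1, h2⟩, j, ⟨h3, h4⟩, h5, rfl⟩
    rw [h5] at h1 h2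
    refine ⟨i, j, h4, h3, h1, ?_⟩
    rw [h2, Nat.mul_one]
  · rintro ⟨i, j, h4, h3, h1, rfl⟩
    refine ⟨(c.1, j, c.2.2 + i), ⟨i, h1, ?_⟩, j, ⟨h3, h4⟩, rfl, rfl⟩
    rw [Nat.mul_one]

/-! ### Gödel numbers -/

theorem god_add (s v : ℕ →₀ ℕ) : god (s + v) = god s * god v :=
  Finsupp.prod_add_index' (fun _ => pow_zero _) (fun _ _ _ => pow_add _ _ _)

theorem prime_nth (i : ℕ) : (Nat.nth Nat.Prime i).Prime := Nat.prime_nth_prime i

theorem god_single (i : ℕ) : god (Finsupp.single i 1) = Nat.nth Nat.Prime i := by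
  rw [god, Finsupp.prod_single_index]
  · exact pow_one _
  · exact pow_zero _

theorem god_pos (s : ℕ →₀ ℕ) : 0 < god s :=
  Finset.prod_pos fun i _ => pow_pos (prime_nth i).pos _

theorem dvd_god (s : ℕ →₀ ℕ) (i : ℕ) : Nat.nth Nat.Prime i ∣ god s ↔ s i ≠ 0 := by
  constructor
  · intro h
    rw [god, Finsupp.prod, (prime_nth i).prime.dvd_finsetProd_iff] at h
    obtain ⟨j, hj, h⟩ := h
    have h1 := (prime_nth i).dvd_of_dvd_pow h
    have h2 := (Nat.prime_dvd_prime_iff_eq (prime_nth i) (prime_nth j)).1 h1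
    have h3 : i = j := Nat.nth_injective Nat.infinite_setOfPred_prime h2
    rw [h3]
    exact Finsupp.mem_support_iff.1 hj
  · intro h
    have h1 : s = (s - Finsupp.single i 1) + Finsupp.single i 1 := by
      rw [tsub_add_cancel_of_le]
      exact Finsupp.single_le_iff.2 (Nat.one_le_iff_ne_zero.2 h)
    rw [h1, god_add, god_single]
    exact Nat.dvd_mul_left _ _

end TO2

open TO2 in
/-- Many counters by two counters. -/
theorem t_TO2 : S_TO2 := by
  intro T I
  cases I with
  | add u v =>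
    obtain ⟨P, hP⟩ := Real2.mul (T := T) u (god v)
    refine ⟨P, fun c y => ?_⟩
    rw [hP]
    simp only [Instr.sem, Nat.zero_add]
    constructor
    · rintro rfl
      exact ⟨(c.1 ++ u, c.2 + v), by rw [god_add], rfl, rfl⟩
    · rintro ⟨c', rfl, h1, h2⟩
      rw [h1, h2, god_add]
  | dec i =>
    obtain ⟨P, hP⟩ := Real2.div (T := T) (Nat.nth Nat.Prime i)
    refine ⟨P, fun c y => ?_⟩
    rw [hP]
    simp only [Instr.sem, Nat.zero_add]
    constructor
    · rintro ⟨j, h1, rfl⟩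
      have h2 : c.2 i ≠ 0 := (dvd_god c.2 i).1 ⟨j, by rw [h1, Nat.mul_comm]⟩
      have h3 : c.2 = (c.2 - Finsupp.single i 1) + Finsupp.single i 1 := by
        rw [tsub_add_cancel_of_le]
        exact Finsupp.single_le_iff.2 (Nat.one_le_iff_ne_zero.2 h2)
      refine ⟨(c.1, c.2 - Finsupp.single i 1), ?_, rfl, h3⟩
      have h4 : god (c.2 - Finsupp.single i 1) * Nat.nth Nat.Prime i = j * Nat.nth Nat.Prime i := by
        rw [← h1]
        conv_rhs => rw [h3]
        rw [god_add, god_single]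
      have h5 := Nat.eq_of_mul_eq_mul_right (prime_nth i).pos h4
      rw [h5]
    · rintro ⟨c', rfl, h1, h2⟩
      refine ⟨god c'.2, ?_, by rw [h1]⟩
      rw [h2, god_add, god_single]
  | zer i =>
    obtain ⟨P, hP⟩ := Real2.tst (T := T) (Nat.nth Nat.Prime i)
    refine ⟨P, fun c y => ?_⟩
    rw [hP]
    simp only [Instr.sem, Nat.zero_add]
    constructor
    · rintro ⟨a, j, h1, h2, h3, rfl⟩
      refine ⟨c, ?_, rfl, ?_⟩
      · rw [h3, Nat.add_comm]
      · by_contra h4
        have h5 := (dvd_god c.2 i).2 h4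
        rw [h3, Nat.dvd_add_left (Nat.dvd_mul_left _ _)] at h5
        exact absurd (Nat.le_of_dvd (by omega) h5) (by omega)
    · rintro ⟨c', rfl, rfl, h1⟩
      have h2 : ¬ Nat.nth Nat.Prime i ∣ god c'.2 := fun h => (dvd_god c'.2 i).1 h h1
      refine ⟨god c'.2 / Nat.nth Nat.Prime i, god c'.2 % Nat.nth Nat.Prime i, ?_,
        Nat.mod_lt _ (prime_nth i).pos, ?_, ?_⟩
      · rw [Nat.one_le_iff_ne_zero]
        exact fun h => h2 (Nat.dvd_of_mod_eq_zero h)
      · rw [Nat.mul_comm, Nat.mod_add_div]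
      · rw [Nat.mul_comm (_ / _), Nat.div_add_mod]

end Pool.Agent.UDG
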